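import Mathlib

set_option autoImplicit false

open Finset

namespace Pool.Agent.H591R3.BH

/-! ### the two-point inequality -/

theorem aux_deriv {s : ℝ} (hs0 : 0 ≤ s) (hs1 : s ≤ 1) {y : ℝ} (hy0 : 0 ≤ y) (hy1 : y ≤ 1) :
    2 * s * y ≤ (1 + y) ^ s - (1 - y) ^ s := by
  rcases eq_or_lt_of_le hs0 with h0 | h0
  · rw [← h0]; simp
  have hmono : MonotoneOn (fun y : ℝ => (1 + y) ^ s - (1 - y) ^ s - 2 * s * y) (Set.Icc 0 1) := by
    apply monotoneOn_of_deriv_nonneg (convex_Icc 0 1)
    · apply ContinuousOn.sub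
      · apply ContinuousOn.sub
        · apply ContinuousOn.rpow_const (by fun_prop)
          intro x hx; right; exact hs0
        · apply ContinuousOn.rpow_const (by fun_prop)
          intro x hx; right; exact hs0
      · fun_prop
    · intro x hx
      rw [interior_Icc] at hx
      have h1 : (1 + x) ≠ 0 := by linarith [hx.1]
      have h2 : (1 - x) ≠ 0 := by linarith [hx.2]
      have d1 : DifferentiableAt ℝ (fun y : ℝ => (1 + y) ^ s) x :=
        (DifferentiableAt.rpow_const (by fun_prop) (Or.inl h1))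
      have d2 : DifferentiableAt ℝ (fun y : ℝ => (1 - y) ^ s) x :=
        (DifferentiableAt.rpow_const (by fun_prop) (Or.inl h2))
      exact ((d1.sub d2).sub (by fun_prop)).differentiableWithinAt
    · intro x hx
      rw [interior_Icc] at hx
      have h1 : 0 < 1 + x := by linarith [hx.1]
      have h2 : 0 < 1 - x := by linarith [hx.2]
      have e1 : HasDerivAt (fun y : ℝ => (1 + y) ^ s) (1 * s * (1 + x) ^ (s - 1)) x :=
        ((hasDerivAt_id x).const_add 1).rpow_const (Or.inl h1.ne')
      have e2 : HasDerivAt (fun y : ℝ => (1 - y) ^ s) (-1 * s * (1 - x) ^ (s - 1)) x :=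
        ((hasDerivAt_id x).const_sub 1).rpow_const (Or.inl h2.ne')
      have e3 : HasDerivAt (fun y : ℝ => 2 * s * y) (2 * s) x := by
        simpa using (hasDerivAt_id x).const_mul (2 * s)
      have e4 : HasDerivAt (fun y : ℝ => (1 + y) ^ s - (1 - y) ^ s - 2 * s * y)
          (1 * s * (1 + x) ^ (s - 1) - -1 * s * (1 - x) ^ (s - 1) - 2 * s) x := (e1.sub e2).sub e3
      rw [e4.deriv]
      have h3 : 2 ≤ (1 + x) ^ (s - 1) + (1 - x) ^ (s - 1) := by
        have h4 : 1 ≤ (1 + x) ^ (s - 1) * (1 - x) ^ (s - 1) := by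
          rw [← Real.mul_rpow h1.le h2.le]
          apply Real.one_le_rpow_of_pos_of_le_one_of_nonpos (mul_pos h1 h2)
          · nlinarith [sq_nonneg x]
          · linarith
        have h5 : 0 < (1 + x) ^ (s - 1) := Real.rpow_pos_of_pos h1 _
        have h6 : 0 < (1 - x) ^ (s - 1) := Real.rpow_pos_of_pos h2 _
        nlinarith [sq_nonneg ((1 + x) ^ (s - 1) - (1 - x) ^ (s - 1))]
      nlinarith
  have := hmono (Set.mem_Icc.2 ⟨le_rfl, zero_le_one⟩) (Set.mem_Icc.2 ⟨hy0, hy1⟩) hy0
  simp only [add_zero, sub_zero, mul_zero, Real.one_rpow, sub_self] at this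
  linarith

theorem aux_two {p : ℝ} (hp1 : 1 ≤ p) (hp2 : p ≤ 2) {y : ℝ} (hy0 : 0 ≤ y) (hy1 : y ≤ 1) :
    2 + p * (p - 1) * y ^ 2 ≤ (1 + y) ^ p + (1 - y) ^ p := by
  have hmono : MonotoneOn (fun y : ℝ => (1 + y) ^ p + (1 - y) ^ p - p * (p - 1) * y ^ 2)
      (Set.Icc 0 1) := by
    apply monotoneOn_of_deriv_nonneg (convex_Icc 0 1)
    · apply ContinuousOn.sub
      · apply ContinuousOn.add
        · apply ContinuousOn.rpow_const (by fun_prop)
          intro x hx; right; linarith
        · apply ContinuousOn.rpow_const (by fun_prop)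
          intro x hx; right; linarith
      · fun_prop
    · intro x hx
      rw [interior_Icc] at hx
      have h1 : (1 + x) ≠ 0 := by linarith [hx.1]
      have h2 : (1 - x) ≠ 0 := by linarith [hx.2]
      have d1 : DifferentiableAt ℝ (fun y : ℝ => (1 + y) ^ p) x :=
        (DifferentiableAt.rpow_const (by fun_prop) (Or.inl h1))
      have d2 : DifferentiableAt ℝ (fun y : ℝ => (1 - y) ^ p) x :=
        (DifferentiableAt.rpow_const (by fun_prop) (Or.inl h2))
      exact ((d1.add d2).sub (by fun_prop)).differentiableWithinAt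
    · intro x hx
      rw [interior_Icc] at hx
      have h1 : 0 < 1 + x := by linarith [hx.1]
      have h2 : 0 < 1 - x := by linarith [hx.2]
      have e1 : HasDerivAt (fun y : ℝ => (1 + y) ^ p) (1 * p * (1 + x) ^ (p - 1)) x :=
        ((hasDerivAt_id x).const_add 1).rpow_const (Or.inl h1.ne')
      have e2 : HasDerivAt (fun y : ℝ => (1 - y) ^ p) (-1 * p * (1 - x) ^ (p - 1)) x :=
        ((hasDerivAt_id x).const_sub 1).rpow_const (Or.inl h2.ne')
      have e3 : HasDerivAt (fun y : ℝ => p * (p - 1) * y ^ 2) (p * (p - 1) * (2 * x)) x := by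
        have := (hasDerivAt_pow 2 x).const_mul (p * (p - 1))
        simpa using this
      have e4 : HasDerivAt (fun y : ℝ => (1 + y) ^ p + (1 - y) ^ p - p * (p - 1) * y ^ 2)
          (1 * p * (1 + x) ^ (p - 1) + -1 * p * (1 - x) ^ (p - 1) - p * (p - 1) * (2 * x)) x :=
        (e1.add e2).sub e3
      rw [e4.deriv]
      have h3 := aux_deriv (s := p - 1) (by linarith) (by linarith) hx.1.le hx.2.le
      nlinarith
  have := hmono (Set.mem_Icc.2 ⟨le_rfl, zero_le_one⟩) (Set.mem_Icc.2 ⟨hy0, hy1⟩) hy0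
  simp only [add_zero, sub_zero, Real.one_rpow] at this
  norm_num at this
  linarith

theorem two_point_pos {p : ℝ} (hp1 : 1 ≤ p) (hp2 : p ≤ 2) {a b : ℝ} (hb : 0 ≤ b) (hab : b ≤ a) :
    (a ^ 2 + (p - 1) * b ^ 2) ^ (p / 2) ≤ ((a + b) ^ p + (a - b) ^ p) / 2 := by
  rcases eq_or_lt_of_le (hb.trans hab) with h0 | h0
  · have hb0 : b = 0 := le_antisymm (by rw [h0]; exact hab) hb
    rw [← h0, hb0]
    simp only [ne_eq, OfNat.ofNat_ne_zero, not_false_eq_true, zero_pow, mul_zero, add_zero, sub_zero]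
    rw [Real.zero_rpow (by linarith), Real.zero_rpow (by linarith)]
    norm_num
  · set y := b / a with hy
    have hy0 : 0 ≤ y := div_nonneg hb h0.le
    have hy1 : y ≤ 1 := by rw [hy, div_le_one h0]; exact hab
    have hb' : b = a * y := by rw [hy]; field_simp
    have h1 := aux_two hp1 hp2 hy0 hy1
    have h2 : (1 + (p - 1) * y ^ 2) ^ (p / 2) ≤ 1 + p / 2 * ((p - 1) * y ^ 2) := by
      apply rpow_one_add_le_one_add_mul_self
      · have : 0 ≤ (p - 1) * y ^ 2 := mul_nonneg (by linarith) (sq_nonneg y)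
        linarith
      · linarith
      · linarith
    have h3 : (a ^ 2 + (p - 1) * b ^ 2) ^ (p / 2) = a ^ p * (1 + (p - 1) * y ^ 2) ^ (p / 2) := by
      have e : a ^ 2 + (p - 1) * b ^ 2 = a ^ 2 * (1 + (p - 1) * y ^ 2) := by rw [hb']; ring
      rw [e, Real.mul_rpow (sq_nonneg a) (by
        have : 0 ≤ (p - 1) * y ^ 2 := mul_nonneg (by linarith) (sq_nonneg y)
        linarith)]
      congr 1
      rw [← Real.rpow_natCast, ← Real.rpow_mul h0.le]
      congr 1
      push_cast; ring
    have h4 : (a + b) ^ p = a ^ p * (1 + y) ^ p := by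
      rw [hb', ← Real.mul_rpow h0.le (by linarith)]; congr 1; ring
    have h5 : (a - b) ^ p = a ^ p * (1 - y) ^ p := by
      rw [hb', ← Real.mul_rpow h0.le (by linarith)]; congr 1; ring
    rw [h3, h4, h5]
    have h6 : 0 < a ^ p := Real.rpow_pos_of_pos h0 p
    have h7 : (1 + (p - 1) * y ^ 2) ^ (p / 2) ≤ ((1 + y) ^ p + (1 - y) ^ p) / 2 := by linarith
    calc a ^ p * (1 + (p - 1) * y ^ 2) ^ (p / 2) ≤ a ^ p * (((1 + y) ^ p + (1 - y) ^ p) / 2) :=
          mul_le_mul_of_nonneg_left h7 h6.le
      _ = _ := by ring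

/-- The two-point inequality for nonnegative numbers. -/
theorem two_point {p : ℝ} (hp1 : 1 ≤ p) (hp2 : p ≤ 2) {a b : ℝ} (ha : 0 ≤ a) (hb : 0 ≤ b) :
    (a ^ 2 + (p - 1) * b ^ 2) ^ (p / 2) ≤ ((a + b) ^ p + |a - b| ^ p) / 2 := by
  rcases le_total b a with h | h
  · rw [abs_of_nonneg (by linarith)]
    exact two_point_pos hp1 hp2 hb h
  · rw [abs_of_nonpos (by linarith), neg_sub, add_comm a b]
    refine le_trans ?_ (two_point_pos hp1 hp2 ha h)
    apply Real.rpow_le_rpow
    · have := mul_nonneg (sub_nonneg.2 hp1) (sq_nonneg b)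
      positivity
    · have : a ^ 2 ≤ b ^ 2 := pow_le_pow_left₀ ha h 2
      nlinarith
    · linarith

/-- The two-point inequality in a Hilbert space: `A = ‖u‖²`, `B = ‖v‖²`, `c = ⟨u, v⟩`. -/
theorem two_point_hilbert {p : ℝ} (hp1 : 1 ≤ p) (hp2 : p ≤ 2) {A B c : ℝ} (hA : 0 ≤ A) (hB : 0 ≤ B)
    (hc : c ^ 2 ≤ A * B) :
    (A + (p - 1) * B) ^ (p / 2) ≤ ((A + B + 2 * c) ^ (p / 2) + (A + B - 2 * c) ^ (p / 2)) / 2 := by
  set m := Real.sqrt A * Real.sqrt B with hm
  have hm0 : 0 ≤ m := by positivity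
  have hsA : Real.sqrt A ^ 2 = A := Real.sq_sqrt hA
  have hsB : Real.sqrt B ^ 2 = B := Real.sq_sqrt hB
  have hm2 : m ^ 2 = A * B := by rw [hm, mul_pow, hsA, hsB]
  have hcm : |c| ≤ m := abs_le_of_sq_le_sq (by rw [hm2]; exact hc) hm0
  have hp : 0 ≤ p / 2 := by linarith
  have hp' : p / 2 ≤ 1 := by linarith
  -- the extreme values
  have e1 : (A + B + 2 * m) ^ (p / 2) = (Real.sqrt A + Real.sqrt B) ^ p := by
    have : A + B + 2 * m = (Real.sqrt A + Real.sqrt B) ^ 2 := by rw [add_sq, hsA, hsB, hm]; ring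
    rw [this, ← Real.rpow_natCast, ← Real.rpow_mul (by positivity)]
    congr 1; push_cast; ring
  have e2 : (A + B - 2 * m) ^ (p / 2) = |Real.sqrt A - Real.sqrt B| ^ p := by
    have : A + B - 2 * m = |Real.sqrt A - Real.sqrt B| ^ 2 := by
      rw [sq_abs, sub_sq, hsA, hsB, hm]; ring
    rw [this, ← Real.rpow_natCast, ← Real.rpow_mul (abs_nonneg _)]
    congr 1; push_cast; ring
  have h1 := two_point hp1 hp2 (Real.sqrt_nonneg A) (Real.sqrt_nonneg B)
  rw [hsA, hsB, ← e1, ← e2] at h1
  refine h1.trans ?_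
  -- concavity
  have hAB : 0 ≤ A + B - 2 * m := by
    have : A + B - 2 * m = (Real.sqrt A - Real.sqrt B) ^ 2 := by rw [sub_sq, hsA, hsB, hm]; ring
    rw [this]; positivity
  rcases eq_or_lt_of_le hm0 with h0 | h0
  · have hc0 : c = 0 := by
      rw [← h0] at hcm
      exact abs_eq_zero.1 (le_antisymm hcm (abs_nonneg c))
    rw [← h0, hc0]
  · have hconc := Real.concaveOn_rpow hp hp'
    set l := (m + c) / (2 * m) with hl
    have hl0 : 0 ≤ l := div_nonneg (by linarith [(abs_le.1 hcm).1]) (by linarith)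
    have hl1 : 0 ≤ 1 - l := by
      rw [sub_nonneg, hl, div_le_one (by linarith)]; linarith [(abs_le.1 hcm).2]
    have hx : (A + B + 2 * m) ∈ Set.Ici (0:ℝ) := by
      show 0 ≤ A + B + 2 * m; positivity
    have hy : (A + B - 2 * m) ∈ Set.Ici (0:ℝ) := hAB
    have h2 := hconc.2 hx hy hl0 hl1 (by ring)
    have h3 := hconc.2 hy hx hl0 hl1 (by ring)
    simp only [smul_eq_mul] at h2 h3
    have e3 : l * (A + B + 2 * m) + (1 - l) * (A + B - 2 * m) = A + B + 2 * c := by
      rw [hl]; field_simp; ring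
    have e4 : l * (A + B - 2 * m) + (1 - l) * (A + B + 2 * m) = A + B - 2 * c := by
      rw [hl]; field_simp; ring
    rw [e3] at h2
    rw [e4] at h3
    linarith

/-! ### Bonami's inequality -/

/-- sign of a bit -/
def sg (b : Bool) : ℝ := if b then 1 else -1

theorem sg_not (b : Bool) : sg (!b) = - sg b := by cases b <;> simp [sg]

theorem sg_abs (b : Bool) : |sg b| = 1 := by cases b <;> simp [sg]

theorem sg_sq (b : Bool) : sg b * sg b = 1 := by cases b <;> simp [sg]

variable {α : Type} [DecidableEq α] [Fintype α]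

/-- characters -/
def chi (e : α → Bool) (R : Finset α) : ℝ := ∏ i ∈ R, sg (e i)

/-- the polynomial with coefficients `c` on the subsets of `V` -/
def poly (V : Finset α) (c : Finset α → ℝ) (e : α → Bool) : ℝ := ∑ R ∈ V.powerset, c R * chi e R

omit [Fintype α] in
theorem chi_insert (e : α → Bool) {v : α} {R : Finset α} (h : v ∉ R) :
    chi e (insert v R) = sg (e v) * chi e R := prod_insert h

omit [Fintype α] in
theorem poly_insert {V : Finset α} {v : α} (hv : v ∉ V) (c : Finset α → ℝ) (e : α → Bool) :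
    poly (insert v V) c e = poly V c e + sg (e v) * poly V (fun R => c (insert v R)) e := by
  unfold poly
  rw [sum_powerset_insert hv, mul_sum]
  congr 1
  apply sum_congr rfl
  intro R hR
  rw [chi_insert e (fun h => hv (mem_powerset.1 hR h))]
  ring

/-- flip of one coordinate -/
def flp (v : α) (e : α → Bool) : α → Bool := Function.update e v (!(e v))

omit [Fintype α] in
theorem flp_flp (v : α) (e : α → Bool) : flp v (flp v e) = e := by
  funext i
  by_cases h : i = v
  · subst h; simp [flp]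
  · simp [flp, h]

/-- the flip as an equivalence -/
def flpE (v : α) : (α → Bool) ≃ (α → Bool) := ⟨flp v, flp v, flp_flp v, flp_flp v⟩

theorem sum_flp (v : α) (F : (α → Bool) → ℝ) : ∑ e, F (flp v e) = ∑ e, F e :=
  Equiv.sum_comp (flpE v) F

omit [Fintype α] in
theorem chi_flp {v : α} {R : Finset α} (h : v ∉ R) (e : α → Bool) : chi (flp v e) R = chi e R := by
  unfold chi
  apply prod_congr rfl
  intro i hi
  have : i ≠ v := fun h' => h (h' ▸ hi)
  simp [flp, this]

omit [Fintype α] in
theorem poly_flp {V : Finset α} {v : α} (hv : v ∉ V) (c : Finset α → ℝ) (e : α → Bool) :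
    poly V c (flp v e) = poly V c e := by
  unfold poly
  apply sum_congr rfl
  intro R hR
  rw [chi_flp (fun h => hv (mem_powerset.1 hR h))]

omit [Fintype α] in
theorem sg_flp (v : α) (e : α → Bool) : sg (flp v e v) = - sg (e v) := by
  simp [flp, sg_not]

/-- weighted square norm of the coefficients -/
def nrm (V : Finset α) (l : ℝ) (c : Finset α → ℝ) : ℝ := ∑ R ∈ V.powerset, l ^ R.card * c R ^ 2

omit [Fintype α] in
theorem nrm_nonneg (V : Finset α) {l : ℝ} (hl : 0 ≤ l) (c : Finset α → ℝ) : 0 ≤ nrm V l c :=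
  sum_nonneg fun _ _ => by positivity

omit [Fintype α] in
theorem nrm_insert {V : Finset α} {v : α} (hv : v ∉ V) (l : ℝ) (c : Finset α → ℝ) :
    nrm (insert v V) l c = nrm V l c + l * nrm V l (fun R => c (insert v R)) := by
  unfold nrm
  rw [sum_powerset_insert hv, mul_sum]
  congr 1
  apply sum_congr rfl
  intro R hR
  rw [card_insert_of_notMem (fun h => hv (mem_powerset.1 hR h)), pow_succ]
  ring

/-- **Bonami's inequality**, `L^p` lower bound by the noisy `L²` norm. -/
theorem bonami {p : ℝ} (hp1 : 1 ≤ p) (hp2 : p ≤ 2) (V : Finset α) (c : Finset α → ℝ) :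
    (nrm V (p - 1) c) ^ (p / 2) * Fintype.card (α → Bool) ≤ ∑ e : α → Bool, |poly V c e| ^ p := by
  induction V using Finset.induction_on generalizing c with
  | empty =>
    have h1 : ∀ e : α → Bool, |poly ∅ c e| ^ p = |c ∅| ^ p := by
      intro e; simp [poly, chi]
    simp only [h1, sum_const, card_univ, nsmul_eq_mul]
    have h2 : nrm ∅ (p - 1) c = c ∅ ^ 2 := by simp [nrm]
    rw [h2, mul_comm, ← sq_abs, ← Real.rpow_natCast, ← Real.rpow_mul (abs_nonneg _)]
    have h3 : ((2 : ℕ) : ℝ) * (p / 2) = p := by push_cast; ring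
    rw [h3]
  | insert v V hv ih =>
    set d : Finset α → ℝ := fun R => c (insert v R) with hd
    have hl : 0 ≤ p - 1 := by linarith
    -- split according to the sign of the new coordinate
    have h1 : ∑ e : α → Bool, |poly (insert v V) c e| ^ p =
        (∑ e : α → Bool, |poly V (fun R => c R + d R) e| ^ p +
          ∑ e : α → Bool, |poly V (fun R => c R - d R) e| ^ p) / 2 := by
      have h2 : ∑ e : α → Bool, |poly (insert v V) c e| ^ p =
          (∑ e : α → Bool, |poly (insert v V) c e| ^ p +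
            ∑ e : α → Bool, |poly (insert v V) c (flp v e)| ^ p) / 2 := by
        rw [sum_flp v (fun e => |poly (insert v V) c e| ^ p)]; ring
      rw [h2, ← sum_add_distrib, ← sum_add_distrib]
      congr 1
      apply sum_congr rfl
      intro e _
      have e1 : poly V (fun R => c R + d R) e = poly V c e + poly V d e := by
        unfold poly; rw [← sum_add_distrib]
        exact sum_congr rfl fun _ _ => by ring
      have e2 : poly V (fun R => c R - d R) e = poly V c e - poly V d e := by
        unfold poly; rw [← sum_sub_distrib]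
        exact sum_congr rfl fun _ _ => by ring
      rw [poly_insert hv, poly_insert hv, poly_flp hv, poly_flp hv, sg_flp, e1, e2]
      rcases Bool.eq_false_or_eq_true (e v) with h | h
      · have hs : sg (e v) = 1 := by rw [h]; rfl
        rw [hs, one_mul, neg_one_mul, ← sub_eq_add_neg]
      · have hs : sg (e v) = -1 := by rw [h]; rfl
        rw [hs, neg_neg, one_mul, neg_one_mul, ← sub_eq_add_neg, add_comm]
    rw [h1]
    have h2 := ih (fun R => c R + d R)
    have h3 := ih (fun R => c R - d R)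
    set A := nrm V (p - 1) c with hA
    set B := nrm V (p - 1) d with hB
    set m := ∑ R ∈ V.powerset, (p - 1) ^ R.card * (c R * d R) with hm
    have e1 : nrm V (p - 1) (fun R => c R + d R) = A + B + 2 * m := by
      simp only [hA, hB, hm, nrm, mul_sum, ← sum_add_distrib]
      exact sum_congr rfl fun _ _ => by ring
    have e2 : nrm V (p - 1) (fun R => c R - d R) = A + B - 2 * m := by
      simp only [hA, hB, hm, nrm, mul_sum, ← sum_add_distrib, ← sum_sub_distrib]
      exact sum_congr rfl fun _ _ => by ring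
    have hcs : m ^ 2 ≤ A * B := by
      have h4 := sum_mul_sq_le_sq_mul_sq V.powerset
        (fun R => Real.sqrt ((p - 1) ^ R.card) * c R) (fun R => Real.sqrt ((p - 1) ^ R.card) * d R)
      have h5 : ∑ R ∈ V.powerset, Real.sqrt ((p - 1) ^ R.card) * c R *
          (Real.sqrt ((p - 1) ^ R.card) * d R) = m := by
        rw [hm]
        apply sum_congr rfl
        intro R _
        have : Real.sqrt ((p - 1) ^ R.card) * Real.sqrt ((p - 1) ^ R.card) = (p - 1) ^ R.card :=
          Real.mul_self_sqrt (by positivity)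
        calc Real.sqrt ((p - 1) ^ R.card) * c R * (Real.sqrt ((p - 1) ^ R.card) * d R) =
            Real.sqrt ((p - 1) ^ R.card) * Real.sqrt ((p - 1) ^ R.card) * (c R * d R) := by ring
          _ = _ := by rw [this]
      have h6 : ∀ g : Finset α → ℝ, ∑ R ∈ V.powerset, (Real.sqrt ((p - 1) ^ R.card) * g R) ^ 2 =
          nrm V (p - 1) g := by
        intro g
        unfold nrm
        apply sum_congr rfl
        intro R _
        rw [mul_pow, Real.sq_sqrt (by positivity)]
      rw [h5, h6, h6] at h4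
      exact h4
    have h4 := two_point_hilbert hp1 hp2 (nrm_nonneg V hl c) (nrm_nonneg V hl d) hcs
    rw [e1] at h2
    rw [e2] at h3
    rw [nrm_insert hv]
    have hcard : (0:ℝ) ≤ Fintype.card (α → Bool) := Nat.cast_nonneg _
    calc (A + (p - 1) * B) ^ (p / 2) * (Fintype.card (α → Bool) : ℝ) ≤
        ((A + B + 2 * m) ^ (p / 2) + (A + B - 2 * m) ^ (p / 2)) / 2 * Fintype.card (α → Bool) :=
          mul_le_mul_of_nonneg_right h4 hcard
      _ = ((A + B + 2 * m) ^ (p / 2) * Fintype.card (α → Bool) +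
          (A + B - 2 * m) ^ (p / 2) * Fintype.card (α → Bool)) / 2 := by ring
      _ ≤ _ := by linarith

end Pool.Agent.H591R3.BH
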