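import Pool.Agent.H591R3.BH9

set_option autoImplicit false

open Finset

namespace Pool.Agent.H591R3.BH

/-- The unimodular inequality. -/
theorem unimodular {C : ℕ} (hC : (3 / 4 : ℝ) ^ C ≤ c0) {n d : ℕ} (hd : 1 ≤ d) (hdn : d ≤ n)
    (c : Finset (Fin n) → ℂ) (hc : ∀ S : Finset (Fin n), S.card = d → ‖c S‖ = 1) :
    ∃ e : Fin n → Bool, Real.sqrt ((n.choose d : ℕ) : ℝ) ≤
      2 * (d : ℝ) ^ ((1 / 2 : ℝ) + 1 / (2 * (24 + C))) * (n : ℝ) ^ (-(1 / (4 * (24 + C))) : ℝ) *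
        ‖∑ S ∈ (univ : Finset (Fin n)).powersetCard d, c S * ((chi e S : ℝ) : ℂ)‖ := by
  obtain ⟨e, he⟩ := Finite.exists_max (fun e : Fin n → Bool =>
    ‖∑ S ∈ (univ : Finset (Fin n)).powersetCard d, c S * ((chi e S : ℝ) : ℂ)‖)
  refine ⟨e, ?_⟩
  set B := ‖∑ S ∈ (univ : Finset (Fin n)).powersetCard d, c S * ((chi e S : ℝ) : ℂ)‖ with hB
  have hB0 : 0 ≤ B := norm_nonneg _
  set N : ℝ := ((n.choose d : ℕ) : ℝ) with hN
  have hN1 : 1 ≤ N := by
    have : 0 < n.choose d := Nat.choose_pos hdn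
    rw [hN]; exact_mod_cast this
  have hdR : (1 : ℝ) ≤ d := by exact_mod_cast hd
  have hnR : (1 : ℝ) ≤ n := by exact_mod_cast hd.trans hdn
  set P : Finset (Finset (Fin n)) := (univ : Finset (Fin n)).powersetCard d with hP
  have hPcard : ((P.card : ℕ) : ℝ) = N := by rw [hP, card_powersetCard, card_univ, Fintype.card_fin]
  -- real and imaginary parts
  have hre : ∀ e' : Fin n → Bool, (∑ S ∈ P, c S * ((chi e' S : ℝ) : ℂ)).re =
      ∑ S ∈ P, (c S).re * chi e' S := by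
    intro e'
    rw [Complex.re_sum]
    exact sum_congr rfl fun S _ => Complex.re_mul_ofReal _ _
  have him : ∀ e' : Fin n → Bool, (∑ S ∈ P, c S * ((chi e' S : ℝ) : ℂ)).im =
      ∑ S ∈ P, (c S).im * chi e' S := by
    intro e'
    rw [Complex.im_sum]
    exact sum_congr rfl fun S _ => Complex.im_mul_ofReal _ _
  have hreB : ∀ e' : Fin n → Bool, |∑ S ∈ P, (c S).re * chi e' S| ≤ B := by
    intro e'
    rw [← hre]
    exact (Complex.abs_re_le_norm _).trans (he e')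
  have himB : ∀ e' : Fin n → Bool, |∑ S ∈ P, (c S).im * chi e' S| ≤ B := by
    intro e'
    rw [← him]
    exact (Complex.abs_im_le_norm _).trans (he e')
  have hsq : ∀ S ∈ P, (c S).re ^ 2 + (c S).im ^ 2 = 1 := by
    intro S hS
    have h1 := hc S (mem_powersetCard.1 hS).2
    have h2 := Complex.sq_norm (c S)
    rw [h1, Complex.normSq_apply] at h2
    nlinarith
  -- the trivial bound
  have htriv : Real.sqrt N ≤ B := by
    rw [Real.sqrt_le_left hB0]
    have h1 := parseval (univ : Finset (Fin n)) (fun S => if S.card = d then (c S).re else 0)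
    have h2 := parseval (univ : Finset (Fin n)) (fun S => if S.card = d then (c S).im else 0)
    have e1 : ∀ (g : Finset (Fin n) → ℝ) (e' : Fin n → Bool),
        poly univ (fun S => if S.card = d then g S else 0) e' = ∑ S ∈ P, g S * chi e' S := by
      intro g e'
      unfold poly
      rw [hP, powersetCard_eq_filter, sum_filter]
      apply sum_congr rfl
      intro S _
      by_cases h : S.card = d
      · simp only [if_pos h]
      · simp only [if_neg h, zero_mul]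
    have e2 : ∀ (g : Finset (Fin n) → ℝ),
        nrm univ 1 (fun S => if S.card = d then g S else 0) = ∑ S ∈ P, g S ^ 2 := by
      intro g
      unfold nrm
      rw [hP, powersetCard_eq_filter, sum_filter]
      apply sum_congr rfl
      intro S _
      by_cases h : S.card = d
      · simp only [if_pos h, one_pow, one_mul]
      · simp only [if_neg h]; simp
    simp only [e1] at h1 h2
    rw [e2] at h1 h2
    set Ω : ℝ := (Fintype.card (Fin n → Bool) : ℝ) with hΩ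
    have hΩ0 : 0 < Ω := by rw [hΩ]; exact_mod_cast Fintype.card_pos
    have h3 : (∑ S ∈ P, (c S).re ^ 2 + ∑ S ∈ P, (c S).im ^ 2) = N := by
      rw [← sum_add_distrib, sum_congr rfl hsq, sum_const, nsmul_eq_mul, mul_one, hPcard]
    have h4 : ∑ e' : Fin n → Bool, ((∑ S ∈ P, (c S).re * chi e' S) ^ 2 +
        (∑ S ∈ P, (c S).im * chi e' S) ^ 2) ≤ ∑ _e' : Fin n → Bool, B ^ 2 := by
      apply sum_le_sum
      intro e' _
      have h5 : ‖∑ S ∈ P, c S * ((chi e' S : ℝ) : ℂ)‖ ^ 2 ≤ B ^ 2 :=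
        pow_le_pow_left₀ (norm_nonneg _) (he e') 2
      rw [Complex.sq_norm, Complex.normSq_apply, hre, him] at h5
      nlinarith
    rw [sum_add_distrib, h1, h2, ← add_mul, h3, sum_const, card_univ, nsmul_eq_mul, ← hΩ,
      mul_comm] at h4
    exact le_of_mul_le_mul_left h4 hΩ0
  -- the Bohnenblust-Hille bound
  set p : ℝ := (2 * (d : ℝ)) / ((d : ℝ) + 1) with hp
  have hp0 : 0 < p := by rw [hp]; positivity
  have hp1 : 1 ≤ p := by rw [hp, le_div_iff₀ (by positivity)]; linarith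
  have hp2 : p ≤ 2 := by rw [hp, div_le_iff₀ (by positivity)]; linarith
  have hinv : ((d : ℝ) + 1) / (2 * (d : ℝ)) = 1 / p := by rw [hp, one_div_div]
  set E : ℝ := (d : ℝ) ^ (23 + C) * B with hE
  have hE0 : 0 ≤ E := by positivity
  have hgen : ∀ g : Finset (Fin n) → ℝ, (∀ e' : Fin n → Bool, |∑ S ∈ P, g S * chi e' S| ≤ B) →
      ∑ S ∈ P, |g S| ^ p ≤ E ^ p := by
    intro g hg
    obtain ⟨e', he'⟩ := hom_all hC hd g
    rw [← hp, hinv] at he'
    have h1 : (∑ S ∈ P, |g S| ^ p) ^ (1 / p) ≤ E := he'.trans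
      (mul_le_mul_of_nonneg_left (hg e') (by positivity))
    have h2 : 0 ≤ ∑ S ∈ P, |g S| ^ p := sum_nonneg fun S _ => Real.rpow_nonneg (abs_nonneg _) _
    have h3 := Real.rpow_le_rpow (Real.rpow_nonneg h2 _) h1 hp0.le
    rwa [← Real.rpow_mul h2, one_div_mul_cancel hp0.ne', Real.rpow_one] at h3
  have hre2 := hgen _ hreB
  have him2 := hgen _ himB
  have hNE : N ≤ 2 * E ^ p := by
    have h1 : N ≤ ∑ S ∈ P, (|(c S).re| ^ p + |(c S).im| ^ p) := by
      rw [← hPcard, ← nsmul_one, ← sum_const]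
      apply sum_le_sum
      intro S hS
      have h2 := hsq S hS
      have h3 : ∀ t : ℝ, t ^ 2 ≤ 1 → t ^ 2 ≤ |t| ^ p := by
        intro t ht
        have h4 : |t| ≤ 1 := by
          rw [← sq_abs] at ht
          exact (sq_le_one_iff₀ (abs_nonneg t)).1 ht
        rcases eq_or_lt_of_le (abs_nonneg t) with h5 | h5
        · rw [← sq_abs, ← h5, Real.zero_rpow hp0.ne']; norm_num
        · rw [← sq_abs, ← Real.rpow_natCast]
          apply Real.rpow_le_rpow_of_exponent_ge h5 h4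
          exact_mod_cast hp2
      have h4 := h3 (c S).re (by nlinarith [sq_nonneg (c S).im])
      have h5 := h3 (c S).im (by nlinarith [sq_nonneg (c S).re])
      linarith
    rw [sum_add_distrib] at h1
    linarith
  -- `√N · (n/d)^{1/2} ≤ 2 E`
  have hkey : Real.sqrt N * ((n : ℝ) / d) ^ (1 / 2 : ℝ) ≤ 2 * E := by
    have hd0 : (0 : ℝ) < d := by linarith
    have h1 : N ^ (1 / p) ≤ 2 * E := by
      calc N ^ (1 / p) ≤ (2 * E ^ p) ^ (1 / p) :=
            Real.rpow_le_rpow (by linarith) hNE (by positivity)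
        _ = 2 ^ (1 / p) * E := by
            rw [Real.mul_rpow (by norm_num) (Real.rpow_nonneg hE0 _), ← Real.rpow_mul hE0,
              mul_one_div_cancel hp0.ne', Real.rpow_one]
        _ ≤ 2 * E := by
            apply mul_le_mul_of_nonneg_right _ hE0
            calc (2 : ℝ) ^ (1 / p) ≤ 2 ^ (1 : ℝ) := by
                  apply Real.rpow_le_rpow_of_exponent_le (by norm_num)
                  rw [div_le_iff₀ hp0]; linarith
              _ = 2 := Real.rpow_one _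
    refine le_trans ?_ h1
    have h2 : N ^ (1 / p) = Real.sqrt N * N ^ (1 / (2 * (d : ℝ))) := by
      rw [Real.sqrt_eq_rpow, ← Real.rpow_add (by linarith)]
      congr 1
      rw [← hinv]; field_simp
    rw [h2]
    apply mul_le_mul_of_nonneg_left _ (Real.sqrt_nonneg _)
    have h3 := choose_lower d n hd hdn
    have h4 : ((n : ℝ) / d) ^ (1 / 2 : ℝ) = (((n : ℝ) / d) ^ d) ^ (1 / (2 * (d : ℝ))) := by
      rw [← Real.rpow_natCast, ← Real.rpow_mul (by positivity)]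
      congr 1; field_simp
    rw [h4]
    exact Real.rpow_le_rpow (by positivity) h3 (by positivity)
  -- interpolate
  set A : ℝ := 24 + (C : ℝ) with hA
  have hA0 : 24 ≤ A := by rw [hA]; have : (0:ℝ) ≤ C := Nat.cast_nonneg C; linarith
  have hApos : 0 < A := by linarith
  have hd0 : (0 : ℝ) < d := by linarith
  have hn0 : (0 : ℝ) < n := by linarith
  have hBpos : 0 < B := lt_of_lt_of_le (Real.sqrt_pos.2 (by linarith)) htriv
  have hkey2 : Real.sqrt N ≤ 2 * (d : ℝ) ^ A * (n : ℝ) ^ (-(1 / 2) : ℝ) * B := by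
    have h1 : ((n : ℝ) / d) ^ (1 / 2 : ℝ) = (n : ℝ) ^ (1 / 2 : ℝ) * (d : ℝ) ^ (-(1 / 2) : ℝ) := by
      rw [Real.div_rpow hn0.le hd0.le, Real.rpow_neg hd0.le]; rfl
    rw [h1] at hkey
    have h2 : (0 : ℝ) < (n : ℝ) ^ (1 / 2 : ℝ) * (d : ℝ) ^ (-(1 / 2) : ℝ) := by positivity
    rw [← le_div_iff₀ h2] at hkey
    refine hkey.trans ?_
    rw [div_le_iff₀ h2]
    have h3 : 2 * (d : ℝ) ^ A * (n : ℝ) ^ (-(1 / 2) : ℝ) * B *
        ((n : ℝ) ^ (1 / 2 : ℝ) * (d : ℝ) ^ (-(1 / 2) : ℝ)) =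
        2 * ((d : ℝ) ^ A * (d : ℝ) ^ (-(1 / 2) : ℝ)) *
          ((n : ℝ) ^ (-(1 / 2) : ℝ) * (n : ℝ) ^ (1 / 2 : ℝ)) * B := by ring
    rw [h3, ← Real.rpow_add hn0, ← Real.rpow_add hd0]
    have h4 : (-(1 / 2) : ℝ) + 1 / 2 = 0 := by norm_num
    rw [h4, Real.rpow_zero, mul_one, hE, ← mul_assoc]
    apply mul_le_mul_of_nonneg_right _ hB0
    apply mul_le_mul_of_nonneg_left _ (by norm_num)
    rw [← Real.rpow_natCast]
    apply Real.rpow_le_rpow_of_exponent_le hdR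
    rw [hA]; push_cast; linarith
  have ht0 : 0 < 1 / (2 * A) := by positivity
  have ht1 : 1 / (2 * A) ≤ 1 := by rw [div_le_iff₀ (by positivity)]; linarith
  set t : ℝ := 1 / (2 * A) with ht
  have hs0 : 0 < Real.sqrt N := Real.sqrt_pos.2 (by linarith)
  have h1 : Real.sqrt N = Real.sqrt N ^ (1 - t) * Real.sqrt N ^ t := by
    rw [← Real.rpow_add hs0]; simp
  have h2 : Real.sqrt N ^ (1 - t) ≤ B ^ (1 - t) := Real.rpow_le_rpow hs0.le htriv (by linarith)
  have h3 : Real.sqrt N ^ t ≤ (2 * (d : ℝ) ^ A * (n : ℝ) ^ (-(1 / 2) : ℝ) * B) ^ t :=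
    Real.rpow_le_rpow hs0.le hkey2 ht0.le
  have h4 : (2 * (d : ℝ) ^ A * (n : ℝ) ^ (-(1 / 2) : ℝ) * B) ^ t =
      2 ^ t * (d : ℝ) ^ (1 / 2 : ℝ) * (n : ℝ) ^ (-(1 / (4 * A)) : ℝ) * B ^ t := by
    rw [Real.mul_rpow (by positivity) hB0, Real.mul_rpow (by positivity) (by positivity),
      Real.mul_rpow (by norm_num) (by positivity), ← Real.rpow_mul hd0.le, ← Real.rpow_mul hn0.le]
    have e1 : A * t = 1 / 2 := by rw [ht]; field_simp
    have e2 : -(1 / 2) * t = -(1 / (4 * A)) := by rw [ht]; field_simp; norm_num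
    rw [e1, e2]
  have h5 : (2 : ℝ) ^ t ≤ 2 := by
    calc (2 : ℝ) ^ t ≤ 2 ^ (1 : ℝ) := Real.rpow_le_rpow_of_exponent_le (by norm_num) ht1
      _ = 2 := Real.rpow_one _
  have h6 : (d : ℝ) ^ (1 / 2 : ℝ) ≤ (d : ℝ) ^ ((1 / 2 : ℝ) + t) :=
    Real.rpow_le_rpow_of_exponent_le hdR (by linarith)
  have h7 : B ^ (1 - t) * B ^ t = B := by rw [← Real.rpow_add hBpos]; simp
  calc Real.sqrt N = Real.sqrt N ^ (1 - t) * Real.sqrt N ^ t := h1
    _ ≤ B ^ (1 - t) * (2 ^ t * (d : ℝ) ^ (1 / 2 : ℝ) * (n : ℝ) ^ (-(1 / (4 * A)) : ℝ) * B ^ t) := by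
        rw [← h4]
        exact mul_le_mul h2 h3 (Real.rpow_nonneg hs0.le _) (Real.rpow_nonneg hB0 _)
    _ = (2 ^ t * (d : ℝ) ^ (1 / 2 : ℝ)) * (n : ℝ) ^ (-(1 / (4 * A)) : ℝ) *
          (B ^ (1 - t) * B ^ t) := by ring
    _ = (2 ^ t * (d : ℝ) ^ (1 / 2 : ℝ)) * (n : ℝ) ^ (-(1 / (4 * A)) : ℝ) * B := by rw [h7]
    _ ≤ (2 * (d : ℝ) ^ ((1 / 2 : ℝ) + t)) * (n : ℝ) ^ (-(1 / (4 * A)) : ℝ) * B := by
        apply mul_le_mul_of_nonneg_right _ hB0
        apply mul_le_mul_of_nonneg_right _ (by positivity)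
        exact mul_le_mul h5 h6 (by positivity) (by norm_num)

end Pool.Agent.H591R3.BH
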