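import Pool.Agent.H591R3.BH1

set_option autoImplicit false

open Finset

namespace Pool.Agent.H591R3.BH

variable {α : Type} [DecidableEq α]

theorem sum_pc_insert {V : Finset α} {v : α} (hv : v ∉ V) (k : ℕ) (f : Finset α → ℝ) :
    ∑ S ∈ (insert v V).powersetCard (k + 1), f S =
      ∑ S ∈ V.powersetCard (k + 1), f S + ∑ T ∈ V.powersetCard k, f (insert v T) := by
  rw [powersetCard_succ_insert hv, sum_union, sum_image]
  · intro T hT T' hT' h
    have h1 : v ∉ T := fun h => hv ((mem_powersetCard.1 hT).1 h)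
    have h2 : v ∉ T' := fun h => hv ((mem_powersetCard.1 hT').1 h)
    rw [← erase_insert h1, ← erase_insert h2]
    exact congrArg (fun s => s.erase v) h
  · rw [disjoint_left]
    intro S hS hS'
    obtain ⟨T, _, rfl⟩ := mem_image.1 hS'
    exact hv ((mem_powersetCard.1 hS).1 (mem_insert_self v T))

/-- The Loomis-Whitney inequality for sets. -/
theorem lw (V : Finset α) : ∀ (m : ℕ) (x : Finset α → ℝ), (∀ T, 0 ≤ x T) →
    ∑ S ∈ V.powersetCard (m + 2), ∏ i ∈ S, x (S.erase i) ≤
      (∑ T ∈ V.powersetCard (m + 1), x T ^ (m + 1)) ^ (((m : ℝ) + 2) / ((m : ℝ) + 1)) := by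
  induction V using Finset.induction_on with
  | empty =>
    intro m x hx
    have : (∅ : Finset α).powersetCard (m + 2) = ∅ := by
      apply powersetCard_eq_empty.2; simp
    rw [this, sum_empty]
    exact Real.rpow_nonneg (sum_nonneg fun T _ => pow_nonneg (hx T) _) _
  | insert v V hv ih =>
    intro m x hx
    rw [sum_pc_insert hv, sum_pc_insert hv]
    set Y := ∑ T ∈ V.powersetCard (m + 1), x T ^ (m + 1) with hY
    set Z := ∑ U ∈ V.powersetCard m, x (insert v U) ^ (m + 1) with hZ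
    have hY0 : 0 ≤ Y := sum_nonneg fun T _ => pow_nonneg (hx T) _
    have hZ0 : 0 ≤ Z := sum_nonneg fun T _ => pow_nonneg (hx _) _
    have h1 := ih m x hx
    rw [← hY] at h1
    have h2 : ∑ T ∈ V.powersetCard (m + 1), ∏ i ∈ insert v T, x ((insert v T).erase i) ≤
        Y ^ (1 / ((m : ℝ) + 1)) * Z := by
      have h3 : ∀ T ∈ V.powersetCard (m + 1), ∏ i ∈ insert v T, x ((insert v T).erase i) =
          x T * ∏ i ∈ T, x (insert v (T.erase i)) := by
        intro T hT
        have hvT : v ∉ T := fun h => hv ((mem_powersetCard.1 hT).1 h)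
        rw [prod_insert hvT, erase_insert hvT]
        congr 1
        apply prod_congr rfl
        intro i hi
        have : v ≠ i := fun h => hvT (h ▸ hi)
        rw [erase_insert_of_ne this]
      rw [sum_congr rfl h3]
      rcases m with _ | m
      · -- the case of singletons
        have h4 : ∀ T ∈ V.powersetCard (0 + 1), x T * ∏ i ∈ T, x (insert v (T.erase i)) =
            x T ^ (0 + 1) * x {v} := by
          intro T hT
          obtain ⟨a, rfl⟩ := card_eq_one.1 (mem_powersetCard.1 hT).2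
          simp
        rw [sum_congr rfl h4, ← sum_mul, ← hY]
        have h5 : Z = x {v} := by rw [hZ]; simp
        rw [h5]
        simp
      · set q : ℝ := ((m : ℝ) + 2) / ((m : ℝ) + 1) with hq
        have hm1 : (0 : ℝ) < (m : ℝ) + 1 := by positivity
        have hm2 : (0 : ℝ) < (m : ℝ) + 2 := by positivity
        have hq0 : 0 < q := by rw [hq]; positivity
        have hcast : (((m + 1 : ℕ) : ℝ) + 1) = (m : ℝ) + 2 := by push_cast; ring
        rw [hcast]
        have hpq : Real.HolderConjugate ((m : ℝ) + 2) q := by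
          rw [Real.holderConjugate_iff]
          constructor
          · linarith
          · rw [hq]; field_simp; ring
        have hg0 : ∀ T : Finset α, 0 ≤ ∏ i ∈ T, x (insert v (T.erase i)) := fun T =>
          prod_nonneg fun i _ => hx _
        have h4 := Real.inner_le_Lp_mul_Lq_of_nonneg (V.powersetCard (m + 1 + 1)) hpq
          (f := x) (g := fun T => ∏ i ∈ T, x (insert v (T.erase i)))
          (fun T _ => hx T) (fun T _ => hg0 T)
        refine h4.trans ?_
        have h5 : ∑ T ∈ V.powersetCard (m + 1 + 1), x T ^ ((m : ℝ) + 2) = Y := by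
          rw [hY]
          apply sum_congr rfl
          intro T _
          rw [← Real.rpow_natCast]; congr 1; push_cast; ring
        rw [h5]
        apply mul_le_mul_of_nonneg_left _ (Real.rpow_nonneg hY0 _)
        have h6 := ih m (fun U => x (insert v U) ^ q) (fun U => Real.rpow_nonneg (hx _) _)
        have h7 : ∑ T ∈ V.powersetCard (m + 1), (x (insert v T) ^ q) ^ (m + 1) = Z := by
          rw [hZ]
          apply sum_congr rfl
          intro T _
          rw [← Real.rpow_natCast, ← Real.rpow_mul (hx _), ← Real.rpow_natCast]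
          congr 1
          rw [hq]; push_cast; field_simp; ring
        rw [h7, ← hq] at h6
        have h8 : ∑ T ∈ V.powersetCard (m + 1 + 1), (∏ i ∈ T, x (insert v (T.erase i))) ^ q =
            ∑ T ∈ V.powersetCard (m + 2), ∏ i ∈ T, x (insert v (T.erase i)) ^ q := by
          apply sum_congr rfl
          intro T _
          rw [Real.finsetProd_rpow _ _ (fun i _ => hx _)]
        rw [h8]
        calc (∑ T ∈ V.powersetCard (m + 2), ∏ i ∈ T, x (insert v (T.erase i)) ^ q) ^ (1 / q) ≤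
            (Z ^ q) ^ (1 / q) := by
              apply Real.rpow_le_rpow _ h6 (by positivity)
              exact sum_nonneg fun T _ => prod_nonneg fun i _ => Real.rpow_nonneg (hx _) _
          _ = Z := by
              rw [← Real.rpow_mul hZ0, mul_one_div_cancel hq0.ne', Real.rpow_one]
    have hm1 : (0 : ℝ) < (m : ℝ) + 1 := by positivity
    have he : ((m : ℝ) + 2) / ((m : ℝ) + 1) = 1 / ((m : ℝ) + 1) + 1 := by field_simp; ring
    rw [he] at h1 ⊢
    have hp : ∀ y : ℝ, 0 ≤ y → y ^ (1 / ((m : ℝ) + 1) + 1) = y ^ (1 / ((m : ℝ) + 1)) * y := by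
      intro y hy
      rw [Real.rpow_add_of_nonneg hy (by positivity) zero_le_one, Real.rpow_one]
    rw [hp Y hY0] at h1
    rw [hp (Y + Z) (by linarith)]
    have h9 : Y ^ (1 / ((m : ℝ) + 1)) ≤ (Y + Z) ^ (1 / ((m : ℝ) + 1)) :=
      Real.rpow_le_rpow hY0 (by linarith) (by positivity)
    calc _ ≤ Y ^ (1 / ((m : ℝ) + 1)) * Y + Y ^ (1 / ((m : ℝ) + 1)) * Z := add_le_add h1 h2
      _ = Y ^ (1 / ((m : ℝ) + 1)) * (Y + Z) := by ring
      _ ≤ _ := mul_le_mul_of_nonneg_right h9 (by linarith)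

/-! ### the Blei inequality -/

/-- the exponent `j/(j+1)` -/
noncomputable def th (j : ℕ) : ℝ := (j : ℝ) / ((j : ℝ) + 1)

theorem th_pos {j : ℕ} (hj : 1 ≤ j) : 0 < th j := by
  have : (0 : ℝ) < j := by exact_mod_cast hj
  unfold th; positivity

theorem th_le_one (j : ℕ) : th j ≤ 1 := by
  unfold th
  rw [div_le_one (by positivity)]
  linarith

/-- the `ℓ^{j/(j+1)}` quasi-norm of the degree-`j` part -/
noncomputable def NN (V : Finset α) (j : ℕ) (a : Finset α → ℝ) : ℝ :=
  (∑ S ∈ V.powersetCard j, a S ^ th j) ^ (1 / th j)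

omit [DecidableEq α] in
theorem NN_nonneg (V : Finset α) (j : ℕ) {a : Finset α → ℝ} (ha : ∀ S, 0 ≤ a S) : 0 ≤ NN V j a :=
  Real.rpow_nonneg (sum_nonneg fun S _ => Real.rpow_nonneg (ha S) _) _

/-- the sum over all one-element extensions -/
def DD (V : Finset α) (a : Finset α → ℝ) (T : Finset α) : ℝ := ∑ i ∈ V \ T, a (insert i T)

theorem DD_nonneg (V : Finset α) {a : Finset α → ℝ} (ha : ∀ S, 0 ≤ a S) (T : Finset α) :
    0 ≤ DD V a T := sum_nonneg fun _ _ => ha _

theorem dbl (V : Finset α) (j : ℕ) (f : Finset α → Finset α → ℝ) :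
    ∑ T ∈ V.powersetCard j, ∑ i ∈ V \ T, f (insert i T) T =
      ∑ S ∈ V.powersetCard (j + 1), ∑ i ∈ S, f S (S.erase i) := by
  rw [sum_sigma', sum_sigma']
  refine sum_bij' (fun p _ => ⟨insert p.2 p.1, p.2⟩) (fun p _ => ⟨p.1.erase p.2, p.2⟩)
    ?_ ?_ ?_ ?_ ?_
  · rintro ⟨T, i⟩ h
    simp only [mem_sigma, mem_powersetCard, mem_sdiff] at h ⊢
    obtain ⟨⟨h1, h2⟩, h3, h4⟩ := h
    refine ⟨⟨insert_subset h3 h1, ?_⟩, mem_insert_self _ _⟩
    rw [card_insert_of_notMem h4, h2]
  · rintro ⟨S, i⟩ h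
    simp only [mem_sigma, mem_powersetCard, mem_sdiff] at h ⊢
    obtain ⟨⟨h1, h2⟩, h3⟩ := h
    refine ⟨⟨(erase_subset _ _).trans h1, ?_⟩, h1 h3, notMem_erase _ _⟩
    rw [card_erase_of_mem h3, h2]; rfl
  · rintro ⟨T, i⟩ h
    simp only [mem_sigma, mem_powersetCard, mem_sdiff] at h ⊢
    rw [erase_insert h.2.2]
  · rintro ⟨S, i⟩ h
    simp only [mem_sigma, mem_powersetCard] at h ⊢
    rw [insert_erase h.2]
  · rintro ⟨T, i⟩ h
    simp only [mem_sigma, mem_powersetCard, mem_sdiff] at h ⊢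
    rw [erase_insert h.2.2]

/-- One step of Blei's inequality. -/
theorem blei_step (V : Finset α) {a : Finset α → ℝ} (ha : ∀ S, 0 ≤ a S) {j : ℕ} (hj : 1 ≤ j) :
    ((j : ℝ) + 1) * NN V (j + 1) a ≤ NN V j (DD V a) := by
  set Q := DD V a with hQ
  have hQ0 : ∀ T, 0 ≤ Q T := fun T => DD_nonneg V ha T
  set J : ℝ := (j : ℝ) + 1 with hJ
  have hjR : (0 : ℝ) < j := by exact_mod_cast hj
  have hJ0 : 0 < J := by positivity
  have hJ1 : 0 < J + 1 := by positivity
  have hth : th j = (j : ℝ) / J := rfl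
  have hth1 : th (j + 1) = J / (J + 1) := by unfold th; rw [hJ]; push_cast; rfl
  set W := ∑ T ∈ V.powersetCard j, Q T ^ th j with hW
  have hW0 : 0 ≤ W := sum_nonneg fun T _ => Real.rpow_nonneg (hQ0 T) _
  set G : Finset α → ℝ := fun S => ∏ i ∈ S, Q (S.erase i) ^ (1 / J) with hG
  have hG0 : ∀ S, 0 ≤ G S := fun S => prod_nonneg fun i _ => Real.rpow_nonneg (hQ0 _) _
  -- positivity of Q on the faces of S when a S ≠ 0
  have hpos : ∀ S ∈ V.powersetCard (j + 1), a S ≠ 0 → ∀ i ∈ S, 0 < Q (S.erase i) := by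
    intro S hS haS i hi
    have h1 : 0 < a S := lt_of_le_of_ne (ha S) (Ne.symm haS)
    refine lt_of_lt_of_le h1 ?_
    rw [hQ]
    unfold DD
    have h2 : a (insert i (S.erase i)) = a S := by rw [insert_erase hi]
    rw [← h2]
    apply single_le_sum (f := fun k => a (insert k (S.erase i))) (fun k _ => ha _)
    rw [mem_sdiff]
    exact ⟨(mem_powersetCard.1 hS).1 hi, notMem_erase _ _⟩
  have hGpos : ∀ S ∈ V.powersetCard (j + 1), a S ≠ 0 → 0 < G S := by
    intro S hS haS
    exact prod_pos fun i hi => Real.rpow_pos_of_pos (hpos S hS haS i hi) _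
  -- step 1 and 2
  have h1 : W = ∑ S ∈ V.powersetCard (j + 1), ∑ i ∈ S, a S * Q (S.erase i) ^ (-1 / J) := by
    rw [← dbl V j (fun S T => a S * Q T ^ (-1 / J)), hW]
    apply sum_congr rfl
    intro T _
    rw [← sum_mul]
    have h2 : ∑ i ∈ V \ T, a (insert i T) = Q T := rfl
    rw [h2]
    rcases eq_or_lt_of_le (hQ0 T) with h | h
    · rw [← h, Real.zero_rpow (by rw [hth]; positivity), zero_mul]
    · have h3 : th j = 1 + (-1 / J) := by rw [hth, hJ]; field_simp; ring
      rw [h3, Real.rpow_add h, Real.rpow_one]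
  -- step 3
  have h3 : J * ∑ S ∈ V.powersetCard (j + 1), a S * G S ^ (-1 / J) ≤ W := by
    rw [h1, mul_sum]
    apply sum_le_sum
    intro S hS
    rw [← mul_sum]
    by_cases haS : a S = 0
    · rw [haS]; simp
    · have hQp := hpos S hS haS
      have hcard : (S.card : ℝ) = J := by
        rw [(mem_powersetCard.1 hS).2, hJ]; push_cast; ring
      have h4 := Real.geom_mean_le_arith_mean_weighted S (fun _ => 1 / J)
        (fun i => Q (S.erase i) ^ (-1 / J)) (fun i _ => by positivity)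
        (by rw [sum_const, nsmul_eq_mul, hcard]; field_simp)
        (fun i _ => Real.rpow_nonneg (hQ0 _) _)
      have h5 : ∏ i ∈ S, (Q (S.erase i) ^ (-1 / J)) ^ (1 / J) = G S ^ (-1 / J) := by
        rw [hG]
        simp only
        rw [← Real.finsetProd_rpow _ _ (fun i _ => Real.rpow_nonneg (hQ0 _) _)]
        apply prod_congr rfl
        intro i _
        rw [← Real.rpow_mul (hQ0 _), ← Real.rpow_mul (hQ0 _)]
        congr 1; ring
      rw [h5, ← mul_sum] at h4
      have h6 : J * G S ^ (-1 / J) ≤ ∑ i ∈ S, Q (S.erase i) ^ (-1 / J) := by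
        have := mul_le_mul_of_nonneg_left h4 hJ0.le
        rwa [← mul_assoc, mul_one_div_cancel hJ0.ne', one_mul] at this
      calc J * (a S * G S ^ (-1 / J)) = a S * (J * G S ^ (-1 / J)) := by ring
        _ ≤ _ := mul_le_mul_of_nonneg_left h6 (ha S)
  set H := ∑ S ∈ V.powersetCard (j + 1), a S * G S ^ (-1 / J) with hH
  have hH0 : 0 ≤ H := sum_nonneg fun S _ => mul_nonneg (ha S) (Real.rpow_nonneg (hG0 S) _)
  -- step 5, Loomis-Whitney
  have h5 : ∑ S ∈ V.powersetCard (j + 1), G S ≤ W ^ (J / j) := by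
    obtain ⟨m, rfl⟩ : ∃ m, j = m + 1 := ⟨j - 1, by omega⟩
    have h6 := lw V m (fun T => Q T ^ (1 / J)) (fun T => Real.rpow_nonneg (hQ0 T) _)
    have h7 : ∑ T ∈ V.powersetCard (m + 1), (Q T ^ (1 / J)) ^ (m + 1) = W := by
      rw [hW]
      apply sum_congr rfl
      intro T _
      rw [← Real.rpow_natCast, ← Real.rpow_mul (hQ0 _)]
      congr 1
      rw [hth]; push_cast; ring
    rw [h7] at h6
    have h8 : ((m : ℝ) + 2) / ((m : ℝ) + 1) = J / ((m + 1 : ℕ) : ℝ) := by
      rw [hJ]; push_cast; ring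
    rw [h8] at h6
    exact h6
  -- step 4, Hölder
  have h4 : ∑ S ∈ V.powersetCard (j + 1), a S ^ th (j + 1) ≤
      H ^ (J / (J + 1)) * (∑ S ∈ V.powersetCard (j + 1), G S) ^ (1 / (J + 1)) := by
    have hpq : Real.HolderConjugate ((J + 1) / J) (J + 1) := by
      rw [Real.holderConjugate_iff]
      constructor
      · rw [lt_div_iff₀ hJ0]; linarith
      · field_simp
    have h6 := Real.inner_le_Lp_mul_Lq_of_nonneg (V.powersetCard (j + 1)) hpq
      (f := fun S => (a S * G S ^ (-1 / J)) ^ (J / (J + 1))) (g := fun S => G S ^ (1 / (J + 1)))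
      (fun S _ => Real.rpow_nonneg (mul_nonneg (ha S) (Real.rpow_nonneg (hG0 S) _)) _)
      (fun S _ => Real.rpow_nonneg (hG0 S) _)
    have e1 : ∑ S ∈ V.powersetCard (j + 1),
        ((a S * G S ^ (-1 / J)) ^ (J / (J + 1))) ^ ((J + 1) / J) = H := by
      rw [hH]
      apply sum_congr rfl
      intro S _
      rw [← Real.rpow_mul (mul_nonneg (ha S) (Real.rpow_nonneg (hG0 S) _))]
      have : J / (J + 1) * ((J + 1) / J) = 1 := by field_simp
      rw [this, Real.rpow_one]
    have e2 : ∑ S ∈ V.powersetCard (j + 1), (G S ^ (1 / (J + 1))) ^ (J + 1) =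
        ∑ S ∈ V.powersetCard (j + 1), G S := by
      apply sum_congr rfl
      intro S _
      rw [← Real.rpow_mul (hG0 S), one_div_mul_cancel hJ1.ne', Real.rpow_one]
    have e3 : ∑ S ∈ V.powersetCard (j + 1), a S ^ th (j + 1) =
        ∑ S ∈ V.powersetCard (j + 1),
          (a S * G S ^ (-1 / J)) ^ (J / (J + 1)) * G S ^ (1 / (J + 1)) := by
      apply sum_congr rfl
      intro S hS
      rw [hth1]
      by_cases haS : a S = 0
      · rw [haS, zero_mul, Real.zero_rpow (by positivity), zero_mul]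
      · have hGp := hGpos S hS haS
        rw [Real.mul_rpow (ha S) (Real.rpow_nonneg (hG0 S) _), mul_assoc, ← Real.rpow_mul (hG0 S),
          ← Real.rpow_add hGp]
        have : -1 / J * (J / (J + 1)) + 1 / (J + 1) = 0 := by field_simp; ring
        rw [this, Real.rpow_zero, mul_one]
    have e4 : 1 / ((J + 1) / J) = J / (J + 1) := by rw [one_div_div]
    rw [e1, e2, e4, ← e3] at h6
    exact h6
  -- conclusion
  have hNNdef : NN V (j + 1) a = (∑ S ∈ V.powersetCard (j + 1), a S ^ th (j + 1)) ^ ((J + 1) / J) := by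
    unfold NN; rw [hth1, one_div_div]
  have hNN2 : NN V j Q = W ^ (J / j) := by
    unfold NN; rw [← hW, hth, one_div_div]
  have hL0 : 0 ≤ ∑ S ∈ V.powersetCard (j + 1), a S ^ th (j + 1) :=
    sum_nonneg fun S _ => Real.rpow_nonneg (ha S) _
  have hWj0 : 0 ≤ W ^ (J / j) := Real.rpow_nonneg hW0 _
  have h6 : NN V (j + 1) a ≤ H * W ^ ((1 : ℝ) / j) := by
    rw [hNNdef]
    have h7 : ∑ S ∈ V.powersetCard (j + 1), a S ^ th (j + 1) ≤
        H ^ (J / (J + 1)) * (W ^ (J / j)) ^ (1 / (J + 1)) := by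
      refine h4.trans (mul_le_mul_of_nonneg_left ?_ (Real.rpow_nonneg hH0 _))
      exact Real.rpow_le_rpow (sum_nonneg fun S _ => hG0 S) h5 (by positivity)
    calc _ ≤ (H ^ (J / (J + 1)) * (W ^ (J / j)) ^ (1 / (J + 1))) ^ ((J + 1) / J) :=
          Real.rpow_le_rpow hL0 h7 (by positivity)
      _ = H * W ^ ((1 : ℝ) / j) := by
          rw [Real.mul_rpow (Real.rpow_nonneg hH0 _) (Real.rpow_nonneg hWj0 _),
            ← Real.rpow_mul hH0, ← Real.rpow_mul hWj0, ← Real.rpow_mul hW0]
          have e1 : J / (J + 1) * ((J + 1) / J) = 1 := by field_simp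
          have e2 : J / (j : ℝ) * (1 / (J + 1) * ((J + 1) / J)) = 1 / j := by field_simp
          rw [e1, e2, Real.rpow_one]
  have h7 : W ^ (J / (j : ℝ)) = W * W ^ ((1 : ℝ) / j) := by
    have : J / (j : ℝ) = 1 + 1 / j := by rw [hJ]; field_simp
    rw [this, Real.rpow_add_of_nonneg hW0 zero_le_one (by positivity), Real.rpow_one]
  rw [hNN2, h7]
  calc J * NN V (j + 1) a ≤ J * (H * W ^ ((1 : ℝ) / j)) := mul_le_mul_of_nonneg_left h6 hJ0.le
    _ = (J * H) * W ^ ((1 : ℝ) / j) := by ring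
    _ ≤ W * W ^ ((1 : ℝ) / j) := mul_le_mul_of_nonneg_right h3 (Real.rpow_nonneg hW0 _)

end Pool.Agent.H591R3.BH
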