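import Pool.Agent.H591R3.BH2

set_option autoImplicit false

open Finset

namespace Pool.Agent.H591R3.BH

variable {α : Type} [DecidableEq α]

/-! ### iterated Blei -/

/-- the sum over all extensions by `r` elements -/
def EE (V : Finset α) (r : ℕ) (a : Finset α → ℝ) (T : Finset α) : ℝ :=
  ∑ R ∈ (V \ T).powersetCard r, a (T ∪ R)

theorem EE_nonneg (V : Finset α) (r : ℕ) {a : Finset α → ℝ} (ha : ∀ S, 0 ≤ a S) (T : Finset α) :
    0 ≤ EE V r a T := sum_nonneg fun _ _ => ha _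

theorem EE_zero (V : Finset α) (a : Finset α → ℝ) : EE V 0 a = a := by
  funext T; simp [EE]

theorem DD_EE (V : Finset α) (r : ℕ) (a : Finset α → ℝ) :
    DD V (EE V r a) = fun T => ((r : ℝ) + 1) * EE V (r + 1) a T := by
  funext T
  have h1 : ((r : ℝ) + 1) * EE V (r + 1) a T =
      ∑ R ∈ (V \ T).powersetCard (r + 1), ∑ i ∈ R, a (T ∪ R) := by
    unfold EE
    rw [mul_sum]
    apply sum_congr rfl
    intro R hR
    rw [sum_const, (mem_powersetCard.1 hR).2, nsmul_eq_mul]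
    push_cast; ring
  have h2 := dbl (V \ T) r (fun S _ => a (T ∪ S))
  rw [h1, ← h2]
  unfold DD EE
  rw [sum_comm' (t' := (V \ T).powersetCard r) (s' := fun R => (V \ T) \ R)]
  · apply sum_congr rfl
    intro R _
    apply sum_congr rfl
    intro i _
    congr 1
    rw [insert_union, union_insert]
  · intro i R
    simp only [mem_sdiff, mem_powersetCard]
    constructor
    · rintro ⟨⟨h1, h2⟩, h3, h4⟩
      refine ⟨⟨⟨h1, h2⟩, fun h => ?_⟩, fun k hk => ?_, h4⟩
      · exact (mem_sdiff.1 (h3 h)).2 (mem_insert_self _ _)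
      · have := mem_sdiff.1 (h3 hk)
        exact mem_sdiff.2 ⟨this.1, fun h => this.2 (mem_insert_of_mem h)⟩
    · rintro ⟨⟨⟨h1, h2⟩, h3⟩, h4, h5⟩
      refine ⟨⟨h1, h2⟩, fun k hk => ?_, h5⟩
      have := mem_sdiff.1 (h4 hk)
      refine mem_sdiff.2 ⟨this.1, fun h => ?_⟩
      rcases mem_insert.1 h with h | h
      · exact h3 (h ▸ hk)
      · exact this.2 h

omit [DecidableEq α] in
theorem NN_smul (V : Finset α) {j : ℕ} (hj : 1 ≤ j) {a : Finset α → ℝ} (ha : ∀ S, 0 ≤ a S)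
    {c : ℝ} (hc : 0 ≤ c) : NN V j (fun T => c * a T) = c * NN V j a := by
  unfold NN
  have h1 : ∑ S ∈ V.powersetCard j, (c * a S) ^ th j =
      c ^ th j * ∑ S ∈ V.powersetCard j, a S ^ th j := by
    rw [mul_sum]
    exact sum_congr rfl fun S _ => Real.mul_rpow hc (ha S)
  rw [h1, Real.mul_rpow (Real.rpow_nonneg hc _)
    (sum_nonneg fun S _ => Real.rpow_nonneg (ha S) _), ← Real.rpow_mul hc,
    mul_one_div_cancel (th_pos hj).ne', Real.rpow_one]

theorem blei_iter (V : Finset α) {a : Finset α → ℝ} (ha : ∀ S, 0 ≤ a S) :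
    ∀ (r j : ℕ), 1 ≤ j → ((j + r).choose j : ℝ) * NN V (j + r) a ≤ NN V j (EE V r a) := by
  intro r
  induction r with
  | zero =>
    intro j hj
    rw [EE_zero]
    simp
  | succ r ih =>
    intro j hj
    have h1 := ih (j + 1) (by omega)
    have h2 := blei_step V (EE_nonneg V r ha) hj
    rw [DD_EE, NN_smul V hj (EE_nonneg V (r + 1) ha) (by positivity)] at h2
    have h3 : j + 1 + r = j + (r + 1) := by ring
    rw [h3] at h1
    have h4 : (((j + (r + 1)).choose (j + 1) : ℕ) : ℝ) * ((j : ℝ) + 1) =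
        ((j + (r + 1)).choose j : ℝ) * ((r : ℝ) + 1) := by
      have := Nat.choose_succ_right_eq (j + (r + 1)) j
      have h5 : j + (r + 1) - j = r + 1 := by omega
      rw [h5] at this
      exact_mod_cast this
    have hr : (0 : ℝ) < (r : ℝ) + 1 := by positivity
    have h6 : ((r : ℝ) + 1) * (((j + (r + 1)).choose j : ℝ) * NN V (j + (r + 1)) a) ≤
        ((r : ℝ) + 1) * NN V j (EE V (r + 1) a) := by
      calc ((r : ℝ) + 1) * (((j + (r + 1)).choose j : ℝ) * NN V (j + (r + 1)) a) =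
          (((j + (r + 1)).choose j : ℝ) * ((r : ℝ) + 1)) * NN V (j + (r + 1)) a := by ring
        _ = ((j : ℝ) + 1) * (((j + (r + 1)).choose (j + 1) : ℝ) * NN V (j + (r + 1)) a) := by
            rw [← h4]; ring
        _ ≤ ((j : ℝ) + 1) * NN V (j + 1) (EE V r a) :=
            mul_le_mul_of_nonneg_left h1 (by positivity)
        _ ≤ _ := h2
    exact le_of_mul_le_mul_left h6 hr

/-! ### random sampling of the ground set -/

theorem sampling (V : Finset α) {a : Finset α → ℝ} (ha : ∀ S, 0 ≤ a S) (r : ℕ) {θ : ℝ}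
    (hθ0 : 0 < θ) (hθ1 : θ ≤ 1) {T : Finset α} (hT : T ⊆ V) :
    (2 : ℝ) ^ V.card * EE V r a T ^ θ ≤ (2 : ℝ) ^ (T.card + r) *
      ∑ A ∈ V.powerset with T ⊆ A, (∑ R ∈ (V \ A).powersetCard r, a (T ∪ R)) ^ θ := by
  set C := EE V r a T with hC
  have hC0 : 0 ≤ C := EE_nonneg V r ha T
  have hR0 : 0 ≤ ∑ A ∈ V.powerset with T ⊆ A, (∑ R ∈ (V \ A).powersetCard r, a (T ∪ R)) ^ θ :=
    sum_nonneg fun A _ => Real.rpow_nonneg (sum_nonneg fun _ _ => ha _) _
  rcases eq_or_lt_of_le hC0 with h0 | h0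
  · rw [← h0, Real.zero_rpow hθ0.ne', mul_zero]
    positivity
  · have h1 : ∀ A ∈ V.powerset.filter (fun A => T ⊆ A),
        (∑ R ∈ (V \ A).powersetCard r, a (T ∪ R)) * C ^ (θ - 1) ≤
          (∑ R ∈ (V \ A).powersetCard r, a (T ∪ R)) ^ θ := by
      intro A hA
      rw [mem_filter] at hA
      set Y := ∑ R ∈ (V \ A).powersetCard r, a (T ∪ R) with hY
      have hY0 : 0 ≤ Y := sum_nonneg fun _ _ => ha _
      have hYC : Y ≤ C := by
        rw [hY, hC]
        unfold EE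
        apply sum_le_sum_of_subset_of_nonneg
        · exact powersetCard_mono (sdiff_subset_sdiff (Subset.refl V) hA.2)
        · intro R _ _; exact ha _
      rcases eq_or_lt_of_le hY0 with h2 | h2
      · rw [← h2, Real.zero_rpow hθ0.ne', zero_mul]
      · have h3 : C ^ (θ - 1) ≤ Y ^ (θ - 1) :=
          Real.rpow_le_rpow_of_nonpos h2 hYC (by linarith)
        calc Y * C ^ (θ - 1) ≤ Y * Y ^ (θ - 1) := mul_le_mul_of_nonneg_left h3 hY0
          _ = Y ^ θ := by
              rw [Real.rpow_sub_one h2.ne']; field_simp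
    have h2 : ∑ A ∈ V.powerset with T ⊆ A, ∑ R ∈ (V \ A).powersetCard r, a (T ∪ R) =
        ∑ R ∈ (V \ T).powersetCard r, ∑ _A ∈ Icc T (V \ R), a (T ∪ R) := by
      apply sum_comm'
      intro A R
      simp only [mem_filter, mem_powerset, mem_powersetCard, mem_Icc]
      constructor
      · rintro ⟨⟨h1, h2⟩, h3, h4⟩
        refine ⟨⟨h2, fun k hk => ?_⟩, h3.trans (sdiff_subset_sdiff (Subset.refl V) h2), h4⟩
        rw [mem_sdiff]
        exact ⟨h1 hk, fun h => (mem_sdiff.1 (h3 h)).2 hk⟩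
      · rintro ⟨⟨h1, h2⟩, h3, h4⟩
        refine ⟨⟨h2.trans sdiff_subset, h1⟩, fun k hk => ?_, h4⟩
        rw [mem_sdiff]
        exact ⟨(mem_sdiff.1 (h3 hk)).1, fun h => (mem_sdiff.1 (h2 h)).2 hk⟩
    have h3 : (2 : ℝ) ^ (T.card + r) * ∑ R ∈ (V \ T).powersetCard r,
        ∑ _A ∈ Icc T (V \ R), a (T ∪ R) = (2 : ℝ) ^ V.card * C := by
      rw [hC]
      unfold EE
      rw [mul_sum, mul_sum]
      apply sum_congr rfl
      intro R hR
      rw [mem_powersetCard] at hR
      have hsub : T ⊆ V \ R := by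
        intro k hk
        rw [mem_sdiff]
        exact ⟨hT hk, fun h => (mem_sdiff.1 (hR.1 h)).2 hk⟩
      have hRV : R ⊆ V := hR.1.trans sdiff_subset
      rw [sum_const, card_Icc_finset hsub, nsmul_eq_mul, card_sdiff_of_subset hRV, hR.2]
      push_cast
      rw [← mul_assoc, ← pow_add]
      congr 2
      have h5 : T.card ≤ (V \ R).card := card_le_card hsub
      rw [card_sdiff_of_subset hRV, hR.2] at h5
      have h6 : R.card ≤ V.card := card_le_card hRV
      rw [hR.2] at h6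
      omega
    calc (2 : ℝ) ^ V.card * C ^ θ = (2 : ℝ) ^ V.card * C * C ^ (θ - 1) := by
          rw [Real.rpow_sub_one h0.ne']; field_simp
      _ = (2 : ℝ) ^ (T.card + r) * ((∑ A ∈ V.powerset with T ⊆ A,
            ∑ R ∈ (V \ A).powersetCard r, a (T ∪ R)) * C ^ (θ - 1)) := by
          rw [← h3, ← h2]; ring
      _ ≤ _ := by
          apply mul_le_mul_of_nonneg_left _ (by positivity)
          rw [sum_mul]
          exact sum_le_sum h1

/-! ### the reverse Minkowski inequality -/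

theorem lp_sum_le {ι κ : Type} [DecidableEq ι] (s : Finset ι) (t : Finset κ) {q : ℝ} (hq : 1 ≤ q)
    (Y : ι → κ → ℝ) (hY : ∀ i k, 0 ≤ Y i k) :
    (∑ k ∈ t, (∑ i ∈ s, Y i k) ^ q) ^ (1 / q) ≤ ∑ i ∈ s, (∑ k ∈ t, Y i k ^ q) ^ (1 / q) := by
  have hq0 : q ≠ 0 := by linarith
  induction s using Finset.induction_on with
  | empty =>
    simp only [sum_empty]
    rw [Real.zero_rpow hq0, sum_const_zero, Real.zero_rpow (by positivity)]
  | insert i s hi ih =>
    rw [sum_insert hi]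
    have h1 : ∀ k, ∑ i ∈ insert i s, Y i k = Y i k + ∑ i ∈ s, Y i k := fun k => sum_insert hi
    simp only [h1]
    have h2 := Real.Lp_add_le_of_nonneg (s := t) (f := fun k => Y i k)
      (g := fun k => ∑ i ∈ s, Y i k) hq (fun k _ => hY i k)
      (fun k _ => sum_nonneg fun i _ => hY i k)
    exact h2.trans (add_le_add le_rfl ih)

theorem rev_minkowski {ι κ : Type} [DecidableEq ι] (s : Finset ι) (t : Finset κ) {θ : ℝ}
    (h0 : 0 < θ) (h1 : θ ≤ 1) (X : ι → κ → ℝ) (hX : ∀ i k, 0 ≤ X i k) :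
    ∑ k ∈ t, (∑ i ∈ s, X i k ^ θ) ^ (1 / θ) ≤ (∑ i ∈ s, (∑ k ∈ t, X i k) ^ θ) ^ (1 / θ) := by
  have hq : 1 ≤ 1 / θ := by rw [le_div_iff₀ h0]; linarith
  have h2 := lp_sum_le s t hq (fun i k => X i k ^ θ) (fun i k => Real.rpow_nonneg (hX i k) _)
  have h3 : ∀ i k, (X i k ^ θ) ^ (1 / θ) = X i k := by
    intro i k
    rw [← Real.rpow_mul (hX i k), mul_one_div_cancel h0.ne', Real.rpow_one]
  simp only [h3, one_div_one_div] at h2
  have h4 : 0 ≤ ∑ k ∈ t, (∑ i ∈ s, X i k ^ θ) ^ (1 / θ) :=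
    sum_nonneg fun k _ => Real.rpow_nonneg (sum_nonneg fun i _ => Real.rpow_nonneg (hX i k) _) _
  have h5 := Real.rpow_le_rpow (Real.rpow_nonneg h4 _) h2 (by positivity : (0 : ℝ) ≤ 1 / θ)
  rwa [← Real.rpow_mul h4, mul_one_div_cancel h0.ne', Real.rpow_one] at h5

end Pool.Agent.H591R3.BH
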