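import Pool.Agent.H591R3.BH3

set_option autoImplicit false

open Finset

namespace Pool.Agent.H591R3.BH

variable {α : Type} [DecidableEq α]

/-- coefficients of the random restriction -/
def rst (V A : Finset α) (b : Finset α → ℝ) (e : α → Bool) (T : Finset α) : ℝ :=
  poly (V \ A) (fun R => b (T ∪ R)) e

/-- the restriction of a polynomial is a restriction -/
theorem poly_rst {V A : Finset α} (hA : A ⊆ V) (b : Finset α → ℝ) (e e' : α → Bool) :
    poly A (rst V A b e) e' = poly V b (fun i => if i ∈ A then e' i else e i) := by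
  unfold rst poly
  have h1 : ∀ T ∈ A.powerset, (∑ R ∈ (V \ A).powerset, b (T ∪ R) * chi e R) * chi e' T =
      ∑ R ∈ (V \ A).powerset, b (T ∪ R) * chi (fun i => if i ∈ A then e' i else e i) (T ∪ R) := by
    intro T hT
    rw [sum_mul]
    apply sum_congr rfl
    intro R hR
    rw [mem_powerset] at hT hR
    have hd : Disjoint T R := by
      rw [disjoint_left]
      intro k hk hk'
      exact (mem_sdiff.1 (hR hk')).2 (hT hk)
    have h2 : chi (fun i => if i ∈ A then e' i else e i) (T ∪ R) = chi e' T * chi e R := by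
      unfold chi
      rw [prod_union hd]
      congr 1
      · apply prod_congr rfl
        intro k hk
        simp only [if_pos (hT hk)]
      · apply prod_congr rfl
        intro k hk
        simp only [if_neg (mem_sdiff.1 (hR hk)).2]
    rw [h2]; ring
  rw [sum_congr rfl h1, ← sum_product']
  refine sum_bij' (fun p _ => p.1 ∪ p.2) (fun S _ => (S ∩ A, S \ A)) ?_ ?_ ?_ ?_ ?_
  · rintro ⟨T, R⟩ h
    simp only [mem_product, mem_powerset] at h ⊢
    exact union_subset (h.1.trans hA) (h.2.trans sdiff_subset)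
  · intro S hS
    simp only [mem_product, mem_powerset] at hS ⊢
    exact ⟨inter_subset_right, sdiff_subset_sdiff hS (Subset.refl _)⟩
  · rintro ⟨T, R⟩ h
    simp only [mem_product, mem_powerset] at h ⊢
    have hd : ∀ k ∈ R, k ∉ A := fun k hk => (mem_sdiff.1 (h.2 hk)).2
    ext k
    · simp only [mem_inter, mem_union]
      constructor
      · rintro ⟨h1 | h1, h2⟩
        · exact h1
        · exact absurd h2 (hd k h1)
      · intro h1
        exact ⟨Or.inl h1, h.1 h1⟩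
    · simp only [mem_sdiff, mem_union]
      constructor
      · rintro ⟨h1 | h1, h2⟩
        · exact absurd (h.1 h1) h2
        · exact h1
      · intro h1
        exact ⟨Or.inr h1, hd k h1⟩
  · intro S _
    simp only
    rw [union_comm, sdiff_union_inter]
  · rintro ⟨T, R⟩ _
    rfl

/-- the weights of the stage -/
noncomputable def ww (j i : ℕ) : ℝ :=
  (((i : ℝ) - 1) / ((i : ℝ) + 1)) ^ (j - i) * ((1 / 2 : ℝ) ^ j) ^ (1 / th i) * (j.choose i : ℝ)

theorem ww_nonneg {j i : ℕ} (hi : 1 ≤ i) : 0 ≤ ww j i := by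
  have : (1 : ℝ) ≤ i := by exact_mod_cast hi
  unfold ww
  have : 0 ≤ ((i : ℝ) - 1) / ((i : ℝ) + 1) := div_nonneg (by linarith) (by linarith)
  positivity

omit [DecidableEq α] in
theorem sum_range_pc_le (U : Finset α) (L : ℕ) (g : Finset α → ℝ) (hg : ∀ R, 0 ≤ g R) :
    ∑ r ∈ range L, ∑ R ∈ U.powersetCard r, g R ≤ ∑ R ∈ U.powerset, g R := by
  have h1 : ∀ r ∈ range L, ∑ R ∈ U.powersetCard r, g R =
      ∑ R ∈ U.powerset, if R.card = r then g R else 0 := by
    intro r _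
    rw [powersetCard_eq_filter, sum_filter]
  rw [sum_congr rfl h1, sum_comm]
  apply sum_le_sum
  intro R _
  rw [sum_ite_eq]
  split_ifs
  · exact le_rfl
  · exact hg R

/-- The stage inequality for a single degree `i`. -/
theorem stage_one [Fintype α] (V : Finset α) (b : Finset α → ℝ) {i : ℕ} (hi : 1 ≤ i) (L : ℕ) :
    (2 : ℝ) ^ V.card * Fintype.card (α → Bool) *
      ∑ r ∈ range L, ww (i + r) i * NN V (i + r) (fun S => b S ^ 2) ≤
    ∑ A ∈ V.powerset, ∑ e : α → Bool, NN A i (fun T => rst V A b e T ^ 2) := by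
  set a : Finset α → ℝ := fun S => b S ^ 2 with ha
  have ha0 : ∀ S, 0 ≤ a S := fun S => sq_nonneg _
  set θ := th i with hθ
  have hθ0 : 0 < θ := th_pos hi
  have hθ1 : θ ≤ 1 := th_le_one i
  have hiR : (1 : ℝ) ≤ i := by exact_mod_cast hi
  have hq1 : 1 ≤ 1 / θ := by rw [le_div_iff₀ hθ0]; linarith
  have hq0 : 0 ≤ 1 / θ := by positivity
  set l : ℝ := ((i : ℝ) - 1) / ((i : ℝ) + 1) with hl
  have hl0 : 0 ≤ l := div_nonneg (by linarith) (by linarith)
  have hlp : 2 * θ - 1 = l := by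
    rw [hθ, hl]; unfold th; field_simp; ring
  have hp1 : 1 ≤ 2 * θ := by linarith
  have hp2 : 2 * θ ≤ 2 := by linarith
  set Ω : ℝ := (Fintype.card (α → Bool) : ℝ) with hΩ
  have hΩ0 : 0 < Ω := by rw [hΩ]; exact_mod_cast Fintype.card_pos
  set M : ℝ := (2 : ℝ) ^ V.card * Ω with hM
  have hM0 : 0 < M := by positivity
  set N : ℝ := ∑ A ∈ V.powerset, ∑ e : α → Bool, NN A i (fun T => rst V A b e T ^ 2) with hN
  set s : Finset α → (α → Bool) → ℝ :=
    fun A e => ∑ T ∈ A.powersetCard i, (rst V A b e T ^ 2) ^ θ with hs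
  have hs0 : ∀ A e, 0 ≤ s A e := fun A e => sum_nonneg fun T _ => Real.rpow_nonneg (sq_nonneg _) _
  -- step 1: Jensen
  have h1 : (∑ A ∈ V.powerset, ∑ e : α → Bool, s A e) ^ (1 / θ) ≤ M ^ (1 / θ - 1) * N := by
    have h2 := Real.rpow_sum_le_const_mul_sum_rpow_of_nonneg
      (V.powerset ×ˢ (univ : Finset (α → Bool))) (f := fun z => s z.1 z.2) hq1
      (fun z _ => hs0 z.1 z.2)
    rw [sum_product, sum_product] at h2
    have h3 : (((V.powerset ×ˢ (univ : Finset (α → Bool))).card : ℕ) : ℝ) = M := by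
      rw [card_product, card_powerset, card_univ, hM, hΩ]; push_cast; ring
    rw [h3] at h2
    exact h2
  -- step 2: Bonami
  set X : (Σ _ : Finset α, Finset α) → ℕ → ℝ :=
    fun z r => l ^ r * ∑ R ∈ (V \ z.1).powersetCard r, a (z.2 ∪ R) with hX
  have hX0 : ∀ z r, 0 ≤ X z r := fun z r =>
    mul_nonneg (pow_nonneg hl0 r) (sum_nonneg fun _ _ => ha0 _)
  set I : Finset (Σ _ : Finset α, Finset α) := V.powerset.sigma (fun A => A.powersetCard i) with hI
  have h2 : Ω * ∑ z ∈ I, (∑ r ∈ range L, X z r) ^ θ ≤ ∑ A ∈ V.powerset, ∑ e : α → Bool, s A e := by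
    have h3 : ∑ A ∈ V.powerset, ∑ e : α → Bool, s A e =
        ∑ z ∈ I, ∑ e : α → Bool, (rst V z.1 b e z.2 ^ 2) ^ θ := by
      rw [hI, sum_sigma]
      apply sum_congr rfl
      intro A _
      rw [hs, sum_comm]
    rw [h3, mul_sum]
    apply sum_le_sum
    rintro ⟨A, T⟩ _
    have h4 := bonami hp1 hp2 (V \ A) (fun R => b (T ∪ R))
    have h5 : ∀ e : α → Bool, |poly (V \ A) (fun R => b (T ∪ R)) e| ^ (2 * θ) =
        (rst V A b e T ^ 2) ^ θ := by
      intro e
      unfold rst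
      rw [← sq_abs, ← Real.rpow_natCast, ← Real.rpow_mul (abs_nonneg _)]
      norm_num
    simp only [h5] at h4
    have h6 : 2 * θ / 2 = θ := by ring
    rw [h6, hlp] at h4
    refine le_trans ?_ h4
    rw [mul_comm]
    apply mul_le_mul_of_nonneg_right _ hΩ0.le
    apply Real.rpow_le_rpow (sum_nonneg fun r _ => hX0 _ r) _ hθ0.le
    unfold nrm
    refine le_trans (le_of_eq ?_) (sum_range_pc_le (V \ A) L _ (fun R =>
      mul_nonneg (pow_nonneg hl0 R.card) (sq_nonneg (b (T ∪ R)))))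
    apply sum_congr rfl
    intro r _
    rw [hX]
    simp only
    rw [mul_sum]
    apply sum_congr rfl
    intro R hR
    rw [(mem_powersetCard.1 hR).2]
  -- step 3: reverse Minkowski
  have h3 := rev_minkowski I (range L) hθ0 hθ1 X hX0
  -- step 4: sampling and Blei
  have h4 : ∀ r ∈ range L, ((2 : ℝ) ^ V.card) ^ (1 / θ) * (ww (i + r) i * NN V (i + r) a) ≤
      (∑ z ∈ I, X z r ^ θ) ^ (1 / θ) := by
    intro r _
    have e1 : ∑ z ∈ I, X z r ^ θ = (l ^ r) ^ θ * ∑ T ∈ V.powersetCard i,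
        ∑ A ∈ V.powerset with T ⊆ A, (∑ R ∈ (V \ A).powersetCard r, a (T ∪ R)) ^ θ := by
      rw [hI, sum_sigma, mul_sum]
      rw [sum_comm' (t' := V.powersetCard i) (s' := fun T => V.powerset.filter (fun A => T ⊆ A))]
      · apply sum_congr rfl
        intro T _
        rw [mul_sum]
        apply sum_congr rfl
        intro A _
        rw [hX]
        exact Real.mul_rpow (pow_nonneg hl0 r) (sum_nonneg fun _ _ => ha0 _)
      · intro A T
        simp only [mem_powerset, mem_powersetCard, mem_filter]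
        constructor
        · rintro ⟨h1, h2, h3⟩
          exact ⟨⟨h1, h2⟩, h2.trans h1, h3⟩
        · rintro ⟨⟨h1, h2⟩, h3, h4⟩
          exact ⟨h1, h2, h4⟩
    have e2 : (2 : ℝ) ^ V.card * ∑ T ∈ V.powersetCard i, EE V r a T ^ θ ≤
        (2 : ℝ) ^ (i + r) * ∑ T ∈ V.powersetCard i,
        ∑ A ∈ V.powerset with T ⊆ A, (∑ R ∈ (V \ A).powersetCard r, a (T ∪ R)) ^ θ := by
      rw [mul_sum, mul_sum]
      apply sum_le_sum
      intro T hT
      rw [mem_powersetCard] at hT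
      have := sampling V ha0 r hθ0 hθ1 hT.1
      rw [hT.2] at this
      exact this
    have hE0 : 0 ≤ ∑ T ∈ V.powersetCard i, EE V r a T ^ θ :=
      sum_nonneg fun T _ => Real.rpow_nonneg (EE_nonneg V r ha0 T) _
    have e3 : (2 : ℝ) ^ V.card * ((1 / 2 : ℝ) ^ (i + r) * ((l ^ r) ^ θ *
        ∑ T ∈ V.powersetCard i, EE V r a T ^ θ)) ≤ ∑ z ∈ I, X z r ^ θ := by
      rw [e1]
      have e4 : (1 / 2 : ℝ) ^ (i + r) * (2 : ℝ) ^ (i + r) = 1 := by
        rw [← mul_pow]; norm_num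
      have hl1 : 0 ≤ (l ^ r) ^ θ := Real.rpow_nonneg (pow_nonneg hl0 r) _
      calc (2 : ℝ) ^ V.card * ((1 / 2 : ℝ) ^ (i + r) * ((l ^ r) ^ θ *
            ∑ T ∈ V.powersetCard i, EE V r a T ^ θ)) =
            ((1 / 2 : ℝ) ^ (i + r) * (l ^ r) ^ θ) *
              ((2 : ℝ) ^ V.card * ∑ T ∈ V.powersetCard i, EE V r a T ^ θ) := by ring
        _ ≤ ((1 / 2 : ℝ) ^ (i + r) * (l ^ r) ^ θ) * ((2 : ℝ) ^ (i + r) * ∑ T ∈ V.powersetCard i,
            ∑ A ∈ V.powerset with T ⊆ A, (∑ R ∈ (V \ A).powersetCard r, a (T ∪ R)) ^ θ) :=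
            mul_le_mul_of_nonneg_left e2 (by positivity)
        _ = ((1 / 2 : ℝ) ^ (i + r) * (2 : ℝ) ^ (i + r)) * ((l ^ r) ^ θ * ∑ T ∈ V.powersetCard i,
            ∑ A ∈ V.powerset with T ⊆ A, (∑ R ∈ (V \ A).powersetCard r, a (T ∪ R)) ^ θ) := by ring
        _ = _ := by rw [e4, one_mul]
    have e5 := Real.rpow_le_rpow (by positivity) e3 hq0
    refine le_trans (le_of_eq_of_le ?_ (mul_le_mul_of_nonneg_left (blei_iter V ha0 r i hi)
      (by positivity : 0 ≤ ((2 : ℝ) ^ V.card) ^ (1 / θ) * (l ^ r * ((1 / 2 : ℝ) ^ (i + r)) ^ (1 / θ)))))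
      (le_trans (le_of_eq ?_) e5)
    · unfold ww
      have : i + r - i = r := by omega
      rw [this, ← hl, ← hθ]; ring
    · rw [Real.mul_rpow (by positivity) (by positivity), Real.mul_rpow (by positivity) (by positivity),
        Real.mul_rpow (by positivity) hE0, ← Real.rpow_mul (pow_nonneg hl0 r) θ,
        mul_one_div_cancel hθ0.ne', Real.rpow_one]
      have : NN V i (EE V r a) = (∑ T ∈ V.powersetCard i, EE V r a T ^ θ) ^ (1 / θ) := rfl
      rw [this]; ring
  -- conclusion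
  have hZ0 : 0 ≤ ∑ z ∈ I, (∑ r ∈ range L, X z r) ^ θ :=
    sum_nonneg fun z _ => Real.rpow_nonneg (sum_nonneg fun r _ => hX0 z r) _
  have h5 : M ^ (1 / θ) * ∑ r ∈ range L, ww (i + r) i * NN V (i + r) a ≤ M ^ (1 / θ - 1) * N := by
    calc M ^ (1 / θ) * ∑ r ∈ range L, ww (i + r) i * NN V (i + r) a =
        Ω ^ (1 / θ) * ∑ r ∈ range L, ((2 : ℝ) ^ V.card) ^ (1 / θ) *
          (ww (i + r) i * NN V (i + r) a) := by
          rw [hM, Real.mul_rpow (by positivity) hΩ0.le, ← mul_sum]; ring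
      _ ≤ Ω ^ (1 / θ) * ∑ r ∈ range L, (∑ z ∈ I, X z r ^ θ) ^ (1 / θ) :=
          mul_le_mul_of_nonneg_left (sum_le_sum h4) (by positivity)
      _ ≤ Ω ^ (1 / θ) * (∑ z ∈ I, (∑ r ∈ range L, X z r) ^ θ) ^ (1 / θ) :=
          mul_le_mul_of_nonneg_left h3 (by positivity)
      _ = (Ω * ∑ z ∈ I, (∑ r ∈ range L, X z r) ^ θ) ^ (1 / θ) := by
          rw [Real.mul_rpow hΩ0.le hZ0]
      _ ≤ (∑ A ∈ V.powerset, ∑ e : α → Bool, s A e) ^ (1 / θ) :=
          Real.rpow_le_rpow (mul_nonneg hΩ0.le hZ0) h2 hq0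
      _ ≤ _ := h1
  have h6 : M ^ (1 / θ) = M ^ (1 / θ - 1) * M := by
    rw [Real.rpow_sub_one hM0.ne']; field_simp
  rw [h6, mul_assoc] at h5
  exact le_of_mul_le_mul_left h5 (Real.rpow_pos_of_pos hM0 _)

end Pool.Agent.H591R3.BH
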