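import Pool.Agent.H591R3.BH4

set_option autoImplicit false

open Finset

namespace Pool.Agent.H591R3.BH

/-! ### the binomial estimate -/

theorem binom_var (j : ℕ) : ∑ i ∈ range (j + 1), ((j : ℝ) / 2 - i) ^ 2 *
    ((j.choose i : ℝ) * (1 / 2 : ℝ) ^ j) = (j : ℝ) / 4 := by
  have h := congrArg (Polynomial.eval (1 / 2 : ℝ)) (bernsteinPolynomial.variance ℝ j)
  rw [Polynomial.eval_finsetSum] at h
  have h1 : ∀ i ∈ range (j + 1), Polynomial.eval (1 / 2 : ℝ)
      ((j • Polynomial.X - (i : Polynomial ℝ)) ^ 2 * bernsteinPolynomial ℝ j i) =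
      ((j : ℝ) / 2 - i) ^ 2 * ((j.choose i : ℝ) * (1 / 2 : ℝ) ^ j) := by
    intro i hi
    rw [mem_range] at hi
    unfold bernsteinPolynomial
    simp only [Polynomial.eval_mul, Polynomial.eval_pow, Polynomial.eval_sub, Polynomial.eval_X,
      Polynomial.eval_natCast, Polynomial.eval_one, nsmul_eq_mul]
    have e1 : (1 - 1 / 2 : ℝ) = 1 / 2 := by norm_num
    rw [e1]
    have e2 : (1 / 2 : ℝ) ^ i * (1 / 2 : ℝ) ^ (j - i) = (1 / 2 : ℝ) ^ j := by
      rw [← pow_add]; congr 1; omega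
    calc _ = ((j : ℝ) * (1 / 2) - i) ^ 2 * ((j.choose i : ℝ) *
        ((1 / 2 : ℝ) ^ i * (1 / 2 : ℝ) ^ (j - i))) := by ring
      _ = _ := by rw [e2]; ring
  rw [sum_congr rfl h1] at h
  rw [h]
  simp only [Polynomial.eval_mul, Polynomial.eval_sub, Polynomial.eval_natCast,
      Polynomial.eval_X, Polynomial.eval_one, nsmul_eq_mul]
  ring

theorem binom_mid {j : ℕ} (hj : 8 ≤ j) : (1 / 2 : ℝ) ≤
    ∑ i ∈ (range (j + 1)).filter (fun i => j ≤ 4 * i ∧ 4 * i ≤ 3 * j),
      (j.choose i : ℝ) * (1 / 2 : ℝ) ^ j := by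
  have hjR : (8 : ℝ) ≤ j := by exact_mod_cast hj
  have htot : ∑ i ∈ range (j + 1), (j.choose i : ℝ) * (1 / 2 : ℝ) ^ j = 1 := by
    rw [← sum_mul]
    have h1 : ∑ i ∈ range (j + 1), (j.choose i : ℝ) = (2 : ℝ) ^ j := by
      have := Nat.sum_range_choose j
      exact_mod_cast this
    rw [h1, ← mul_pow]; norm_num
  rw [← sum_filter_add_sum_filter_not (range (j + 1))
    (fun i => j ≤ 4 * i ∧ 4 * i ≤ 3 * j)] at htot
  set P := ∑ i ∈ (range (j + 1)).filter (fun i => j ≤ 4 * i ∧ 4 * i ≤ 3 * j),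
      (j.choose i : ℝ) * (1 / 2 : ℝ) ^ j
  set Q := ∑ i ∈ (range (j + 1)).filter (fun i => ¬ (j ≤ 4 * i ∧ 4 * i ≤ 3 * j)),
      (j.choose i : ℝ) * (1 / 2 : ℝ) ^ j with hQ
  have hv := binom_var j
  have h1 : ((j : ℝ) / 4) ^ 2 * Q ≤ (j : ℝ) / 4 := by
    rw [← hv, hQ, mul_sum]
    refine le_trans ?_ (sum_le_sum_of_subset_of_nonneg (filter_subset
      (fun i => ¬ (j ≤ 4 * i ∧ 4 * i ≤ 3 * j)) (range (j + 1))) (fun i _ _ => by positivity))
    apply sum_le_sum
    intro i hi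
    apply mul_le_mul_of_nonneg_right _ (by positivity)
    rw [mem_filter] at hi
    have h2 := hi.2
    rw [not_and_or, not_le, not_le] at h2
    rcases h2 with h2 | h2
    · have h3 : (4 : ℝ) * i < j := by exact_mod_cast h2
      nlinarith
    · have h3 : (3 : ℝ) * j < 4 * i := by exact_mod_cast h2
      nlinarith
  have h2 : Q ≤ 1 / 2 := by
    by_contra hcon
    push Not at hcon
    have h3 : ((j : ℝ) / 4) ^ 2 * (1 / 2) < ((j : ℝ) / 4) ^ 2 * Q :=
      mul_lt_mul_of_pos_left hcon (by positivity)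
    nlinarith
  linarith

theorem ww_ge {j i : ℕ} (hi : 2 ≤ i) (h1 : j ≤ 4 * i) (hij : i ≤ j) :
    Real.exp (-12) / 16 * ((j.choose i : ℝ) * (1 / 2 : ℝ) ^ j) ≤ ww j i := by
  have hiR : (2 : ℝ) ≤ i := by exact_mod_cast hi
  have h1R : (j : ℝ) ≤ 4 * i := by exact_mod_cast h1
  have hijR : (i : ℝ) ≤ j := by exact_mod_cast hij
  have hi1 : (0 : ℝ) < (i : ℝ) - 1 := by linarith
  have hi2 : (0 : ℝ) < (i : ℝ) + 1 := by linarith
  have hi3 : (0 : ℝ) < (i : ℝ) := by linarith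
  -- the first factor
  have h2 : Real.exp (-12) ≤ (((i : ℝ) - 1) / ((i : ℝ) + 1)) ^ (j - i) := by
    have h3 : Real.exp (-(2 / ((i : ℝ) - 1))) ≤ ((i : ℝ) - 1) / ((i : ℝ) + 1) := by
      rw [Real.exp_neg, inv_le_comm₀ (Real.exp_pos _) (by positivity), inv_div]
      have := Real.add_one_le_exp (2 / ((i : ℝ) - 1))
      have e : ((i : ℝ) + 1) / ((i : ℝ) - 1) = 2 / ((i : ℝ) - 1) + 1 := by field_simp; ring
      rw [e]; exact this
    calc Real.exp (-12) ≤ Real.exp (-(2 / ((i : ℝ) - 1))) ^ (j - i) := by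
          rw [← Real.exp_nat_mul]
          apply Real.exp_le_exp.2
          rw [Nat.cast_sub hij]
          have : ((j : ℝ) - i) * (2 / ((i : ℝ) - 1)) ≤ 12 := by
            rw [← mul_div_assoc, div_le_iff₀ hi1]
            nlinarith
          linarith
      _ ≤ _ := pow_le_pow_left₀ (Real.exp_pos _).le h3 _
  -- the second factor
  have h3 : (1 / 16 : ℝ) * (1 / 2 : ℝ) ^ j ≤ ((1 / 2 : ℝ) ^ j) ^ (1 / th i) := by
    have e1 : 1 / th i = 1 + 1 / (i : ℝ) := by unfold th; rw [one_div_div]; field_simp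
    rw [e1, Real.rpow_add (by positivity), Real.rpow_one, mul_comm]
    apply mul_le_mul_of_nonneg_left _ (by positivity)
    rw [← Real.rpow_natCast, ← Real.rpow_mul (by norm_num)]
    have e2 : (1 / 16 : ℝ) = (1 / 2 : ℝ) ^ (4 : ℝ) := by
      rw [show (4 : ℝ) = ((4 : ℕ) : ℝ) by norm_num, Real.rpow_natCast]; norm_num
    rw [e2]
    apply Real.rpow_le_rpow_of_exponent_ge (by norm_num) (by norm_num)
    rw [mul_one_div, div_le_iff₀ hi3]
    exact h1R
  unfold ww
  calc Real.exp (-12) / 16 * ((j.choose i : ℝ) * (1 / 2 : ℝ) ^ j) =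
      (Real.exp (-12) * ((1 / 16 : ℝ) * (1 / 2 : ℝ) ^ j)) * (j.choose i : ℝ) := by ring
    _ ≤ _ := by
      apply mul_le_mul_of_nonneg_right _ (Nat.cast_nonneg _)
      exact mul_le_mul h2 h3 (by positivity) (le_trans (Real.exp_pos _).le h2)

/-- the stage constant -/
noncomputable def c0 : ℝ := min (Real.exp (-12) / 32) (1 / 3 ^ 5 / 2 ^ 14)

theorem c0_pos : 0 < c0 := by unfold c0; positivity

theorem ww_sum_ge {j m : ℕ} (hj : 2 ≤ j) (hm : 2 ≤ m) (hjm : 3 * j / 4 ≤ m) :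
    c0 ≤ ∑ i ∈ (Icc 2 m).filter (fun i => i ≤ j), ww j i := by
  rcases le_or_gt 8 j with h8 | h8
  · -- many terms
    have h1 := binom_mid h8
    have h2 : ∑ i ∈ (range (j + 1)).filter (fun i => j ≤ 4 * i ∧ 4 * i ≤ 3 * j), ww j i ≤
        ∑ i ∈ (Icc 2 m).filter (fun i => i ≤ j), ww j i := by
      apply sum_le_sum_of_subset_of_nonneg
      · intro i hi
        rw [mem_filter, mem_range] at hi
        rw [mem_filter, mem_Icc]
        omega
      · intro i hi _
        rw [mem_filter, mem_Icc] at hi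
        exact ww_nonneg (by omega)
    have h3 : Real.exp (-12) / 16 * (1 / 2) ≤
        ∑ i ∈ (range (j + 1)).filter (fun i => j ≤ 4 * i ∧ 4 * i ≤ 3 * j), ww j i := by
      refine le_trans (mul_le_mul_of_nonneg_left h1 (by positivity)) ?_
      rw [mul_sum]
      apply sum_le_sum
      intro i hi
      rw [mem_filter, mem_range] at hi
      exact ww_ge (by omega) (by omega) (by omega)
    refine le_trans (min_le_left _ _) (le_trans ?_ (h3.trans h2))
    linarith
  · have h1 : ww j 2 ≤ ∑ i ∈ (Icc 2 m).filter (fun i => i ≤ j), ww j i := by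
      apply single_le_sum (f := fun i => ww j i)
      · intro i hi
        rw [mem_filter, mem_Icc] at hi
        exact ww_nonneg (by omega)
      · rw [mem_filter, mem_Icc]; omega
    refine le_trans (min_le_right _ _) (le_trans ?_ h1)
    unfold ww
    have e1 : ((1 : ℝ) / 3) ^ 5 ≤ ((((2 : ℕ) : ℝ) - 1) / (((2 : ℕ) : ℝ) + 1)) ^ (j - 2) := by
      have : ((((2 : ℕ) : ℝ) - 1) / (((2 : ℕ) : ℝ) + 1)) = 1 / 3 := by norm_num
      rw [this]
      exact pow_le_pow_of_le_one (by norm_num) (by norm_num) (by omega)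
    have e2 : ((1 : ℝ) / 2) ^ 14 ≤ ((1 / 2 : ℝ) ^ j) ^ (1 / th 2) := by
      have e3 : 1 / th 2 ≤ 2 := by unfold th; norm_num
      calc ((1 : ℝ) / 2) ^ 14 ≤ ((1 / 2 : ℝ) ^ j) ^ (2 : ℝ) := by
            rw [show (2 : ℝ) = ((2 : ℕ) : ℝ) by norm_num, Real.rpow_natCast, ← pow_mul]
            apply pow_le_pow_of_le_one (by norm_num) (by norm_num) (by omega)
        _ ≤ _ := by
            apply Real.rpow_le_rpow_of_exponent_ge (by positivity) _ e3
            exact pow_le_one₀ (by norm_num) (by norm_num)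
    have e3 : (1 : ℝ) ≤ (j.choose 2 : ℝ) := by
      have : 0 < j.choose 2 := Nat.choose_pos hj
      exact_mod_cast this
    calc (1 / 3 ^ 5 / 2 ^ 14 : ℝ) = ((1 : ℝ) / 3) ^ 5 * ((1 : ℝ) / 2) ^ 14 * 1 := by norm_num
      _ ≤ _ := by
        apply mul_le_mul (mul_le_mul e1 e2 (by positivity) (le_trans (by positivity) e1)) e3
          zero_le_one
        exact mul_nonneg (le_trans (by positivity) e1) (le_trans (by positivity) e2)

variable {α : Type} [DecidableEq α]

/-- the functional -/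
noncomputable def GG (V : Finset α) (D : ℕ) (a : Finset α → ℝ) : ℝ := ∑ j ∈ Icc 2 D, NN V j a

/-- **The stage inequality.** -/
theorem stage [Fintype α] (V : Finset α) (b : Finset α → ℝ) {D : ℕ} (hD : 3 ≤ D) :
    ∃ A, A ⊆ V ∧ ∃ e : α → Bool,
      c0 * GG V D (fun S => b S ^ 2) ≤ GG A (3 * D / 4) (fun T => rst V A b e T ^ 2) := by
  set m := 3 * D / 4 with hm
  set a : Finset α → ℝ := fun S => b S ^ 2 with ha
  have ha0 : ∀ S, 0 ≤ a S := fun S => sq_nonneg _
  set Ω : ℝ := (Fintype.card (α → Bool) : ℝ) with hΩ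
  have hΩ0 : 0 < Ω := by rw [hΩ]; exact_mod_cast Fintype.card_pos
  set M : ℝ := (2 : ℝ) ^ V.card * Ω with hM
  have hM0 : 0 < M := by positivity
  have h1 : M * (c0 * GG V D a) ≤
      ∑ A ∈ V.powerset, ∑ e : α → Bool, GG A m (fun T => rst V A b e T ^ 2) := by
    have h2 : ∑ A ∈ V.powerset, ∑ e : α → Bool, GG A m (fun T => rst V A b e T ^ 2) =
        ∑ i ∈ Icc 2 m, ∑ A ∈ V.powerset, ∑ e : α → Bool, NN A i (fun T => rst V A b e T ^ 2) := by
      unfold GG
      rw [sum_comm]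
      conv_rhs => rw [sum_comm]
      rw [sum_comm]
      apply sum_congr rfl
      intro A _
      rw [sum_comm]
    rw [h2]
    have h3 : ∑ i ∈ Icc 2 m, M * ∑ j ∈ Ico i (D + 1), ww j i * NN V j a ≤
        ∑ i ∈ Icc 2 m, ∑ A ∈ V.powerset, ∑ e : α → Bool,
          NN A i (fun T => rst V A b e T ^ 2) := by
      apply sum_le_sum
      intro i hi
      rw [mem_Icc] at hi
      rw [sum_Ico_eq_sum_range]
      exact stage_one V b (by omega) (D + 1 - i)
    refine le_trans ?_ h3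
    rw [← mul_sum]
    apply mul_le_mul_of_nonneg_left _ hM0.le
    rw [sum_comm' (t' := Icc 2 D) (s' := fun j => (Icc 2 m).filter (fun i => i ≤ j))]
    · unfold GG
      rw [mul_sum]
      apply sum_le_sum
      intro j hj
      rw [mem_Icc] at hj
      rw [← sum_mul]
      apply mul_le_mul_of_nonneg_right _ (NN_nonneg V j ha0)
      exact ww_sum_ge hj.1 (by omega) (by omega)
    · intro i j
      simp only [mem_Icc, mem_Ico, mem_filter]
      omega
  have h2 : ∑ _z ∈ V.powerset ×ˢ (univ : Finset (α → Bool)), c0 * GG V D a ≤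
      ∑ z ∈ V.powerset ×ˢ (univ : Finset (α → Bool)), GG z.1 m (fun T => rst V z.1 b z.2 T ^ 2) := by
    have h3 : (((V.powerset ×ˢ (univ : Finset (α → Bool))).card : ℕ) : ℝ) = M := by
      rw [card_product, card_powerset, card_univ, hM, hΩ]; push_cast; ring
    rw [sum_const, nsmul_eq_mul, h3, sum_product]
    exact h1
  obtain ⟨z, hz, hz2⟩ := exists_le_of_sum_le
    (⟨(∅, fun _ => true), by simp⟩ : (V.powerset ×ˢ (univ : Finset (α → Bool))).Nonempty) h2
  rw [mem_product, mem_powerset] at hz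
  exact ⟨z.1, hz.1, z.2, hz2⟩

end Pool.Agent.H591R3.BH
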