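import Pool.Agent.H591R3.BH5

set_option autoImplicit false

open Finset

namespace Pool.Agent.H591R3.BH

/-! ### polynomials in one variable -/

section onevar

open Polynomial

/-- derivative at the end point -/
theorem markov_end {n : ℕ} {P : ℝ[X]} {B : ℝ} (hP : P.natDegree ≤ n)
    (hb : ∀ t ∈ Set.Icc (-1 : ℝ) 1, |P.eval t| ≤ B) :
    |(derivative P).eval 1| ≤ (n : ℝ) ^ 2 * B := by
  have hB0 : 0 ≤ B := (abs_nonneg _).trans (hb 1 (by norm_num))
  have key : ∀ B' : ℝ, 0 < B' → B ≤ B' → ∀ s : ℝ, |s| = 1 →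
      s * (derivative P).eval 1 ≤ (n : ℝ) ^ 2 * B' := by
    intro B' hB' hBB' s hs
    have h := Polynomial.Chebyshev.eval_iterate_derivative_le_of_forall_abs_le_one
      (n := n) (P := C (s / B') * P) (k := 1) (x := 1) le_rfl
      (by
        refine natDegree_le_iff_degree_le.1 ?_
        exact (natDegree_C_mul_le _ _).trans hP)
      (by
        intro t ht
        rw [eval_mul, eval_C, abs_mul, abs_div, hs, abs_of_pos hB']
        have := hb t ht
        rw [one_div, inv_mul_le_iff₀ hB', mul_one]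
        exact this.trans hBB')
    rw [iterate_derivative_C_mul, eval_mul, eval_C] at h
    have hT : (derivative^[1] (Polynomial.Chebyshev.T ℝ (n : ℤ))).eval 1 = (n : ℝ) ^ 2 := by
      have := Polynomial.Chebyshev.derivative_T_eval_one (R := ℝ) (n : ℤ)
      simpa using this
    rw [hT, Function.iterate_one] at h
    have h2 : s / B' * (derivative P).eval 1 * B' = s * (derivative P).eval 1 := by
      field_simp
    rw [← h2]
    exact mul_le_mul_of_nonneg_right h hB'.le
  have key2 : ∀ s : ℝ, |s| = 1 → s * (derivative P).eval 1 ≤ (n : ℝ) ^ 2 * B := by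
    intro s hs
    apply le_of_forall_pos_le_add
    intro ε hε
    have hn : (0 : ℝ) < (n : ℝ) ^ 2 + 1 := by positivity
    have h1 := key (B + ε / ((n : ℝ) ^ 2 + 1)) (by positivity) (by
      have : 0 < ε / ((n : ℝ) ^ 2 + 1) := by positivity
      linarith) s hs
    have h2 : (n : ℝ) ^ 2 * (ε / ((n : ℝ) ^ 2 + 1)) ≤ ε := by
      rw [← mul_div_assoc, div_le_iff₀ hn]
      nlinarith
    linarith
  rw [abs_le]
  constructor
  · have := key2 (-1) (by norm_num)
    linarith
  · have := key2 1 (by norm_num)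
    linarith

/-- a weak form of Markov's inequality -/
theorem markov_aux {n : ℕ} {P : ℝ[X]} {B : ℝ} (hP : P.natDegree ≤ n)
    (hb : ∀ t ∈ Set.Icc (-1 : ℝ) 1, |P.eval t| ≤ B) {t : ℝ} (ht0 : 0 ≤ t) (ht1 : t ≤ 1) :
    |(derivative P).eval t| ≤ 2 * (n : ℝ) ^ 2 * B := by
  have h := markov_end (n := n) (P := P.comp (C (t - 1 / 2) + C (1 / 2) * X)) (B := B)
    (by
      refine natDegree_comp_le.trans ?_
      calc P.natDegree * (C (t - 1 / 2) + C (1 / 2) * X : ℝ[X]).natDegree ≤ n * 1 :=
            Nat.mul_le_mul hP (by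
              refine (natDegree_add_le _ _).trans ?_
              refine max_le (by simp) ?_
              exact (natDegree_C_mul_le _ _).trans (by simp))
        _ = n := mul_one n)
    (by
      intro s hs
      rw [eval_comp]
      apply hb
      simp only [eval_add, eval_mul, eval_C, eval_X]
      constructor
      · linarith [hs.1]
      · linarith [hs.2])
  rw [derivative_comp, eval_mul, eval_comp] at h
  simp only [derivative_add, derivative_C, derivative_mul, derivative_X, eval_add, eval_mul,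
    eval_C, eval_X, zero_mul, zero_add, mul_one] at h
  have e : t - 1 / 2 + 1 / 2 = t := by ring
  rw [e, abs_mul, abs_of_pos (by norm_num : (0 : ℝ) < 1 / 2)] at h
  linarith

theorem markov {n : ℕ} {P : ℝ[X]} {B : ℝ} (hP : P.natDegree ≤ n)
    (hb : ∀ t ∈ Set.Icc (-1 : ℝ) 1, |P.eval t| ≤ B) {t : ℝ} (ht : t ∈ Set.Icc (-1 : ℝ) 1) :
    |(derivative P).eval t| ≤ 2 * (n : ℝ) ^ 2 * B := by
  rcases le_total 0 t with h0 | h0
  · exact markov_aux hP hb h0 ht.2
  · have h := markov_aux (n := n) (P := P.comp (C (-1) * X)) (B := B)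
      (by
        refine natDegree_comp_le.trans ?_
        calc P.natDegree * (C (-1) * X : ℝ[X]).natDegree ≤ n * 1 :=
              Nat.mul_le_mul hP ((natDegree_C_mul_le _ _).trans (by simp))
          _ = n := mul_one n)
      (by
        intro s hs
        rw [eval_comp]
        apply hb
        simp only [eval_mul, eval_C, eval_X]
        constructor
        · linarith [hs.2]
        · linarith [hs.1]) (t := -t) (by linarith) (by linarith [ht.1])
    rw [derivative_comp, eval_mul, eval_comp] at h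
    simp only [derivative_C, derivative_mul, derivative_X, eval_mul,
      eval_C, eval_X, zero_mul, zero_add, mul_one] at h
    have e : -1 * -t = t := by ring
    rw [e, abs_mul, abs_neg, abs_one, one_mul] at h
    exact h

theorem coeff_one_le {n : ℕ} {P : ℝ[X]} {B : ℝ} (hP : P.natDegree ≤ n)
    (hb : ∀ t ∈ Set.Icc (-1 : ℝ) 1, |P.eval t| ≤ B) : |P.coeff 1| ≤ 2 * (n : ℝ) ^ 2 * B := by
  have h := markov hP hb (t := 0) (by norm_num)
  rw [← coeff_zero_eq_eval_zero, coeff_derivative] at h
  simpa using h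

theorem coeff_two_le {n : ℕ} {P : ℝ[X]} {B : ℝ} (hP : P.natDegree ≤ n)
    (hb : ∀ t ∈ Set.Icc (-1 : ℝ) 1, |P.eval t| ≤ B) : |P.coeff 2| ≤ 2 * (n : ℝ) ^ 4 * B := by
  have h1 : (derivative P).natDegree ≤ n :=
    (natDegree_derivative_le P).trans ((Nat.sub_le _ _).trans hP)
  have h2 : ∀ t ∈ Set.Icc (-1 : ℝ) 1, |(derivative P).eval t| ≤ 2 * (n : ℝ) ^ 2 * B :=
    fun t ht => markov hP hb ht
  have h := markov h1 h2 (t := 0) (by norm_num)
  rw [← coeff_zero_eq_eval_zero, coeff_derivative, coeff_derivative] at h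
  norm_num at h
  have e : 2 * (n : ℝ) ^ 2 * (2 * (n : ℝ) ^ 2 * B) = 4 * (n : ℝ) ^ 4 * B := by ring
  rw [e] at h
  linarith

end onevar

/-! ### the multi-affine extension -/

variable {α : Type} [DecidableEq α]

/-- the multi-affine extension -/
def mpoly (V : Finset α) (b : Finset α → ℝ) (x : α → ℝ) : ℝ := ∑ T ∈ V.powerset, b T * ∏ i ∈ T, x i

omit [DecidableEq α] in
theorem poly_eq_mpoly (V : Finset α) (b : Finset α → ℝ) (e : α → Bool) :
    poly V b e = mpoly V b (fun i => sg (e i)) := rfl

theorem mpoly_insert {V : Finset α} {v : α} (hv : v ∉ V) (c : Finset α → ℝ) (x : α → ℝ) :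
    mpoly (insert v V) c x = mpoly V c x + x v * mpoly V (fun R => c (insert v R)) x := by
  unfold mpoly
  rw [sum_powerset_insert hv, mul_sum]
  congr 1
  apply sum_congr rfl
  intro R hR
  rw [prod_insert (fun h => hv (mem_powerset.1 hR h))]
  ring

theorem mpoly_le {B : ℝ} (V : Finset α) : ∀ (b : Finset α → ℝ), (∀ e, |poly V b e| ≤ B) →
    ∀ x : α → ℝ, (∀ i, |x i| ≤ 1) → |mpoly V b x| ≤ B := by
  induction V using Finset.induction_on with
  | empty =>
    intro b hb x hx
    have := hb (fun _ => true)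
    simpa [poly, mpoly, chi] using this
  | insert v V hv ih =>
    intro b hb x hx
    have key : ∀ s : Bool, |mpoly V b x + sg s * mpoly V (fun R => b (insert v R)) x| ≤ B := by
      intro s
      have h1 := ih (fun R => b R + sg s * b (insert v R)) (by
        intro e
        have h2 := hb (Function.update e v s)
        have hup : ∀ c : Finset α → ℝ, poly V c (Function.update e v s) = poly V c e := by
          intro c
          unfold poly
          apply sum_congr rfl
          intro R hR
          congr 1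
          unfold chi
          apply prod_congr rfl
          intro i hi
          have : i ≠ v := fun h => hv (h ▸ mem_powerset.1 hR hi)
          rw [Function.update_of_ne this]
        rw [poly_insert hv, hup, hup, Function.update_self] at h2
        have h3 : poly V (fun R => b R + sg s * b (insert v R)) e =
            poly V b e + sg s * poly V (fun R => b (insert v R)) e := by
          unfold poly
          rw [mul_sum, ← sum_add_distrib]
          exact sum_congr rfl fun _ _ => by ring
        rw [h3]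
        exact h2) x hx
      have h3 : mpoly V (fun R => b R + sg s * b (insert v R)) x =
          mpoly V b x + sg s * mpoly V (fun R => b (insert v R)) x := by
        unfold mpoly
        rw [mul_sum, ← sum_add_distrib]
        exact sum_congr rfl fun _ _ => by ring
      rw [h3] at h1
      exact h1
    rw [mpoly_insert hv]
    have h1 := key true
    have h2 := key false
    have s1 : sg true = 1 := rfl
    have s2 : sg false = -1 := rfl
    rw [s1] at h1
    rw [s2] at h2
    have h3 := hx v
    rw [abs_le] at h1 h2 h3 ⊢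
    set u := mpoly V b x
    set w := mpoly V (fun R => b (insert v R)) x
    constructor
    · nlinarith [mul_nonneg (sub_nonneg.2 h3.1) (sub_nonneg.2 h1.1),
        mul_nonneg (sub_nonneg.2 h3.2) (sub_nonneg.2 h2.1)]
    · nlinarith [mul_nonneg (sub_nonneg.2 h3.1) (sub_nonneg.2 h1.2),
        mul_nonneg (sub_nonneg.2 h3.2) (sub_nonneg.2 h2.2)]

/-- the slice of `b` in the direction `e` -/
noncomputable def slice (V : Finset α) (b : Finset α → ℝ) (e : α → Bool) : Polynomial ℝ :=
  ∑ T ∈ V.powerset, Polynomial.monomial T.card (b T * chi e T)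

omit [DecidableEq α] in
theorem slice_coeff (V : Finset α) (b : Finset α → ℝ) (e : α → Bool) (k : ℕ) :
    (slice V b e).coeff k = ∑ T ∈ V.powersetCard k, b T * chi e T := by
  unfold slice
  rw [Polynomial.finsetSum_coeff, powersetCard_eq_filter, sum_filter]
  apply sum_congr rfl
  intro T _
  rw [Polynomial.coeff_monomial]

omit [DecidableEq α] in
theorem slice_natDegree {V : Finset α} {b : Finset α → ℝ} {d : ℕ}
    (hd : ∀ T : Finset α, d < T.card → b T = 0) (e : α → Bool) : (slice V b e).natDegree ≤ d := by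
  rw [Polynomial.natDegree_le_iff_coeff_eq_zero]
  intro k hk
  rw [slice_coeff]
  apply sum_eq_zero
  intro T hT
  rw [mem_powersetCard] at hT
  rw [hd T (by omega), zero_mul]

theorem slice_le {B : ℝ} {V : Finset α} {b : Finset α → ℝ} (hb : ∀ e, |poly V b e| ≤ B)
    (e : α → Bool) {t : ℝ} (ht : t ∈ Set.Icc (-1 : ℝ) 1) : |(slice V b e).eval t| ≤ B := by
  have h1 : (slice V b e).eval t = mpoly V b (fun i => t * sg (e i)) := by
    unfold slice mpoly
    rw [Polynomial.eval_finsetSum]
    apply sum_congr rfl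
    intro T _
    rw [Polynomial.eval_monomial, prod_mul_distrib, prod_const]
    unfold chi
    ring
  rw [h1]
  apply mpoly_le V b hb
  intro i
  rw [abs_mul, sg_abs, mul_one, abs_le]
  exact ht

/-- The level-one part. -/
theorem level_one {B : ℝ} {V : Finset α} {b : Finset α → ℝ} {d : ℕ}
    (hd : ∀ T : Finset α, d < T.card → b T = 0) (hb : ∀ e, |poly V b e| ≤ B) :
    ∑ T ∈ V.powersetCard 1, |b T| ≤ 2 * (d : ℝ) ^ 2 * B := by
  set e : α → Bool := fun i => decide (0 ≤ b {i}) with he
  have h1 := coeff_one_le (slice_natDegree (V := V) hd e) (fun t ht => slice_le hb e ht)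
  rw [slice_coeff] at h1
  refine le_trans (le_of_eq ?_) ((le_abs_self _).trans h1)
  apply sum_congr rfl
  intro T hT
  rw [mem_powersetCard] at hT
  obtain ⟨i, rfl⟩ := card_eq_one.1 hT.2
  unfold chi
  rw [prod_singleton]
  by_cases h : 0 ≤ b {i}
  · have : e i = true := by rw [he]; simp [h]
    rw [this, abs_of_nonneg h]
    simp [sg]
  · have : e i = false := by rw [he]; simpa using h
    rw [this, abs_of_neg (not_le.1 h)]
    simp [sg]

/-- The level-two part. -/
theorem level_two {B : ℝ} {V : Finset α} {b : Finset α → ℝ} {d : ℕ}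
    (hd : ∀ T : Finset α, d < T.card → b T = 0) (hb : ∀ e, |poly V b e| ≤ B) (e : α → Bool) :
    |∑ T ∈ V.powersetCard 2, b T * chi e T| ≤ 2 * (d : ℝ) ^ 4 * B := by
  have h1 := coeff_two_le (slice_natDegree (V := V) hd e) (fun t ht => slice_le hb e ht)
  rwa [slice_coeff] at h1

/-! ### second moments and Khinchine -/

theorem parseval [Fintype α] (V : Finset α) (c : Finset α → ℝ) :
    ∑ e : α → Bool, poly V c e ^ 2 = nrm V 1 c * Fintype.card (α → Bool) := by
  induction V using Finset.induction_on generalizing c with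
  | empty =>
    have h1 : ∀ e : α → Bool, poly ∅ c e ^ 2 = c ∅ ^ 2 := by
      intro e; simp [poly, chi]
    simp only [h1, sum_const, card_univ, nsmul_eq_mul]
    have h2 : nrm ∅ 1 c = c ∅ ^ 2 := by simp [nrm]
    rw [h2, mul_comm]
  | insert v V hv ih =>
    set d : Finset α → ℝ := fun R => c (insert v R) with hd
    have h2 : ∑ e : α → Bool, poly (insert v V) c e ^ 2 =
        (∑ e : α → Bool, poly (insert v V) c e ^ 2 +
          ∑ e : α → Bool, poly (insert v V) c (flp v e) ^ 2) / 2 := by
      rw [sum_flp v (fun e => poly (insert v V) c e ^ 2)]; ring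
    rw [h2, ← sum_add_distrib]
    have h3 : ∀ e : α → Bool, poly (insert v V) c e ^ 2 + poly (insert v V) c (flp v e) ^ 2 =
        2 * poly V c e ^ 2 + 2 * poly V d e ^ 2 := by
      intro e
      rw [poly_insert hv, poly_insert hv, poly_flp hv, poly_flp hv, sg_flp]
      have := sg_sq (e v)
      have h4 : (poly V c e + sg (e v) * poly V d e) ^ 2 +
          (poly V c e + -sg (e v) * poly V d e) ^ 2 =
          2 * poly V c e ^ 2 + 2 * (sg (e v) * sg (e v)) * poly V d e ^ 2 := by ring
      rw [this, mul_one] at h4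
      exact h4
    simp only [h3]
    rw [sum_add_distrib, ← mul_sum, ← mul_sum, ih, ih, nrm_insert hv]
    ring

/-- `L¹` Khinchine inequality for forms that are supported on singletons. -/
theorem khinchine [Fintype α] (V : Finset α) (c : Finset α → ℝ)
    (hc : ∀ R ∈ V.powerset, R.card ≠ 1 → c R = 0) :
    (Fintype.card (α → Bool) : ℝ) * (∑ R ∈ V.powersetCard 1, c R ^ 2) ^ (1 / 2 : ℝ) ≤
      3 * ∑ e : α → Bool, |poly V c e| := by
  set σ := ∑ R ∈ V.powersetCard 1, c R ^ 2 with hσ
  have hσ0 : 0 ≤ σ := sum_nonneg fun _ _ => sq_nonneg _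
  have hnrm : ∀ l : ℝ, nrm V l c = l * σ := by
    intro l
    unfold nrm
    rw [hσ, powersetCard_eq_filter, sum_filter, mul_sum]
    apply sum_congr rfl
    intro R hR
    by_cases h : R.card = 1
    · rw [if_pos h, h, pow_one]
    · rw [if_neg h, hc R hR h]; simp
  set Ω : ℝ := (Fintype.card (α → Bool) : ℝ) with hΩ
  have hΩ0 : 0 < Ω := by rw [hΩ]; exact_mod_cast Fintype.card_pos
  set S := ∑ e : α → Bool, |poly V c e| with hS
  have hS0 : 0 ≤ S := sum_nonneg fun _ _ => abs_nonneg _
  have h1 := bonami (p := 4 / 3) (by norm_num) (by norm_num) V c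
  rw [hnrm] at h1
  have h2 := parseval V c
  rw [hnrm, one_mul] at h2
  have h3 := Real.inner_le_Lp_mul_Lq_of_nonneg (univ : Finset (α → Bool))
    (p := 3 / 2) (q := 3) (f := fun e => |poly V c e| ^ (2 / 3 : ℝ))
    (g := fun e => |poly V c e| ^ (2 / 3 : ℝ))
    (by rw [Real.holderConjugate_iff]; norm_num)
    (fun e _ => Real.rpow_nonneg (abs_nonneg _) _) (fun e _ => Real.rpow_nonneg (abs_nonneg _) _)
  have e1 : ∀ e : α → Bool, |poly V c e| ^ (2 / 3 : ℝ) * |poly V c e| ^ (2 / 3 : ℝ) =
      |poly V c e| ^ (4 / 3 : ℝ) := by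
    intro e
    rw [← Real.rpow_add_of_nonneg (abs_nonneg _) (by norm_num) (by norm_num)]
    norm_num
  have e2 : ∀ e : α → Bool, (|poly V c e| ^ (2 / 3 : ℝ)) ^ (3 / 2 : ℝ) = |poly V c e| := by
    intro e
    rw [← Real.rpow_mul (abs_nonneg _)]; norm_num
  have e3 : ∀ e : α → Bool, (|poly V c e| ^ (2 / 3 : ℝ)) ^ (3 : ℝ) = poly V c e ^ 2 := by
    intro e
    rw [← Real.rpow_mul (abs_nonneg _), ← sq_abs, ← Real.rpow_natCast]; norm_num
  simp only [e1, e2, e3] at h3
  rw [h2, ← hS] at h3
  have h4 := h1.trans h3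
  -- cube
  have hL0 : 0 ≤ ((4 / 3 - 1 : ℝ) * σ) ^ (4 / 3 / 2 : ℝ) * Ω := by positivity
  have h5 := pow_le_pow_left₀ hL0 h4 3
  have e4 : (((4 / 3 - 1 : ℝ) * σ) ^ (4 / 3 / 2 : ℝ) * Ω) ^ 3 = (σ / 3) ^ 2 * Ω ^ 3 := by
    rw [mul_pow, ← Real.rpow_natCast, ← Real.rpow_mul (by positivity)]
    congr 1
    rw [← Real.rpow_natCast]
    norm_num
    congr 1
    ring
  have e5 : (S ^ (1 / (3 / 2) : ℝ) * (σ * Ω) ^ (1 / 3 : ℝ)) ^ 3 = S ^ 2 * (σ * Ω) := by
    rw [mul_pow, ← Real.rpow_natCast, ← Real.rpow_mul hS0, ← Real.rpow_natCast ((σ * Ω) ^ (1 / 3 : ℝ)),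
      ← Real.rpow_mul (by positivity), ← Real.rpow_natCast S]
    norm_num
  rw [e4, e5] at h5
  rcases eq_or_lt_of_le hσ0 with h0 | h0
  · rw [← h0, Real.zero_rpow (by norm_num), mul_zero]; positivity
  · have h6 : σ * Ω ^ 2 ≤ 9 * S ^ 2 := by
      have h7 : 0 < σ * Ω := by positivity
      have h8 : (σ * Ω) * (σ * Ω ^ 2) ≤ (σ * Ω) * (9 * S ^ 2) := by nlinarith
      exact le_of_mul_le_mul_left h8 h7
    rw [← Real.sqrt_eq_rpow]
    have h9 : (Ω * Real.sqrt σ) ^ 2 ≤ (3 * S) ^ 2 := by
      rw [mul_pow, Real.sq_sqrt hσ0]; nlinarith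
    exact le_of_sq_le_sq h9 (by positivity)

end Pool.Agent.H591R3.BH
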