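import Pool.Agent.H591R3.BH6

set_option autoImplicit false

open Finset

namespace Pool.Agent.H591R3.BH

variable {α : Type} [DecidableEq α]

/-- **The base of the induction**: the quadratic part. -/
theorem base_two [Fintype α] {B : ℝ} {V : Finset α} {b : Finset α → ℝ} {d : ℕ}
    (hd : ∀ T : Finset α, d < T.card → b T = 0) (hb : ∀ e : α → Bool, |poly V b e| ≤ B) :
    NN V 2 (fun S => b S ^ 2) ≤ 20000 * (d : ℝ) ^ 8 * B ^ 2 := by
  have hB0 : 0 ≤ B := (abs_nonneg _).trans (hb (fun _ => true))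
  set Q : ℝ := 2 * (d : ℝ) ^ 4 * B with hQ
  have hQ0 : 0 ≤ Q := by positivity
  set b2 : Finset α → ℝ := fun T => if T.card = 2 then b T else 0 with hb2
  -- the quadratic part is bounded
  have h1 : ∀ e : α → Bool, |poly V b2 e| ≤ Q := by
    intro e
    have h2 := level_two (V := V) hd hb e
    have h3 : poly V b2 e = ∑ T ∈ V.powersetCard 2, b T * chi e T := by
      unfold poly
      rw [powersetCard_eq_filter, sum_filter]
      apply sum_congr rfl
      intro T _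
      rw [hb2]
      simp only
      split_ifs <;> simp
    rw [h3]
    exact h2
  set a : Finset α → ℝ := fun S => b2 S ^ 2 with ha
  have ha0 : ∀ S, 0 ≤ a S := fun S => sq_nonneg _
  set Ω : ℝ := (Fintype.card (α → Bool) : ℝ) with hΩ
  have hΩ0 : 0 < Ω := by rw [hΩ]; exact_mod_cast Fintype.card_pos
  -- bilinear decoupling and Khinchine
  have h2 : ∀ A ∈ V.powerset, ∑ T ∈ A.powersetCard 1,
      (∑ R ∈ (V \ A).powersetCard 1, a (T ∪ R)) ^ (1 / 2 : ℝ) ≤ 24 * Q := by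
    intro A hA
    rw [mem_powerset] at hA
    have h3 : ∀ e : α → Bool, ∑ T ∈ A.powersetCard 1, |rst V A b2 e T| ≤ 8 * Q := by
      intro e
      have h4 := level_one (V := A) (b := rst V A b2 e) (d := 2) (B := Q) (by
        intro T hT
        unfold rst poly
        apply sum_eq_zero
        intro R _
        have : (T ∪ R).card ≠ 2 := by
          have := card_le_card (subset_union_left : T ⊆ T ∪ R)
          omega
        rw [hb2]
        simp only [if_neg this, zero_mul]) (by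
        intro e'
        rw [poly_rst hA]
        exact h1 _)
      norm_num at h4
      linarith
    have h4 : ∀ T ∈ A.powersetCard 1, Ω * (∑ R ∈ (V \ A).powersetCard 1, a (T ∪ R)) ^ (1 / 2 : ℝ) ≤
        3 * ∑ e : α → Bool, |rst V A b2 e T| := by
      intro T hT
      rw [mem_powersetCard] at hT
      have h5 := khinchine (V \ A) (fun R => b2 (T ∪ R)) (by
        intro R hR hR1
        rw [mem_powerset] at hR
        have hdis : Disjoint T R := by
          rw [disjoint_left]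
          intro k hk hk'
          exact (mem_sdiff.1 (hR hk')).2 (hT.1 hk)
        have : (T ∪ R).card ≠ 2 := by
          rw [card_union_of_disjoint hdis, hT.2]; omega
        rw [hb2]
        simp only [if_neg this])
      exact h5
    have h5 : Ω * ∑ T ∈ A.powersetCard 1,
        (∑ R ∈ (V \ A).powersetCard 1, a (T ∪ R)) ^ (1 / 2 : ℝ) ≤ Ω * (24 * Q) := by
      rw [mul_sum]
      refine (sum_le_sum h4).trans ?_
      rw [← mul_sum, sum_comm]
      calc 3 * ∑ e : α → Bool, ∑ T ∈ A.powersetCard 1, |rst V A b2 e T| ≤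
          3 * ∑ _e : α → Bool, 8 * Q :=
            mul_le_mul_of_nonneg_left (sum_le_sum fun e _ => h3 e) (by norm_num)
        _ = _ := by rw [sum_const, card_univ, nsmul_eq_mul, ← hΩ]; ring
    exact le_of_mul_le_mul_left h5 hΩ0
  -- average over A
  have h3 : ∑ T ∈ V.powersetCard 1, EE V 1 a T ^ (1 / 2 : ℝ) ≤ 96 * Q := by
    have h4 : (2 : ℝ) ^ V.card * ∑ T ∈ V.powersetCard 1, EE V 1 a T ^ (1 / 2 : ℝ) ≤
        (2 : ℝ) ^ V.card * (96 * Q) := by
      rw [mul_sum]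
      have h5 : ∀ T ∈ V.powersetCard 1, (2 : ℝ) ^ V.card * EE V 1 a T ^ (1 / 2 : ℝ) ≤
          4 * ∑ A ∈ V.powerset with T ⊆ A,
            (∑ R ∈ (V \ A).powersetCard 1, a (T ∪ R)) ^ (1 / 2 : ℝ) := by
        intro T hT
        rw [mem_powersetCard] at hT
        have := sampling V ha0 1 (θ := 1 / 2) (by norm_num) (by norm_num) hT.1
        rw [hT.2] at this
        norm_num at this ⊢
        exact this
      refine (sum_le_sum h5).trans ?_
      rw [← mul_sum]
      have h6 : ∑ T ∈ V.powersetCard 1, ∑ A ∈ V.powerset with T ⊆ A,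
          (∑ R ∈ (V \ A).powersetCard 1, a (T ∪ R)) ^ (1 / 2 : ℝ) =
          ∑ A ∈ V.powerset, ∑ T ∈ A.powersetCard 1,
            (∑ R ∈ (V \ A).powersetCard 1, a (T ∪ R)) ^ (1 / 2 : ℝ) := by
        apply sum_comm'
        intro T A
        simp only [mem_powerset, mem_powersetCard, mem_filter]
        constructor
        · rintro ⟨⟨h1, h2⟩, h3, h4⟩
          exact ⟨⟨h4, h2⟩, h3⟩
        · rintro ⟨⟨h1, h2⟩, h3⟩
          exact ⟨⟨h1.trans h3, h2⟩, h3, h1⟩
      rw [h6]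
      calc 4 * ∑ A ∈ V.powerset, ∑ T ∈ A.powersetCard 1,
            (∑ R ∈ (V \ A).powersetCard 1, a (T ∪ R)) ^ (1 / 2 : ℝ) ≤
            4 * ∑ _A ∈ V.powerset, 24 * Q :=
            mul_le_mul_of_nonneg_left (sum_le_sum h2) (by norm_num)
        _ = _ := by rw [sum_const, card_powerset, nsmul_eq_mul]; push_cast; ring
    exact le_of_mul_le_mul_left h4 (by positivity)
  -- Blei
  have h4 := blei_iter V ha0 1 1 le_rfl
  have hth1 : th 1 = 1 / 2 := by unfold th; norm_num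
  have h5 : NN V 1 (EE V 1 a) ≤ (96 * Q) ^ 2 := by
    unfold NN
    rw [hth1]
    have e : (1 : ℝ) / (1 / 2) = ((2 : ℕ) : ℝ) := by norm_num
    rw [e, Real.rpow_natCast]
    exact pow_le_pow_left₀ (sum_nonneg fun T _ => Real.rpow_nonneg (EE_nonneg V 1 ha0 T) _) h3 2
  have h6 : NN V 2 (fun S => b S ^ 2) = NN V 2 a := by
    unfold NN
    congr 1
    apply sum_congr rfl
    intro T hT
    rw [mem_powersetCard] at hT
    rw [ha, hb2]
    simp only [if_pos hT.2]
  rw [h6]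
  have h7 : ((1 + 1).choose 1 : ℝ) = 2 := by norm_num
  rw [h7] at h4
  have h8 : NN V (1 + 1) a = NN V 2 a := rfl
  rw [h8] at h4
  have h9 : (96 * Q) ^ 2 = 36864 * ((d : ℝ) ^ 8 * B ^ 2) := by rw [hQ]; ring
  have h10 : 0 ≤ (d : ℝ) ^ 8 * B ^ 2 := by positivity
  have h11 : 20000 * (d : ℝ) ^ 8 * B ^ 2 = 20000 * ((d : ℝ) ^ 8 * B ^ 2) := by ring
  rw [h11]
  linarith

/-- the exponent -/
theorem exists_exp : ∃ C : ℕ, (3 / 4 : ℝ) ^ C ≤ c0 := by
  obtain ⟨C, hC⟩ := exists_pow_lt_of_lt_one c0_pos (by norm_num : (3 / 4 : ℝ) < 1)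
  exact ⟨C, hC.le⟩

/-- **Main theorem.** -/
theorem main_bound [Fintype α] {C : ℕ} (hC : (3 / 4 : ℝ) ^ C ≤ c0) {B : ℝ} {d : ℕ} :
    ∀ (D : ℕ), 2 ≤ D → ∀ (V : Finset α) (b : Finset α → ℝ),
    (∀ T : Finset α, d < T.card → b T = 0) → (∀ e : α → Bool, |poly V b e| ≤ B) →
    GG V D (fun S => b S ^ 2) ≤ 20000 * (d : ℝ) ^ 8 * B ^ 2 * (D : ℝ) ^ C := by
  intro D
  induction D using Nat.strong_induction_on with
  | _ D ih =>
  intro hD V b hd hb
  have hK0 : 0 ≤ 20000 * (d : ℝ) ^ 8 * B ^ 2 := by positivity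
  rcases eq_or_lt_of_le hD with h | h
  · -- D = 2
    rw [← h]
    have h1 : GG V 2 (fun S => b S ^ 2) = NN V 2 (fun S => b S ^ 2) := by
      unfold GG; simp
    rw [h1]
    have h2 : (1 : ℝ) ≤ (((2 : ℕ) : ℝ)) ^ C := by
      apply one_le_pow₀; norm_num
    calc _ ≤ 20000 * (d : ℝ) ^ 8 * B ^ 2 := base_two hd hb
      _ ≤ _ := le_mul_of_one_le_right hK0 h2
  · obtain ⟨A, hA, e, h1⟩ := stage V b (D := D) h
    have h2 := ih (3 * D / 4) (by omega) (by omega) A (rst V A b e) (by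
      intro T hT
      unfold rst poly
      apply sum_eq_zero
      intro R _
      have h3 : d < (T ∪ R).card := lt_of_lt_of_le hT (card_le_card subset_union_left)
      simp only [hd _ h3, zero_mul]) (by
      intro e'
      rw [poly_rst hA]
      exact hb _)
    have h3 : (((3 * D / 4 : ℕ) : ℝ)) ≤ 3 / 4 * (D : ℝ) := by
      have : 4 * (3 * D / 4) ≤ 3 * D := Nat.mul_div_le _ _
      have h4 : (4 : ℝ) * ((3 * D / 4 : ℕ) : ℝ) ≤ 3 * (D : ℝ) := by exact_mod_cast this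
      linarith
    have h4 : (((3 * D / 4 : ℕ) : ℝ)) ^ C ≤ c0 * (D : ℝ) ^ C := by
      calc (((3 * D / 4 : ℕ) : ℝ)) ^ C ≤ (3 / 4 * (D : ℝ)) ^ C :=
            pow_le_pow_left₀ (Nat.cast_nonneg _) h3 C
        _ = (3 / 4 : ℝ) ^ C * (D : ℝ) ^ C := mul_pow _ _ _
        _ ≤ _ := mul_le_mul_of_nonneg_right hC (by positivity)
    have h5 : c0 * GG V D (fun S => b S ^ 2) ≤ c0 * (20000 * (d : ℝ) ^ 8 * B ^ 2 * (D : ℝ) ^ C) := by
      calc _ ≤ _ := h1
        _ ≤ _ := h2
        _ ≤ 20000 * (d : ℝ) ^ 8 * B ^ 2 * (c0 * (D : ℝ) ^ C) := mul_le_mul_of_nonneg_left h4 hK0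
        _ = _ := by ring
    exact le_of_mul_le_mul_left h5 c0_pos

/-- The bound for a single degree. -/
theorem level_bound [Fintype α] {C : ℕ} (hC : (3 / 4 : ℝ) ^ C ≤ c0) (B : ℝ) (d : ℕ)
    (V : Finset α) (b : Finset α → ℝ)
    (hd : ∀ T : Finset α, d < T.card → b T = 0) (hb : ∀ e : α → Bool, |poly V b e| ≤ B)
    (j : ℕ) (hj : 2 ≤ j) (hjd : j ≤ d) :
    NN V j (fun S => b S ^ 2) ≤ (d : ℝ) ^ (23 + C) * B ^ 2 := by
  have h1 := main_bound (α := α) hC (B := B) (d := d) d (hj.trans hjd) V b hd hb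
  have h2 : NN V j (fun S => b S ^ 2) ≤ GG V d (fun S => b S ^ 2) := by
    unfold GG
    apply single_le_sum (f := fun k => NN V k (fun S => b S ^ 2))
      (fun k _ => NN_nonneg V k (fun S => sq_nonneg _))
    rw [mem_Icc]; exact ⟨hj, hjd⟩
  have h3 : (2 : ℝ) ≤ d := by exact_mod_cast hj.trans hjd
  have h4 : (20000 : ℝ) ≤ (d : ℝ) ^ 15 := by
    calc (20000 : ℝ) ≤ 2 ^ 15 := by norm_num
      _ ≤ _ := pow_le_pow_left₀ (by norm_num) h3 15
  calc _ ≤ _ := h2
    _ ≤ _ := h1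
    _ = 20000 * ((d : ℝ) ^ 8 * B ^ 2 * (d : ℝ) ^ C) := by ring
    _ ≤ (d : ℝ) ^ 15 * ((d : ℝ) ^ 8 * B ^ 2 * (d : ℝ) ^ C) :=
        mul_le_mul_of_nonneg_right h4 (by positivity)
    _ = _ := by ring

end Pool.Agent.H591R3.BH
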