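import Pool.Agent.H591R3.BH7

set_option autoImplicit false

open Finset

namespace Pool.Agent.H591R3.BH

variable {α : Type} [DecidableEq α]

/-- `ℓ^1 ≤ ℓ^r` type inequality. -/
theorem sum_rpow_le_rpow {ι : Type} (s : Finset ι) (y : ι → ℝ) (hy : ∀ i, 0 ≤ y i) {r : ℝ}
    (hr : 1 ≤ r) : ∑ i ∈ s, y i ^ r ≤ (∑ i ∈ s, y i) ^ r := by
  set S := ∑ i ∈ s, y i with hS
  have hS0 : 0 ≤ S := sum_nonneg fun i _ => hy i
  have h1 : ∀ z : ℝ, 0 ≤ z → z ^ r = z * z ^ (r - 1) := by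
    intro z hz
    have : r = 1 + (r - 1) := by ring
    conv_lhs => rw [this]
    rw [Real.rpow_add_of_nonneg hz zero_le_one (by linarith), Real.rpow_one]
  rw [h1 S hS0]
  conv_rhs => rw [hS, sum_mul]
  apply sum_le_sum
  intro i hi
  rw [h1 _ (hy i)]
  apply mul_le_mul_of_nonneg_left _ (hy i)
  exact Real.rpow_le_rpow (hy i) (single_le_sum (fun k _ => hy k) hi) (by linarith)

omit [DecidableEq α] in
/-- the `p`-norm of the degree `j` part -/
theorem NN_eq (V : Finset α) {j : ℕ} (hj : 1 ≤ j) (b : Finset α → ℝ) :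
    ((∑ S ∈ V.powersetCard j, |b S| ^ ((2 * (j : ℝ)) / ((j : ℝ) + 1))) ^
      (((j : ℝ) + 1) / (2 * (j : ℝ)))) ^ 2 = NN V j (fun S => b S ^ 2) := by
  have hj0 : (0 : ℝ) < j := by exact_mod_cast hj
  have h1 : ∀ S : Finset α, |b S| ^ ((2 * (j : ℝ)) / ((j : ℝ) + 1)) = (b S ^ 2) ^ th j := by
    intro S
    rw [← sq_abs, ← Real.rpow_natCast, ← Real.rpow_mul (abs_nonneg _)]
    congr 1
    unfold th; push_cast; ring
  have h2 : 0 ≤ ∑ S ∈ V.powersetCard j, (b S ^ 2) ^ th j :=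
    sum_nonneg fun S _ => Real.rpow_nonneg (sq_nonneg _) _
  simp only [h1]
  unfold NN
  rw [← Real.rpow_natCast, ← Real.rpow_mul h2]
  congr 1
  unfold th; push_cast; field_simp

/-- the `p`-norm of the degree `j` part of a bounded polynomial -/
theorem level_bound' [Fintype α] {C : ℕ} (hC : (3 / 4 : ℝ) ^ C ≤ c0) {B : ℝ} {d : ℕ}
    {V : Finset α} {b : Finset α → ℝ}
    (hd : ∀ T : Finset α, d < T.card → b T = 0) (hb : ∀ e : α → Bool, |poly V b e| ≤ B)
    {j : ℕ} (hj : 2 ≤ j) (hjd : j ≤ d) :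
    (∑ S ∈ V.powersetCard j, |b S| ^ ((2 * (j : ℝ)) / ((j : ℝ) + 1))) ^
      (((j : ℝ) + 1) / (2 * (j : ℝ))) ≤ (d : ℝ) ^ (23 + C) * B := by
  have hB0 : 0 ≤ B := (abs_nonneg _).trans (hb (fun _ => true))
  have h1 := level_bound hC B d V b hd hb j hj hjd
  rw [← NN_eq V (by omega : 1 ≤ j)] at h1
  have hd1 : (1 : ℝ) ≤ d := by
    have : 1 ≤ d := by omega
    exact_mod_cast this
  apply le_of_sq_le_sq _ (by positivity)
  refine h1.trans ?_
  rw [mul_pow]
  apply mul_le_mul_of_nonneg_right _ (sq_nonneg B)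
  have : (1 : ℝ) ≤ (d : ℝ) ^ (23 + C) := one_le_pow₀ hd1
  nlinarith

/-- the homogeneous inequality, degree at least two -/
theorem hom_bound [Fintype α] {C : ℕ} (hC : (3 / 4 : ℝ) ^ C ≤ c0) {B : ℝ} {d : ℕ} (hd2 : 2 ≤ d)
    {V : Finset α} {b : Finset α → ℝ}
    (hb : ∀ e : α → Bool, |∑ S ∈ V.powersetCard d, b S * chi e S| ≤ B) :
    (∑ S ∈ V.powersetCard d, |b S| ^ ((2 * (d : ℝ)) / ((d : ℝ) + 1))) ^
      (((d : ℝ) + 1) / (2 * (d : ℝ))) ≤ (d : ℝ) ^ (23 + C) * B := by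
  have h1 : ∀ e : α → Bool, poly V (fun S => if S.card = d then b S else 0) e =
      ∑ S ∈ V.powersetCard d, b S * chi e S := by
    intro e
    unfold poly
    rw [powersetCard_eq_filter, sum_filter]
    apply sum_congr rfl
    intro S _
    by_cases h : S.card = d
    · simp only [if_pos h]
    · simp only [if_neg h, zero_mul]
  have h2 := level_bound' hC (B := B) (d := d) (V := V)
    (b := fun S => if S.card = d then b S else 0) (by
      intro T hT
      simp only [if_neg hT.ne']) (by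
      intro e; rw [h1]; exact hb e) hd2 le_rfl
  have h3 : ∑ S ∈ V.powersetCard d, |b S| ^ ((2 * (d : ℝ)) / ((d : ℝ) + 1)) =
      ∑ S ∈ V.powersetCard d, |(fun S => if S.card = d then b S else 0) S| ^
        ((2 * (d : ℝ)) / ((d : ℝ) + 1)) := by
    apply sum_congr rfl
    intro S hS
    simp only [if_pos (mem_powersetCard.1 hS).2]
  rw [h3]
  exact h2

omit [DecidableEq α] in
/-- a sign vector that aligns all singletons -/
theorem exists_align (s0 : ℝ) (b : α → ℝ) : ∃ e : α → Bool, ∀ i,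
    (if 0 ≤ s0 then (1:ℝ) else -1) * (b i * sg (e i)) = |b i| := by
  refine ⟨fun i => if 0 ≤ s0 then decide (0 ≤ b i) else decide (b i ≤ 0), fun i => ?_⟩
  by_cases h : 0 ≤ s0
  · simp only [if_pos h, one_mul]
    by_cases h2 : 0 ≤ b i
    · simp [h2, sg, abs_of_nonneg h2]
    · simp [h2, sg, abs_of_neg (not_le.1 h2)]
  · simp only [if_neg h]
    by_cases h2 : b i ≤ 0
    · simp [h2, sg, abs_of_nonpos h2]
    · simp [h2, sg, abs_of_pos (not_le.1 h2)]

/-- sign vectors and Boolean vectors -/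
theorem sg_or (b : Bool) : sg b = 1 ∨ sg b = -1 := by cases b <;> simp [sg]

/-- the homogeneous inequality in all degrees, with the point at which the maximum is attained -/
theorem hom_all {C : ℕ} (hC : (3 / 4 : ℝ) ^ C ≤ c0) {d n : ℕ} (hd : 1 ≤ d)
    (a : Finset (Fin n) → ℝ) :
    ∃ e : Fin n → Bool, (∑ S ∈ (univ : Finset (Fin n)).powersetCard d,
            |a S| ^ ((2 * (d : ℝ)) / ((d : ℝ) + 1))) ^ (((d : ℝ) + 1) / (2 * (d : ℝ)))
          ≤ (d : ℝ) ^ (23 + C) *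
            |∑ S ∈ (univ : Finset (Fin n)).powersetCard d, a S * chi e S| := by
  obtain ⟨e, he⟩ := Finite.exists_max (fun e : Fin n → Bool =>
    |∑ S ∈ (univ : Finset (Fin n)).powersetCard d, a S * chi e S|)
  rcases eq_or_lt_of_le hd with h | h
  · -- degree one
    obtain ⟨e', he'⟩ := exists_align (1 : ℝ) (fun i : Fin n => a {i})
    refine ⟨e', ?_⟩
    rw [← h]
    have e1 : (2 * ((1 : ℕ) : ℝ)) / (((1 : ℕ) : ℝ) + 1) = 1 := by norm_num
    have e2 : (((1 : ℕ) : ℝ) + 1) / (2 * ((1 : ℕ) : ℝ)) = 1 := by norm_num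
    rw [e1, e2]
    simp only [Real.rpow_one, Nat.cast_one, one_pow, one_mul]
    refine le_trans (le_of_eq ?_) (le_abs_self _)
    apply sum_congr rfl
    intro T hT
    obtain ⟨i, rfl⟩ := card_eq_one.1 (mem_powersetCard.1 hT).2
    have := he' i
    simp only [zero_le_one, if_true, one_mul] at this
    rw [← this]
    unfold chi
    rw [prod_singleton]
  · exact ⟨e, hom_bound hC h he⟩

end Pool.Agent.H591R3.BH
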