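import Pool.Agent.H591R3.BH8

set_option autoImplicit false

open Finset

namespace Pool.Agent.H591R3.BH

variable {α : Type} [DecidableEq α]

/-! ### polynomials of degree at most `d` -/

theorem coeff_empty_le [Fintype α] {B : ℝ} {V : Finset α} {b : Finset α → ℝ}
    (hb : ∀ e : α → Bool, |poly V b e| ≤ B) : |b ∅| ≤ B := by
  have h1 := mpoly_le V b hb (fun _ => 0) (fun i => by simp)
  have h2 : mpoly V b (fun _ => (0 : ℝ)) = b ∅ := by
    unfold mpoly
    rw [sum_eq_single_of_mem ∅ (empty_mem_powerset V)]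
    · simp
    · intro T _ hT
      obtain ⟨i, hi⟩ := nonempty_iff_ne_empty.2 hT
      rw [prod_eq_zero hi rfl, mul_zero]
  rwa [h2] at h1

/-- the degree `≤ d` inequality, `d ≥ 2` -/
theorem deg_bound [Fintype α] {C : ℕ} (hC : (3 / 4 : ℝ) ^ C ≤ c0) {B : ℝ} {d : ℕ} (hd2 : 2 ≤ d)
    {V : Finset α} {b : Finset α → ℝ}
    (hd : ∀ T : Finset α, d < T.card → b T = 0) (hb : ∀ e : α → Bool, |poly V b e| ≤ B) :
    (∑ S ∈ V.powerset, |b S| ^ ((2 * (d : ℝ)) / ((d : ℝ) + 1))) ^
      (((d : ℝ) + 1) / (2 * (d : ℝ))) ≤ (d : ℝ) ^ (25 + C) * B := by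
  have hB0 : 0 ≤ B := (abs_nonneg _).trans (hb (fun _ => true))
  have hdR : (2 : ℝ) ≤ d := by exact_mod_cast hd2
  set p : ℝ := (2 * (d : ℝ)) / ((d : ℝ) + 1) with hp
  have hp0 : 0 < p := by rw [hp]; positivity
  have hp1 : 1 ≤ p := by rw [hp, le_div_iff₀ (by positivity)]; linarith
  have hinv : ((d : ℝ) + 1) / (2 * (d : ℝ)) = 1 / p := by rw [hp, one_div_div]
  rw [hinv]
  set E : ℝ := (d : ℝ) ^ (23 + C) * B with hE
  have hE0 : 0 ≤ E := by positivity
  have hone : (1 : ℝ) ≤ (d : ℝ) ^ C := one_le_pow₀ (by linarith)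
  have h23 : (1 : ℝ) ≤ (d : ℝ) ^ (23 + C) := one_le_pow₀ (by linarith)
  -- every level
  have hlev : ∀ j ∈ range (d + 1), ∑ S ∈ V.powersetCard j, |b S| ^ p ≤ E ^ p := by
    intro j hj
    rw [mem_range] at hj
    rcases Nat.lt_or_ge j 2 with h2 | h2
    · -- levels 0 and 1
      have key : ∑ S ∈ V.powersetCard j, |b S| ≤ E := by
        rcases Nat.eq_zero_or_pos j with h0 | h0
        · subst h0
          rw [powersetCard_zero, sum_singleton]
          refine (coeff_empty_le hb).trans ?_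
          rw [hE]
          exact le_mul_of_one_le_left hB0 h23
        · have h1 : j = 1 := by omega
          subst h1
          refine (level_one hd hb).trans ?_
          rw [hE]
          apply mul_le_mul_of_nonneg_right _ hB0
          calc 2 * (d : ℝ) ^ 2 ≤ (d : ℝ) * (d : ℝ) ^ 2 :=
                mul_le_mul_of_nonneg_right hdR (by positivity)
            _ = (d : ℝ) ^ 3 := by ring
            _ ≤ _ := pow_le_pow_right₀ (by linarith) (by omega)
      refine (sum_rpow_le_rpow _ (fun S => |b S|) (fun S => abs_nonneg _) hp1).trans ?_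
      exact Real.rpow_le_rpow (sum_nonneg fun S _ => abs_nonneg _) key hp0.le
    · -- levels at least 2
      have hjd : j ≤ d := by omega
      have h3 := level_bound' hC hd hb h2 hjd
      have hj0 : (0 : ℝ) < j := by
        have : 0 < j := by omega
        exact_mod_cast this
      have hjdR : (j : ℝ) ≤ d := by exact_mod_cast hjd
      set pj : ℝ := (2 * (j : ℝ)) / ((j : ℝ) + 1) with hpj
      have hpj0 : 0 < pj := by rw [hpj]; positivity
      have hinvj : ((j : ℝ) + 1) / (2 * (j : ℝ)) = 1 / pj := by rw [hpj, one_div_div]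
      rw [hinvj] at h3
      have hr : 1 ≤ p / pj := by
        rw [le_div_iff₀ hpj0, one_mul, hp, hpj, div_le_div_iff₀ (by positivity) (by positivity)]
        nlinarith
      have h4 : ∑ S ∈ V.powersetCard j, |b S| ^ p =
          ∑ S ∈ V.powersetCard j, (|b S| ^ pj) ^ (p / pj) := by
        apply sum_congr rfl
        intro S _
        rw [← Real.rpow_mul (abs_nonneg _)]
        congr 1
        field_simp
      rw [h4]
      refine (sum_rpow_le_rpow _ (fun S => |b S| ^ pj)
        (fun S => Real.rpow_nonneg (abs_nonneg _) _) hr).trans ?_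
      have h5 : 0 ≤ ∑ S ∈ V.powersetCard j, |b S| ^ pj :=
        sum_nonneg fun S _ => Real.rpow_nonneg (abs_nonneg _) _
      have h6 : (∑ S ∈ V.powersetCard j, |b S| ^ pj) ^ (p / pj) =
          ((∑ S ∈ V.powersetCard j, |b S| ^ pj) ^ (1 / pj)) ^ p := by
        rw [← Real.rpow_mul h5]; congr 1; ring
      rw [h6]
      exact Real.rpow_le_rpow (Real.rpow_nonneg h5 _) h3 hp0.le
  have h1 : ∑ S ∈ V.powerset, |b S| ^ p = ∑ j ∈ range (d + 1), ∑ S ∈ V.powersetCard j, |b S| ^ p := by
    have h2 : ∀ r ∈ range (d + 1), ∑ R ∈ V.powersetCard r, |b R| ^ p =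
        ∑ R ∈ V.powerset, if R.card = r then |b R| ^ p else 0 := by
      intro r _
      rw [powersetCard_eq_filter, sum_filter]
    rw [sum_congr rfl h2, sum_comm]
    apply sum_congr rfl
    intro R _
    rw [sum_ite_eq]
    split_ifs with h
    · rfl
    · rw [mem_range] at h
      rw [hd R (by omega), abs_zero, Real.zero_rpow hp0.ne']
  have h2 : ∑ S ∈ V.powerset, |b S| ^ p ≤ ((d : ℝ) + 1) * E ^ p := by
    rw [h1]
    refine (sum_le_sum hlev).trans ?_
    rw [sum_const, card_range, nsmul_eq_mul]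
    push_cast; exact le_rfl
  have h3 : 0 ≤ ∑ S ∈ V.powerset, |b S| ^ p :=
    sum_nonneg fun S _ => Real.rpow_nonneg (abs_nonneg _) _
  calc (∑ S ∈ V.powerset, |b S| ^ p) ^ (1 / p) ≤ (((d : ℝ) + 1) * E ^ p) ^ (1 / p) :=
        Real.rpow_le_rpow h3 h2 (by positivity)
    _ = ((d : ℝ) + 1) ^ (1 / p) * E := by
        rw [Real.mul_rpow (by positivity) (Real.rpow_nonneg hE0 _), ← Real.rpow_mul hE0,
          mul_one_div_cancel hp0.ne', Real.rpow_one]
    _ ≤ ((d : ℝ) + 1) * E := by
        apply mul_le_mul_of_nonneg_right _ hE0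
        calc ((d : ℝ) + 1) ^ (1 / p) ≤ ((d : ℝ) + 1) ^ (1 : ℝ) := by
              apply Real.rpow_le_rpow_of_exponent_le (by linarith)
              rw [div_le_iff₀ hp0]; linarith
          _ = _ := Real.rpow_one _
    _ ≤ (d : ℝ) ^ 2 * E := by
        apply mul_le_mul_of_nonneg_right _ hE0
        nlinarith
    _ = _ := by rw [hE]; ring

/-- the degree-one case, with constant one -/
theorem deg_one [Fintype α] {B : ℝ} {V : Finset α} {b : Finset α → ℝ}
    (hd : ∀ T : Finset α, 1 < T.card → b T = 0) (hb : ∀ e : α → Bool, |poly V b e| ≤ B) :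
    ∑ S ∈ V.powerset, |b S| ≤ B := by
  obtain ⟨e, he⟩ := exists_align (b ∅) (fun i => b {i})
  have h1 := hb e
  set s : ℝ := if 0 ≤ b ∅ then (1 : ℝ) else -1 with hs
  have hs1 : |s| = 1 := by rw [hs]; split_ifs <;> simp
  have h2 : s * poly V b e = ∑ S ∈ V.powerset, |b S| := by
    unfold poly
    rw [mul_sum]
    apply sum_congr rfl
    intro S _
    rcases Nat.lt_or_ge 1 S.card with h | h
    · rw [hd S h]; simp
    · rcases Nat.eq_zero_or_pos S.card with h0 | h0
      · rw [card_eq_zero] at h0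
        subst h0
        unfold chi
        rw [prod_empty, mul_one, hs]
        split_ifs with h3
        · rw [abs_of_nonneg h3, one_mul]
        · rw [abs_of_neg (not_le.1 h3)]; ring
      · obtain ⟨i, rfl⟩ := card_eq_one.1 (by omega : S.card = 1)
        unfold chi
        rw [prod_singleton]
        exact he i
  rw [← h2]
  calc s * poly V b e ≤ |s * poly V b e| := le_abs_self _
    _ = |poly V b e| := by rw [abs_mul, hs1, one_mul]
    _ ≤ B := h1

/-- the degree `≤ d` inequality for all `d ≥ 1` -/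
theorem deg_all [Fintype α] {C : ℕ} (hC : (3 / 4 : ℝ) ^ C ≤ c0) {B : ℝ} {d : ℕ} (hd1 : 1 ≤ d)
    {V : Finset α} {b : Finset α → ℝ}
    (hd : ∀ T : Finset α, d < T.card → b T = 0) (hb : ∀ e : α → Bool, |poly V b e| ≤ B) :
    (∑ S ∈ V.powerset, |b S| ^ ((2 * (d : ℝ)) / ((d : ℝ) + 1))) ^
      (((d : ℝ) + 1) / (2 * (d : ℝ))) ≤ (d : ℝ) ^ (25 + C) * B := by
  rcases eq_or_lt_of_le hd1 with h | h
  · subst h
    have e1 : (2 * ((1 : ℕ) : ℝ)) / (((1 : ℕ) : ℝ) + 1) = 1 := by norm_num
    have e2 : (((1 : ℕ) : ℝ) + 1) / (2 * ((1 : ℕ) : ℝ)) = 1 := by norm_num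
    rw [e1, e2]
    simp only [Real.rpow_one, Nat.cast_one, one_pow, one_mul]
    exact deg_one hd hb
  · exact deg_bound hC h hd hb

/-! ### unimodular coefficients -/

/-- lower bound for the binomial coefficient -/
theorem choose_lower : ∀ (d n : ℕ), 1 ≤ d → d ≤ n → ((n : ℝ) / d) ^ d ≤ (n.choose d : ℝ) := by
  intro d
  induction d with
  | zero => intro n h; omega
  | succ d ih =>
    intro n _ hn
    obtain ⟨m, rfl⟩ : ∃ m, n = m + 1 := ⟨n - 1, by omega⟩
    rcases Nat.eq_zero_or_pos d with h0 | h0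
    · subst h0; simp
    · have h1 := ih m h0 (by omega)
      have h2 : ((m + 1).choose (d + 1) : ℝ) * ((d : ℝ) + 1) = ((m : ℝ) + 1) * (m.choose d : ℝ) := by
        have := Nat.add_one_mul_choose_eq m d
        have h3 : (((m + 1) * m.choose d : ℕ) : ℝ) = (((m + 1).choose (d + 1) * (d + 1) : ℕ) : ℝ) := by
          rw [this]
        push_cast at h3
        linarith
      have hd0 : (0 : ℝ) < d := by exact_mod_cast h0
      have hdm : (d : ℝ) ≤ m := by exact_mod_cast (by omega : d ≤ m)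
      have h3 : ((m : ℝ) + 1) / ((d : ℝ) + 1) ≤ (m : ℝ) / d := by
        rw [div_le_div_iff₀ (by positivity) hd0]; nlinarith
      have h4 : (((m : ℝ) + 1) / ((d : ℝ) + 1)) ^ d ≤ (m.choose d : ℝ) :=
        (pow_le_pow_left₀ (by positivity) h3 d).trans h1
      have h5 : ((m + 1).choose (d + 1) : ℝ) = ((m : ℝ) + 1) / ((d : ℝ) + 1) * (m.choose d : ℝ) := by
        field_simp; linarith
      rw [h5]
      push_cast
      rw [pow_succ, mul_comm]
      exact mul_le_mul_of_nonneg_left h4 (by positivity)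

end Pool.Agent.H591R3.BH
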