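import Mathlib

set_option autoImplicit false

open MeasureTheory Set Filter Topology Complex
open scoped ENNReal

namespace Pool.Agent.H591R3.FS

/-- the upper half-plane -/
abbrev HH : Set ℂ := {z : ℂ | 0 < z.im}

theorem isOpen_HH : IsOpen HH := isOpen_lt continuous_const Complex.continuous_im

theorem det_smulRight (z : ℂ) :
    |((ContinuousLinearMap.smulRight (1 : ℂ →L[ℂ] ℂ) z).restrictScalars ℝ).det| = ‖z‖ ^ 2 := by
  have h : (((ContinuousLinearMap.smulRight (1 : ℂ →L[ℂ] ℂ) z).restrictScalars ℝ : ℂ →L[ℝ] ℂ) :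
      ℂ →ₗ[ℝ] ℂ) = Algebra.lmul ℝ ℂ z := by
    ext x
    simp [mul_comm]
  have h2 : ((ContinuousLinearMap.smulRight (1 : ℂ →L[ℂ] ℂ) z).restrictScalars ℝ).det =
      Algebra.norm ℝ z := by
    rw [Algebra.norm_apply, ← h]
  rw [h2, Algebra.norm_complex_apply, abs_of_nonneg (Complex.normSq_nonneg z),
    Complex.normSq_eq_norm_sq]

/-- the Dirichlet integral of an injective map of the half-plane into the disc is finite -/
theorem area_bound {f : ℂ → ℂ} (hf : DifferentiableOn ℂ f HH) (hinj : InjOn f HH)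
    (hm : MapsTo f HH (Metric.ball (0 : ℂ) 1)) :
    ∫⁻ z in HH, ENNReal.ofReal (‖deriv f z‖ ^ 2) ≤ volume (Metric.ball (0 : ℂ) 1) := by
  have h1 : ∀ z ∈ HH, HasFDerivWithinAt f
      ((ContinuousLinearMap.smulRight (1 : ℂ →L[ℂ] ℂ) (deriv f z)).restrictScalars ℝ) HH z := by
    intro z hz
    have h2 : HasDerivAt f (deriv f z) z :=
      ((hf z hz).differentiableAt (isOpen_HH.mem_nhds hz)).hasDerivAt
    exact (h2.hasFDerivAt.restrictScalars ℝ).hasFDerivWithinAt
  have h2 := lintegral_abs_det_fderiv_eq_addHaar_image volume isOpen_HH.measurableSet h1 hinj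
  simp only [det_smulRight] at h2
  rw [h2]
  exact measure_mono hm.image_subset

/-- a bounded holomorphic function on the half-plane has `‖f'(z)‖ ≤ 2 / Im z` -/
theorem deriv_bound {f : ℂ → ℂ} (hf : DifferentiableOn ℂ f HH)
    (hm : MapsTo f HH (Metric.ball (0 : ℂ) 1)) {z : ℂ} (hz : 0 < z.im) :
    ‖deriv f z‖ ≤ 2 / z.im := by
  have hR : 0 < z.im / 2 := by linarith
  have hsub : ∀ w ∈ Metric.closedBall z (z.im / 2), 0 < w.im := by
    intro w hw
    have h1 : |(w - z).im| ≤ ‖w - z‖ := Complex.abs_im_le_norm _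
    have h2 : ‖w - z‖ ≤ z.im / 2 := by rwa [← dist_eq_norm, ← Metric.mem_closedBall]
    have h3 := abs_le.1 (h1.trans h2)
    rw [Complex.sub_im] at h3
    linarith [h3.1]
  have hd : DiffContOnCl ℂ f (Metric.ball z (z.im / 2)) := by
    apply DifferentiableOn.diffContOnCl
    rw [closure_ball z hR.ne']
    exact hf.mono hsub
  have h := Complex.norm_deriv_le_of_forall_mem_sphere_norm_le hR hd (C := 1) (fun w hw => by
    have h1 := hm (hsub w (Metric.sphere_subset_closedBall hw))
    rw [mem_ball_zero_iff] at h1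
    exact h1.le)
  calc ‖deriv f z‖ ≤ 1 / (z.im / 2) := h
    _ = 2 / z.im := by field_simp

theorem deriv2_bound {f : ℂ → ℂ} (hf : DifferentiableOn ℂ f HH)
    (hm : MapsTo f HH (Metric.ball (0 : ℂ) 1)) {z : ℂ} (hz : 0 < z.im) :
    ‖deriv (deriv f) z‖ ≤ 8 / z.im ^ 2 := by
  have hR : 0 < z.im / 2 := by linarith
  have hsub : ∀ w ∈ Metric.closedBall z (z.im / 2), z.im / 2 ≤ w.im := by
    intro w hw
    have h1 : |(w - z).im| ≤ ‖w - z‖ := Complex.abs_im_le_norm _
    have h2 : ‖w - z‖ ≤ z.im / 2 := by rwa [← dist_eq_norm, ← Metric.mem_closedBall]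
    have h3 := abs_le.1 (h1.trans h2)
    rw [Complex.sub_im] at h3
    linarith [h3.1]
  have hf' : DifferentiableOn ℂ (deriv f) HH := hf.deriv isOpen_HH
  have hd : DiffContOnCl ℂ (deriv f) (Metric.ball z (z.im / 2)) := by
    apply DifferentiableOn.diffContOnCl
    rw [closure_ball z hR.ne']
    exact hf'.mono (fun w hw => lt_of_lt_of_le hR (hsub w hw))
  have h := Complex.norm_deriv_le_of_forall_mem_sphere_norm_le hR hd (C := 4 / z.im) (fun w hw => by
    have h1 := hsub w (Metric.sphere_subset_closedBall hw)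
    have h2 := deriv_bound hf hm (lt_of_lt_of_le hR h1)
    calc ‖deriv f w‖ ≤ 2 / w.im := h2
      _ ≤ 2 / (z.im / 2) := by
        apply div_le_div_of_nonneg_left (by norm_num) hR h1
      _ = 4 / z.im := by field_simp; norm_num)
  calc ‖deriv (deriv f) z‖ ≤ (4 / z.im) / (z.im / 2) := h
    _ = 8 / z.im ^ 2 := by field_simp; norm_num

/-- if `Im z · ‖f'(z)‖ ≥ η` then the Dirichlet integral near `z` is bounded below -/
theorem dirichlet_lower {f : ℂ → ℂ} (hf : DifferentiableOn ℂ f HH)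
    (hm : MapsTo f HH (Metric.ball (0 : ℂ) 1)) {z : ℂ} (hz : 0 < z.im) {η : ℝ} (hη : 0 < η)
    (hη1 : η ≤ 1) (h : η ≤ z.im * ‖deriv f z‖) :
    ENNReal.ofReal (η ^ 4 / 16384) ≤
      ∫⁻ w in Metric.ball z (z.im / 2), ENNReal.ofReal (‖deriv f w‖ ^ 2) := by
  have hR : 0 < η * z.im / 64 := by positivity
  have hf' : DifferentiableOn ℂ (deriv f) HH := hf.deriv isOpen_HH
  have hsub : ∀ w ∈ Metric.ball z (z.im / 2), z.im / 2 ≤ w.im := by
    intro w hw
    have h1 : |(w - z).im| ≤ ‖w - z‖ := Complex.abs_im_le_norm _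
    have h2 : ‖w - z‖ ≤ z.im / 2 := by rw [← dist_eq_norm]; exact (Metric.mem_ball.1 hw).le
    have h3 := abs_le.1 (h1.trans h2)
    rw [Complex.sub_im] at h3
    linarith [h3.1]
  have hss : Metric.ball z (η * z.im / 64) ⊆ Metric.ball z (z.im / 2) := by
    apply Metric.ball_subset_ball
    nlinarith
  have key : ∀ w ∈ Metric.ball z (η * z.im / 64), η / (2 * z.im) ≤ ‖deriv f w‖ := by
    intro w hw
    have h1 : ‖deriv f w - deriv f z‖ ≤ 32 / z.im ^ 2 * ‖w - z‖ := by
      apply (convex_ball z (z.im / 2)).norm_image_sub_le_of_norm_deriv_le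
        (f := deriv f) (C := 32 / z.im ^ 2)
      · intro x hx
        have := hsub x hx
        exact (hf' x (by show 0 < x.im; linarith)).differentiableAt
          (isOpen_HH.mem_nhds (by show 0 < x.im; linarith))
      · intro x hx
        have h5 := hsub x hx
        have h6 : 0 < x.im := by linarith
        calc ‖deriv (deriv f) x‖ ≤ 8 / x.im ^ 2 := deriv2_bound hf hm h6
          _ ≤ 8 / (z.im / 2) ^ 2 := by
            apply div_le_div_of_nonneg_left (by norm_num) (by positivity)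
            exact pow_le_pow_left₀ (by linarith) h5 2
          _ = 32 / z.im ^ 2 := by field_simp; norm_num
      · exact Metric.mem_ball_self (by linarith)
      · exact hss hw
    have h2 : ‖w - z‖ ≤ η * z.im / 64 := by rw [← dist_eq_norm]; exact (Metric.mem_ball.1 hw).le
    have h3 : 32 / z.im ^ 2 * ‖w - z‖ ≤ η / (2 * z.im) := by
      calc 32 / z.im ^ 2 * ‖w - z‖ ≤ 32 / z.im ^ 2 * (η * z.im / 64) := by
            apply mul_le_mul_of_nonneg_left h2 (by positivity)
        _ = η / (2 * z.im) := by field_simp; norm_num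
    have h4 : η / z.im ≤ ‖deriv f z‖ := by
      rw [div_le_iff₀ hz]; linarith
    have h5 : ‖deriv f z‖ - ‖deriv f w‖ ≤ ‖deriv f w - deriv f z‖ := by
      rw [norm_sub_rev]; exact norm_sub_norm_le _ _
    have h6 : η / z.im = η / (2 * z.im) + η / (2 * z.im) := by field_simp; norm_num
    linarith
  have h1 : ∫⁻ w in Metric.ball z (η * z.im / 64), ENNReal.ofReal ((η / (2 * z.im)) ^ 2) ≤
      ∫⁻ w in Metric.ball z (z.im / 2), ENNReal.ofReal (‖deriv f w‖ ^ 2) := by
    calc ∫⁻ w in Metric.ball z (η * z.im / 64), ENNReal.ofReal ((η / (2 * z.im)) ^ 2) ≤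
        ∫⁻ w in Metric.ball z (η * z.im / 64), ENNReal.ofReal (‖deriv f w‖ ^ 2) := by
          apply setLIntegral_mono' Metric.isOpen_ball.measurableSet
          intro w hw
          apply ENNReal.ofReal_le_ofReal
          exact pow_le_pow_left₀ (by positivity) (key w hw) 2
      _ ≤ _ := lintegral_mono_set hss
  refine le_trans ?_ h1
  rw [setLIntegral_const, Complex.volume_ball]
  rw [← ENNReal.ofReal_pow hR.le, ← mul_assoc, ← ENNReal.ofReal_mul (by positivity)]
  have h2 : (η / (2 * z.im)) ^ 2 * (η * z.im / 64) ^ 2 = η ^ 4 / 16384 := by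
    field_simp; norm_num
  rw [h2]
  have h3 : (1 : ℝ≥0∞) ≤ (NNReal.pi : ℝ≥0∞) := by
    have : (1 : NNReal) ≤ NNReal.pi := by
      rw [← NNReal.coe_le_coe]
      have := Real.pi_gt_three
      simp only [NNReal.coe_one, NNReal.coe_real_pi]
      linarith
    exact_mod_cast this
  calc ENNReal.ofReal (η ^ 4 / 16384) = ENNReal.ofReal (η ^ 4 / 16384) * 1 := (mul_one _).symm
    _ ≤ _ := mul_le_mul' le_rfl h3

end Pool.Agent.H591R3.FS
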