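import Pool.Agent.H591R3.FS1

set_option autoImplicit false

open MeasureTheory Set Filter Topology Complex
open scoped ENNReal

namespace Pool.Agent.H591R3.FS

/-- width function of a fan -/
noncomputable def wd (r : ℝ) (N : ℕ) (y : ℝ) : ℝ := r * y / (r + N * y)

/-- a path of the fan over the point `x0` -/
noncomputable def gam (x0 r : ℝ) (N : ℕ) (t y : ℝ) : ℂ := ((x0 + t * wd r N y : ℝ) : ℂ) + (y : ℂ) * I

theorem gam_im (x0 r : ℝ) (N : ℕ) (t y : ℝ) : (gam x0 r N t y).im = y := by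
  simp [gam]

theorem gam_re (x0 r : ℝ) (N : ℕ) (t y : ℝ) : (gam x0 r N t y).re = x0 + t * wd r N y := by
  simp [gam]

theorem wd_pos {r : ℝ} (hr : 0 < r) (N : ℕ) {y : ℝ} (hy : 0 < y) : 0 < wd r N y := by
  unfold wd; positivity

theorem wd_le {r : ℝ} (hr : 0 < r) (N : ℕ) {y : ℝ} (hy : 0 < y) : wd r N y ≤ y := by
  unfold wd
  have : (0:ℝ) ≤ N := Nat.cast_nonneg N
  rw [div_le_iff₀ (by positivity)]
  nlinarith [mul_nonneg this (mul_nonneg hy.le hy.le)]

theorem wd_lt {r : ℝ} (hr : 0 < r) {N : ℕ} (hN : 0 < N) {y : ℝ} (hy : 0 < y) :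
    wd r N y < r / N := by
  unfold wd
  have : (0:ℝ) < N := Nat.cast_pos.2 hN
  rw [div_lt_div_iff₀ (by positivity) this]
  nlinarith

theorem inv_wd {r : ℝ} (hr : 0 < r) (N : ℕ) {y : ℝ} (hy : 0 < y) :
    (wd r N y)⁻¹ = y⁻¹ + N / r := by
  unfold wd
  field_simp

theorem hasDerivAt_wd {r : ℝ} (hr : 0 < r) (N : ℕ) {y : ℝ} (hy : 0 < y) :
    HasDerivAt (wd r N) (r ^ 2 / (r + N * y) ^ 2) y := by
  have h0 : (r + N * y) ≠ 0 := by positivity
  have h1 : HasDerivAt (fun y : ℝ => r * y) r y := by simpa using (hasDerivAt_id y).const_mul r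
  have h2 : HasDerivAt (fun y : ℝ => r + N * y) N y := by
    simpa using ((hasDerivAt_id y).const_mul (N:ℝ)).const_add r
  have h3 := h1.div h2 h0
  have e : r ^ 2 / (r + N * y) ^ 2 = (r * (r + N * y) - r * y * N) / (r + N * y) ^ 2 := by
    congr 1; ring
  rw [e]
  exact h3

theorem hasDerivAt_gam {x0 r : ℝ} (hr : 0 < r) (N : ℕ) (t : ℝ) {y : ℝ} (hy : 0 < y) :
    HasDerivAt (gam x0 r N t) (((t * (r ^ 2 / (r + N * y) ^ 2) : ℝ) : ℂ) + I) y := by
  have h1 : HasDerivAt (fun y : ℝ => x0 + t * wd r N y) (t * (r ^ 2 / (r + N * y) ^ 2)) y :=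
    ((hasDerivAt_wd hr N hy).const_mul t).const_add x0
  have h2 := h1.ofReal_comp
  have h3 : HasDerivAt (fun y : ℝ => (y : ℂ) * I) I y := by
    simpa using (Complex.ofRealCLM.hasDerivAt (x := y)).mul_const I
  exact h2.add h3

theorem norm_gam' {r : ℝ} (hr : 0 < r) (N : ℕ) {t : ℝ} (ht : t ∈ Icc (0:ℝ) 1) {y : ℝ} (hy : 0 < y) :
    ‖((t * (r ^ 2 / (r + N * y) ^ 2) : ℝ) : ℂ) + I‖ ≤ 2 := by
  have h0 : (0:ℝ) ≤ N := Nat.cast_nonneg N
  have h1 : r ^ 2 / (r + N * y) ^ 2 ≤ 1 := by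
    rw [div_le_one (by positivity)]
    apply pow_le_pow_left₀ hr.le
    nlinarith [mul_nonneg h0 hy.le]
  have h2 : 0 ≤ r ^ 2 / (r + N * y) ^ 2 := by positivity
  calc ‖((t * (r ^ 2 / (r + N * y) ^ 2) : ℝ) : ℂ) + I‖ ≤ ‖((t * (r ^ 2 / (r + N * y) ^ 2) : ℝ) : ℂ)‖ + ‖I‖ :=
        norm_add_le _ _
    _ ≤ 1 + 1 := by
        rw [Complex.norm_I, Complex.norm_real, Real.norm_of_nonneg (mul_nonneg ht.1 h2)]
        have : t * (r ^ 2 / (r + N * y) ^ 2) ≤ 1 * 1 := mul_le_mul ht.2 h1 h2 zero_le_one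
        linarith
    _ = 2 := by norm_num

theorem gam_cont {x0 r : ℝ} (hr : 0 < r) (N : ℕ) (t : ℝ) :
    ContinuousOn (gam x0 r N t) (Ioi 0) := fun y hy =>
  (hasDerivAt_gam hr N t hy).continuousAt.continuousWithinAt

/-- The estimate along one path. -/
theorem path_bound {f : ℂ → ℂ} (hf : DifferentiableOn ℂ f HH) {x0 r y0 δ : ℝ} {N : ℕ}
    (hy0 : 0 < y0) (hr : y0 ≤ r) (hN : 0 < N) (hlog : Real.log (r / y0) ≤ N) (hδ : 0 < δ)
    {t : ℝ} (ht : t ∈ Icc (0:ℝ) 1) :
    ‖f (gam x0 r N t r) - f (gam x0 r N t y0)‖ ≤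
      N / δ * (∫ y in y0..r, wd r N y * ‖deriv f (gam x0 r N t y)‖ ^ 2) + 2 * δ := by
  have hr0 : 0 < r := lt_of_lt_of_le hy0 hr
  have hN' : (0:ℝ) < N := Nat.cast_pos.2 hN
  have hpos : ∀ y ∈ uIcc y0 r, 0 < y := by
    intro y hy
    rw [uIcc_of_le hr] at hy
    exact lt_of_lt_of_le hy0 hy.1
  have hcont_gam : ContinuousOn (gam x0 r N t) (uIcc y0 r) :=
    (gam_cont hr0 N t).mono hpos
  have hmaps : MapsTo (gam x0 r N t) (uIcc y0 r) HH := by
    intro y hy
    show 0 < (gam x0 r N t y).im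
    rw [gam_im]; exact hpos y hy
  have hcd : ContinuousOn (fun y => deriv f (gam x0 r N t y)) (uIcc y0 r) :=
    (hf.deriv isOpen_HH).continuousOn.comp hcont_gam hmaps
  have hcw : ContinuousOn (wd r N) (uIcc y0 r) := fun y hy =>
    (hasDerivAt_wd hr0 N (hpos y hy)).continuousAt.continuousWithinAt
  have hcg' : ContinuousOn (fun y : ℝ => (((t * (r ^ 2 / (r + N * y) ^ 2) : ℝ) : ℂ) + I)) (uIcc y0 r) := by
    apply ContinuousOn.add _ continuousOn_const
    apply Complex.continuous_ofReal.comp_continuousOn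
    apply ContinuousOn.mul continuousOn_const
    apply ContinuousOn.div continuousOn_const (by fun_prop)
    intro y hy
    have := hpos y hy
    positivity
  have hderiv : ∀ y ∈ uIcc y0 r, HasDerivAt (fun y => f (gam x0 r N t y))
      (deriv f (gam x0 r N t y) * (((t * (r ^ 2 / (r + N * y) ^ 2) : ℝ) : ℂ) + I)) y := by
    intro y hy
    have h1 : HasDerivAt f (deriv f (gam x0 r N t y)) (gam x0 r N t y) :=
      ((hf _ (hmaps hy)).differentiableAt (isOpen_HH.mem_nhds (hmaps hy))).hasDerivAt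
    exact h1.comp y (hasDerivAt_gam hr0 N t (hpos y hy))
  have hint : IntervalIntegrable (fun y => deriv f (gam x0 r N t y) *
      (((t * (r ^ 2 / (r + N * y) ^ 2) : ℝ) : ℂ) + I)) volume y0 r :=
    (hcd.mul hcg').intervalIntegrable
  have h1 := intervalIntegral.integral_eq_sub_of_hasDerivAt hderiv hint
  rw [← h1]
  have hint2 : IntervalIntegrable (fun y => wd r N y * ‖deriv f (gam x0 r N t y)‖ ^ 2) volume y0 r :=
    (hcw.mul (hcd.norm.pow 2)).intervalIntegrable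
  have hci : ContinuousOn (fun y : ℝ => y⁻¹ + N / r) (uIcc y0 r) := by
    apply ContinuousOn.add _ continuousOn_const
    exact continuousOn_inv₀.mono (fun y hy => (hpos y hy).ne')
  have hint3 : IntervalIntegrable (fun y : ℝ => δ / N * (y⁻¹ + N / r)) volume y0 r :=
    (continuousOn_const.mul hci).intervalIntegrable
  have h2 : ‖∫ y in y0..r, deriv f (gam x0 r N t y) * (((t * (r ^ 2 / (r + N * y) ^ 2) : ℝ) : ℂ) + I)‖ ≤
      ∫ y in y0..r, (N / δ * (wd r N y * ‖deriv f (gam x0 r N t y)‖ ^ 2) + δ / N * (y⁻¹ + N / r)) := by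
    apply intervalIntegral.norm_integral_le_of_norm_le hr
    · refine Eventually.of_forall (fun y hy => ?_)
      have hy' : y ∈ uIcc y0 r := by rw [uIcc_of_le hr]; exact Ioc_subset_Icc_self hy
      have hyp := hpos y hy'
      have hw := wd_pos hr0 N hyp
      rw [norm_mul, ← inv_wd hr0 N hyp]
      have h3 := norm_gam' hr0 N ht hyp
      have h4 : ‖deriv f (gam x0 r N t y)‖ * ‖((t * (r ^ 2 / (r + N * y) ^ 2) : ℝ) : ℂ) + I‖ ≤
          ‖deriv f (gam x0 r N t y)‖ * 2 := mul_le_mul_of_nonneg_left h3 (norm_nonneg _)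
      refine h4.trans ?_
      set F := ‖deriv f (gam x0 r N t y)‖
      set w := wd r N y
      have h5 : N / δ * (w * F ^ 2) + δ / N * w⁻¹ - F * 2 = (N * w * F - δ) ^ 2 / (δ * N * w) := by
        field_simp
        ring
      have h6 : 0 ≤ (N * w * F - δ) ^ 2 / (δ * N * w) := by positivity
      linarith
    · exact (hint2.const_mul _).add hint3
  refine h2.trans ?_
  rw [intervalIntegral.integral_add (hint2.const_mul _) hint3]
  rw [intervalIntegral.integral_const_mul, intervalIntegral.integral_const_mul]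
  have h3 : ∫ y in y0..r, (y⁻¹ + N / r) ≤ 2 * N := by
    rw [intervalIntegral.integral_add]
    · rw [integral_inv_of_pos hy0 hr0, intervalIntegral.integral_const, smul_eq_mul]
      have : (r - y0) * (N / r) ≤ N := by
        rw [mul_div_assoc', div_le_iff₀ hr0]
        nlinarith [mul_pos hN' hy0]
      linarith
    · exact (continuousOn_inv₀.mono (fun y hy => (hpos y hy).ne')).intervalIntegrable
    · exact intervalIntegrable_const
  have h4 : δ / N * ∫ y in y0..r, (y⁻¹ + N / r) ≤ 2 * δ := by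
    calc δ / N * ∫ y in y0..r, (y⁻¹ + N / r) ≤ δ / N * (2 * N) :=
          mul_le_mul_of_nonneg_left h3 (by positivity)
      _ = 2 * δ := by field_simp
  linarith

end Pool.Agent.H591R3.FS
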