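import Pool.Agent.H591R3.FS2

set_option autoImplicit false

open MeasureTheory Set Filter Topology Complex
open scoped ENNReal

namespace Pool.Agent.H591R3.FS

theorem rect_lintegral {g : ℂ → ℝ≥0∞} (hg : Measurable g) {s t : Set ℝ} (hs : MeasurableSet s)
    (ht : MeasurableSet t) :
    ∫⁻ z in {z : ℂ | z.re ∈ s ∧ z.im ∈ t}, g z = ∫⁻ y in t, ∫⁻ x in s, g ((x : ℂ) + y * I) := by
  have h1 : {z : ℂ | z.re ∈ s ∧ z.im ∈ t} = measurableEquivRealProd ⁻¹' (s ×ˢ t) := by
    ext z; rfl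
  have h3 : ∫⁻ z in measurableEquivRealProd ⁻¹' (s ×ˢ t), g z =
      ∫⁻ p in s ×ˢ t, g (measurableEquivRealProd.symm p) := by
    have h4 := Complex.volume_preserving_equiv_real_prod.setLIntegral_comp_preimage_emb
      measurableEquivRealProd.measurableEmbedding
      (fun p => g (measurableEquivRealProd.symm p)) (s ×ˢ t)
    simpa only [MeasurableEquiv.symm_apply_apply] using h4
  rw [h1, h3, Measure.volume_eq_prod, ← Measure.prod_restrict]
  rw [lintegral_prod_symm]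
  · apply lintegral_congr
    intro y
    apply lintegral_congr
    intro x
    congr 1
    apply Complex.ext <;> simp [measurableEquivRealProd]
  · exact (hg.comp measurableEquivRealProd.symm.measurable).aemeasurable

theorem wd_measurable (r : ℝ) (N : ℕ) : Measurable (wd r N) := by
  unfold wd; fun_prop

theorem gam_measurable (x0 r : ℝ) (N : ℕ) : Measurable (fun p : ℝ × ℝ => gam x0 r N p.1 p.2) := by
  unfold gam
  have := wd_measurable r N
  fun_prop

/-- averaging over the fan -/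
theorem fan_tonelli {f : ℂ → ℂ} {x0 r y0 : ℝ} {N : ℕ} (hy0 : 0 < y0) (hr : 0 < r) (hN : 0 < N) :
    ∫⁻ t in Icc (0:ℝ) 1, ∫⁻ y in Ioc y0 r,
        ENNReal.ofReal (wd r N y * ‖deriv f (gam x0 r N t y)‖ ^ 2) ≤
      ∫⁻ z in {z : ℂ | z.re ∈ Ico x0 (x0 + r / N) ∧ z.im ∈ Ioc y0 r},
        ENNReal.ofReal (‖deriv f z‖ ^ 2) := by
  have hmd : Measurable (fun z : ℂ => ENNReal.ofReal (‖deriv f z‖ ^ 2)) := by
    have := measurable_deriv f
    fun_prop
  have hm2 : Measurable (fun p : ℝ × ℝ => ENNReal.ofReal (wd r N p.2 *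
      ‖deriv f (gam x0 r N p.1 p.2)‖ ^ 2)) := by
    have h1 := (measurable_deriv f).comp (gam_measurable x0 r N)
    have h2 : Measurable (fun p : ℝ × ℝ => wd r N p.2) := (wd_measurable r N).comp measurable_snd
    exact (h2.mul (h1.norm.pow_const 2)).ennreal_ofReal
  rw [rect_lintegral hmd measurableSet_Ico measurableSet_Ioc, lintegral_lintegral_swap
    (f := fun t y => ENNReal.ofReal (wd r N y * ‖deriv f (gam x0 r N t y)‖ ^ 2)) hm2.aemeasurable]
  apply setLIntegral_mono' measurableSet_Ioc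
  intro y hy
  have hyp : 0 < y := lt_trans hy0 hy.1
  have hw := wd_pos hr N hyp
  have h1 : ∫⁻ x in (fun t : ℝ => x0 + t * wd r N y) '' Icc (0:ℝ) 1,
      ENNReal.ofReal (‖deriv f ((x : ℂ) + y * I)‖ ^ 2) =
      ∫⁻ t in Icc (0:ℝ) 1, ENNReal.ofReal |wd r N y| *
        ENNReal.ofReal (‖deriv f (((x0 + t * wd r N y : ℝ) : ℂ) + y * I)‖ ^ 2) := by
    apply lintegral_image_eq_lintegral_abs_deriv_mul measurableSet_Icc
      (f := fun t : ℝ => x0 + t * wd r N y) (f' := fun _ => wd r N y)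
      (g := fun x : ℝ => ENNReal.ofReal (‖deriv f ((x : ℂ) + y * I)‖ ^ 2))
    · intro t _
      have := ((hasDerivAt_id t).mul_const (wd r N y)).const_add x0
      simpa using this.hasDerivWithinAt
    · intro a _ b _ hab
      have h2 : a * wd r N y = b * wd r N y := by simpa using hab
      exact mul_right_cancel₀ hw.ne' h2
  have h2 : ∫⁻ t in Icc (0:ℝ) 1, ENNReal.ofReal (wd r N y * ‖deriv f (gam x0 r N t y)‖ ^ 2) =
      ∫⁻ t in Icc (0:ℝ) 1, ENNReal.ofReal |wd r N y| *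
        ENNReal.ofReal (‖deriv f (((x0 + t * wd r N y : ℝ) : ℂ) + y * I)‖ ^ 2) := by
    apply lintegral_congr
    intro t
    rw [abs_of_pos hw, ← ENNReal.ofReal_mul hw.le]
    rfl
  rw [h2, ← h1]
  apply lintegral_mono_set
  rintro x ⟨t, ht, rfl⟩
  have h3 := wd_lt hr hN hyp
  refine ⟨?_, ?_⟩
  · show x0 ≤ x0 + t * wd r N y
    have := mul_nonneg ht.1 hw.le
    linarith
  · show x0 + t * wd r N y < x0 + r / N
    have : t * wd r N y ≤ 1 * wd r N y := mul_le_mul_of_nonneg_right ht.2 hw.le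
    linarith

/-- the existence of a good path in the fan over `x0` -/
theorem fan_exists {f : ℂ → ℂ} (hf : DifferentiableOn ℂ f HH) {x0 r y0 δ : ℝ} {N : ℕ}
    (hy0 : 0 < y0) (hr : y0 ≤ r) (hN : 0 < N) (hlog : Real.log (r / y0) ≤ N) (hδ : 0 < δ)
    (hE : ∫⁻ z in {z : ℂ | z.re ∈ Ico x0 (x0 + r / N) ∧ z.im ∈ Ioc y0 r},
        ENNReal.ofReal (‖deriv f z‖ ^ 2) ≤ ENNReal.ofReal (δ ^ 2 / N)) :
    ∃ t ∈ Icc (0:ℝ) 1, ‖f (gam x0 r N t r) - f (gam x0 r N t y0)‖ ≤ 3 * δ := by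
  have hr0 : 0 < r := lt_of_lt_of_le hy0 hr
  have hN' : (0:ℝ) < N := Nat.cast_pos.2 hN
  have h1 := (fan_tonelli (f := f) (x0 := x0) hy0 hr0 hN).trans hE
  have hm2 : Measurable (fun p : ℝ × ℝ => ENNReal.ofReal (wd r N p.2 *
      ‖deriv f (gam x0 r N p.1 p.2)‖ ^ 2)) := by
    have h1 := (measurable_deriv f).comp (gam_measurable x0 r N)
    have h2 : Measurable (fun p : ℝ × ℝ => wd r N p.2) := (wd_measurable r N).comp measurable_snd
    exact (h2.mul (h1.norm.pow_const 2)).ennreal_ofReal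
  have hm3 : AEMeasurable (fun t : ℝ => ∫⁻ y in Ioc y0 r,
      ENNReal.ofReal (wd r N y * ‖deriv f (gam x0 r N t y)‖ ^ 2)) (volume.restrict (Icc (0:ℝ) 1)) :=
    (hm2.lintegral_prod_right' (ν := volume.restrict (Ioc y0 r))).aemeasurable
  obtain ⟨t, ht, h2⟩ := exists_le_setLAverage (μ := volume) (s := Icc (0:ℝ) 1) (by simp) (by simp) hm3
  refine ⟨t, ht, ?_⟩
  rw [setLAverage_eq, Real.volume_Icc, sub_zero, ENNReal.ofReal_one, div_one] at h2
  have h4 := h2.trans h1
  refine (path_bound hf hy0 hr hN hlog hδ ht).trans ?_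
  have hpos : ∀ y ∈ Icc y0 r, 0 < y := fun y hy => lt_of_lt_of_le hy0 hy.1
  have hcont : ContinuousOn (fun y => wd r N y * ‖deriv f (gam x0 r N t y)‖ ^ 2) (Icc y0 r) := by
    have hcd : ContinuousOn (fun y => deriv f (gam x0 r N t y)) (Icc y0 r) := by
      apply (hf.deriv isOpen_HH).continuousOn.comp ((gam_cont hr0 N t).mono hpos)
      intro y hy
      show 0 < (gam x0 r N t y).im
      rw [gam_im]; exact hpos y hy
    have hcw : ContinuousOn (wd r N) (Icc y0 r) := fun y hy =>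
      (hasDerivAt_wd hr0 N (hpos y hy)).continuousAt.continuousWithinAt
    exact hcw.mul (hcd.norm.pow 2)
  have hint : IntegrableOn (fun y => wd r N y * ‖deriv f (gam x0 r N t y)‖ ^ 2) (Ioc y0 r) :=
    (hcont.integrableOn_Icc).mono_set Ioc_subset_Icc_self
  have h5 : ENNReal.ofReal (∫ y in y0..r, wd r N y * ‖deriv f (gam x0 r N t y)‖ ^ 2) ≤
      ENNReal.ofReal (δ ^ 2 / N) := by
    rw [intervalIntegral.integral_of_le hr, ofReal_integral_eq_lintegral_ofReal hint]
    · exact h4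
    · rw [EventuallyLE, ae_restrict_iff' measurableSet_Ioc]
      refine Eventually.of_forall (fun y hy => ?_)
      have := wd_pos hr0 N (hpos y (Ioc_subset_Icc_self hy))
      show 0 ≤ _
      positivity
  have h6 : (∫ y in y0..r, wd r N y * ‖deriv f (gam x0 r N t y)‖ ^ 2) ≤ δ ^ 2 / N :=
    (ENNReal.ofReal_le_ofReal_iff (by positivity)).1 h5
  have h7 : N / δ * (∫ y in y0..r, wd r N y * ‖deriv f (gam x0 r N t y)‖ ^ 2) ≤ δ := by
    calc N / δ * (∫ y in y0..r, wd r N y * ‖deriv f (gam x0 r N t y)‖ ^ 2) ≤ N / δ * (δ ^ 2 / N) :=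
          mul_le_mul_of_nonneg_left h6 (by positivity)
      _ = δ := by field_simp
  linarith

/-- one scale: if the Dirichlet integral over the box is small, then some path from a small
segment at height `y0` to height `r` has small oscillation -/
theorem scale_exists {f : ℂ → ℂ} (hf : DifferentiableOn ℂ f HH) {r y0 δ : ℝ} {N : ℕ}
    (hy0 : 0 < y0) (hr : y0 ≤ r) (hN : 0 < N) (hlog : Real.log (r / y0) ≤ N) (hδ : 0 < δ)
    (hE : ∫⁻ z in HH ∩ Metric.ball 0 (4 * r),
        ENNReal.ofReal (‖deriv f z‖ ^ 2) ≤ ENNReal.ofReal (δ ^ 2)) :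
    ∃ k : ℕ, k < N ∧ ∃ t ∈ Icc (0:ℝ) 1,
      ‖f (gam (r * (1 + k / N)) r N t r) - f (gam (r * (1 + k / N)) r N t y0)‖ ≤ 3 * δ := by
  have hr0 : 0 < r := lt_of_lt_of_le hy0 hr
  have hN' : (0:ℝ) < N := Nat.cast_pos.2 hN
  set R : ℕ → Set ℂ := fun k => {z : ℂ | z.re ∈ Ico (r * (1 + k / N)) (r * (1 + k / N) + r / N) ∧
    z.im ∈ Ioc y0 r} with hR
  have hRm : ∀ k, MeasurableSet (R k) := fun k =>
    (Complex.measurable_re measurableSet_Ico).inter (Complex.measurable_im measurableSet_Ioc)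
  have hedge : ∀ k : ℕ, r * (1 + k / N) + r / N = r * (1 + (k + 1 : ℕ) / N) := by
    intro k; push_cast; field_simp; ring
  have hdisj : Pairwise (Function.onFun Disjoint R) := by
    have hlt : ∀ i j : ℕ, i < j → Disjoint (R i) (R j) := by
      intro i j hij
      rw [Set.disjoint_left]
      rintro z ⟨⟨_, h1⟩, _⟩ ⟨⟨h2, _⟩, _⟩
      rw [hedge] at h1
      have h3 : ((i + 1 : ℕ) : ℝ) ≤ j := by exact_mod_cast hij
      have h4 : r * (1 + (i + 1 : ℕ) / N) ≤ r * (1 + j / N) := by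
        apply mul_le_mul_of_nonneg_left _ hr0.le
        have := div_le_div_of_nonneg_right h3 hN'.le
        linarith
      linarith
    intro i j hij
    rcases lt_or_gt_of_ne hij with h | h
    · exact hlt i j h
    · exact (hlt j i h).symm
  have hsub : (⋃ k ∈ Finset.range N, R k) ⊆ HH ∩ Metric.ball 0 (4 * r) := by
    intro z hz
    simp only [Set.mem_iUnion, Finset.mem_range] at hz
    obtain ⟨k, hk, ⟨h1, h2⟩, h3, h4⟩ := hz
    have hk' : ((k + 1 : ℕ) : ℝ) ≤ N := by exact_mod_cast hk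
    rw [hedge] at h2
    have h5 : ((k + 1 : ℕ) : ℝ) / N ≤ 1 := by rw [div_le_one hN']; exact hk'
    have h6 : z.re < 2 * r := by nlinarith
    have h7 : 0 ≤ z.re := by
      have : 0 ≤ r * (1 + (k:ℝ) / N) := by positivity
      linarith
    refine ⟨lt_trans hy0 h3, ?_⟩
    rw [mem_ball_zero_iff]
    calc ‖z‖ ≤ |z.re| + |z.im| := Complex.norm_le_abs_re_add_abs_im z
      _ < 4 * r := by
        rw [abs_of_nonneg h7, abs_of_pos (lt_trans hy0 h3)]; linarith
  have hsum : ∑ k ∈ Finset.range N, ∫⁻ z in R k, ENNReal.ofReal (‖deriv f z‖ ^ 2) ≤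
      ENNReal.ofReal (δ ^ 2) := by
    rw [← lintegral_biUnion_finset (fun i _ j _ hij => hdisj hij) (fun k _ => hRm k)]
    exact (lintegral_mono_set hsub).trans hE
  have hex : ∃ k < N, ∫⁻ z in R k, ENNReal.ofReal (‖deriv f z‖ ^ 2) ≤ ENNReal.ofReal (δ ^ 2 / N) := by
    by_contra hcon
    push Not at hcon
    have h1 : ∑ k ∈ Finset.range N, ENNReal.ofReal (δ ^ 2 / N) <
        ∑ k ∈ Finset.range N, ∫⁻ z in R k, ENNReal.ofReal (‖deriv f z‖ ^ 2) :=
      ENNReal.sum_lt_sum_of_nonempty (Finset.nonempty_range_iff.2 hN.ne')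
        (fun k hk => hcon k (Finset.mem_range.1 hk))
    have h2 : ∑ k ∈ Finset.range N, ENNReal.ofReal (δ ^ 2 / N) = ENNReal.ofReal (δ ^ 2) := by
      rw [Finset.sum_const, Finset.card_range, nsmul_eq_mul, ← ENNReal.ofReal_natCast,
        ← ENNReal.ofReal_mul hN'.le]
      congr 1
      field_simp
    rw [h2] at h1
    exact absurd hsum (not_le.2 h1)
  obtain ⟨k, hk, h1⟩ := hex
  obtain ⟨t, ht, h2⟩ := fan_exists hf hy0 hr hN hlog hδ h1
  exact ⟨k, hk, t, ht, h2⟩

end Pool.Agent.H591R3.FS
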