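import Pool.Agent.H591R3.FS3

set_option autoImplicit false

open MeasureTheory Set Filter Topology Complex
open scoped ENNReal

namespace Pool.Agent.H591R3.FS

/-- the abscissae of the small segments -/
noncomputable def xx (n k : ℕ) : ℝ := (1 / 2 : ℝ) ^ n * (1 + k / n)

/-- The forcing set: for each `n ≥ 3` it has `n` horizontal segments of length `4⁻ⁿ` at height `4⁻ⁿ`
over `n` equally spaced points of `[2⁻ⁿ, 2·2⁻ⁿ)`. -/
def Kset : Set ℂ := {z : ℂ | ∃ n : ℕ, 3 ≤ n ∧ ∃ k : ℕ, k < n ∧ z.im = (1 / 4 : ℝ) ^ n ∧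
  xx n k ≤ z.re ∧ z.re ≤ xx n k + (1 / 4 : ℝ) ^ n}

theorem energy_small {f : ℂ → ℂ} (hf : DifferentiableOn ℂ f HH) (hinj : InjOn f HH)
    (hm : MapsTo f HH (Metric.ball (0 : ℂ) 1)) {c : ℝ} (hc : 0 < c) :
    ∃ ρ : ℝ, 0 < ρ ∧ ∫⁻ z in HH ∩ Metric.ball 0 ρ, ENNReal.ofReal (‖deriv f z‖ ^ 2) <
      ENNReal.ofReal c := by
  have h1 : ∫⁻ z in HH, ENNReal.ofReal (‖deriv f z‖ ^ 2) ≠ ∞ := by
    refine ne_top_of_le_ne_top ?_ (area_bound hf hinj hm)
    exact measure_ball_lt_top.ne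
  have h2 : ENNReal.ofReal c ≠ 0 := by
    rw [Ne, ENNReal.ofReal_eq_zero, not_le]; exact hc
  obtain ⟨δ, hδ, h3⟩ := exists_pos_setLIntegral_lt_of_measure_lt h1 h2
  have h4 : Tendsto (fun ρ : ℝ => volume (Metric.ball (0:ℂ) ρ)) (𝓝[>] 0) (𝓝 0) := by
    have h5 : Tendsto (fun ρ : ℝ => ENNReal.ofReal ρ ^ 2 * (NNReal.pi : ℝ≥0∞)) (𝓝[>] 0)
        (𝓝 (ENNReal.ofReal 0 ^ 2 * (NNReal.pi : ℝ≥0∞))) := by
      apply ENNReal.Tendsto.mul_const
      · apply ENNReal.Tendsto.pow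
        exact (ENNReal.continuous_ofReal.tendsto 0).mono_left nhdsWithin_le_nhds
      · right; exact ENNReal.coe_ne_top
    simp only [Complex.volume_ball]
    simpa using h5
  have h5 : ∀ᶠ ρ in 𝓝[>] (0:ℝ), volume (Metric.ball (0:ℂ) ρ) < δ := h4.eventually (gt_mem_nhds hδ)
  obtain ⟨ρ, hρ1, hρ2⟩ := (h5.and self_mem_nhdsWithin).exists
  refine ⟨ρ, hρ2, ?_⟩
  have h6 := h3 (Metric.ball (0:ℂ) ρ) (lt_of_le_of_lt (Measure.restrict_apply_le _ _) hρ1)
  rw [Measure.restrict_restrict Metric.isOpen_ball.measurableSet] at h6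
  rw [Set.inter_comm]
  exact h6

theorem sin_arg_ge {θ : ℝ} (h0 : 0 < θ) (h1 : θ < Real.pi / 2) {z : ℂ}
    (hz1 : θ ≤ Complex.arg z) (hz2 : Complex.arg z ≤ Real.pi - θ) :
    Real.sin θ * ‖z‖ ≤ z.im := by
  have h2 : Real.sin θ ≤ Real.sin (Complex.arg z) := by
    rcases le_total (Complex.arg z) (Real.pi / 2) with h | h
    · exact Real.sin_le_sin_of_le_of_le_pi_div_two (by linarith) h hz1
    · rw [← Real.sin_pi_sub (Complex.arg z)]
      exact Real.sin_le_sin_of_le_of_le_pi_div_two (by linarith) (by linarith) (by linarith)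
  rw [← Complex.norm_mul_sin_arg z, mul_comm]
  exact mul_le_mul_of_nonneg_left h2 (norm_nonneg z)

/-- The set `Kset` is forcing. -/
theorem forcing {f : ℂ → ℂ} (hf : DifferentiableOn ℂ f HH) (hinj : InjOn f HH)
    (hm : MapsTo f HH (Metric.ball (0 : ℂ) 1)) {α : ℂ} (hα : Tendsto f (𝓝[Kset] 0) (𝓝 α))
    {θ : ℝ} (hθ0 : 0 < θ) (hθ1 : θ < Real.pi / 2) :
    Tendsto f (𝓝[{z : ℂ | z ≠ 0 ∧ θ ≤ Complex.arg z ∧ Complex.arg z ≤ Real.pi - θ}] 0) (𝓝 α) := by
  rw [Metric.tendsto_nhdsWithin_nhds] at hα ⊢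
  intro ε hε
  set σ : ℝ := Real.sin θ with hσdef
  have hσ : 0 < σ := Real.sin_pos_of_pos_of_lt_pi hθ0 (by linarith [Real.pi_pos])
  have hσ1 : σ ≤ 1 := Real.sin_le_one θ
  set η : ℝ := min 1 (ε * σ / 24) with hηdef
  have hη : 0 < η := lt_min one_pos (by positivity)
  obtain ⟨ρ1, hρ1, hE1⟩ := energy_small hf hinj hm (c := η ^ 4 / 16384) (by positivity)
  obtain ⟨ρ2, hρ2, hE2⟩ := energy_small hf hinj hm (c := (ε / 12) ^ 2) (by positivity)
  obtain ⟨ρK, hρK, hK⟩ := hα (ε / 4) (by linarith)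
  set ρ0 : ℝ := min (1 / 4) (min (ρ1 / 8) (min (ρ2 / 4) (ρK / 4))) with hρ0def
  have hρ0 : 0 < ρ0 := lt_min (by norm_num) (lt_min (by linarith) (lt_min (by linarith) (by linarith)))
  have hb0 : ρ0 ≤ 1 / 4 := min_le_left _ _
  have hb1 : ρ0 ≤ ρ1 / 8 := (min_le_right _ _).trans (min_le_left _ _)
  have hb2 : ρ0 ≤ ρ2 / 4 := (min_le_right _ _).trans ((min_le_right _ _).trans (min_le_left _ _))
  have hb3 : ρ0 ≤ ρK / 4 := (min_le_right _ _).trans ((min_le_right _ _).trans (min_le_right _ _))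
  refine ⟨ρ0, hρ0, ?_⟩
  rintro z ⟨hz0, hz1, hz2⟩ hz
  rw [dist_zero_right] at hz
  have hzpos : 0 < ‖z‖ := norm_pos_iff.2 hz0
  obtain ⟨n, hn1, hn2⟩ := exists_nat_pow_near_of_lt_one hzpos (by linarith)
    (show (0:ℝ) < 1 / 2 by norm_num) (by norm_num)
  set N : ℕ := n + 1 with hNdef
  set r : ℝ := (1 / 2 : ℝ) ^ N with hrdef
  have hr : 0 < r := by positivity
  have hrz : r < ‖z‖ := hn1
  have hzr : ‖z‖ ≤ 2 * r := by
    have : (1 / 2 : ℝ) ^ n = 2 * r := by rw [hrdef, hNdef, pow_succ]; ring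
    linarith
  have hN3 : 3 ≤ N := by
    by_contra hlt
    push Not at hlt
    have h2 : N ≤ 2 := by omega
    have h1 : (1 / 2 : ℝ) ^ 2 ≤ (1 / 2 : ℝ) ^ N :=
      pow_le_pow_of_le_one (by norm_num) (by norm_num) h2
    have h3 : (1 / 2 : ℝ) ^ 2 = 1 / 4 := by norm_num
    linarith
  have hN0 : 0 < N := by omega
  set y0 : ℝ := (1 / 4 : ℝ) ^ N with hy0def
  have hy0 : 0 < y0 := by positivity
  have hy0r : y0 ≤ r := pow_le_pow_left₀ (by norm_num) (by norm_num) N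
  have hlog : Real.log (r / y0) ≤ N := by
    have h1 : r / y0 = 2 ^ N := by
      rw [hrdef, hy0def, ← div_pow]; norm_num
    rw [h1, Real.log_pow]
    have h2 : Real.log 2 ≤ 1 := by
      have := Real.log_two_lt_d9; linarith
    have h3 : (0:ℝ) ≤ N := Nat.cast_nonneg N
    nlinarith
  have hE2' : ∫⁻ z in HH ∩ Metric.ball 0 (4 * r), ENNReal.ofReal (‖deriv f z‖ ^ 2) ≤
      ENNReal.ofReal ((ε / 12) ^ 2) := by
    refine le_trans (lintegral_mono_set ?_) hE2.le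
    apply Set.inter_subset_inter_right
    apply Metric.ball_subset_ball
    linarith
  obtain ⟨k, hk, t, ht, hpq⟩ := scale_exists hf hy0 hy0r hN0 hlog (by positivity) hE2'
  have hx : r * (1 + (k:ℝ) / N) = xx N k := rfl
  rw [hx] at hpq
  have hN' : (0:ℝ) < N := Nat.cast_pos.2 hN0
  have hkN : (k:ℝ) / N ≤ 1 := by
    rw [div_le_one hN']; exact_mod_cast hk.le
  have hx1 : r ≤ xx N k := by
    have : 0 ≤ r * ((k:ℝ) / N) := by positivity
    show r ≤ r * (1 + (k:ℝ) / N)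
    linarith
  have hx2 : xx N k ≤ 2 * r := by
    show r * (1 + (k:ℝ) / N) ≤ 2 * r
    nlinarith
  set p : ℂ := gam (xx N k) r N t r with hpdef
  set q : ℂ := gam (xx N k) r N t y0 with hqdef
  -- the point q
  have hwq : 0 ≤ t * wd r N y0 ∧ t * wd r N y0 ≤ y0 := by
    have h1 := wd_pos hr N hy0
    have h2 := wd_le hr N hy0
    refine ⟨mul_nonneg ht.1 h1.le, ?_⟩
    calc t * wd r N y0 ≤ 1 * wd r N y0 := mul_le_mul_of_nonneg_right ht.2 h1.le
      _ ≤ y0 := by linarith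
  have hwp : 0 ≤ t * wd r N r ∧ t * wd r N r ≤ r := by
    have h1 := wd_pos hr N hr
    have h2 := wd_le hr N hr
    refine ⟨mul_nonneg ht.1 h1.le, ?_⟩
    calc t * wd r N r ≤ 1 * wd r N r := mul_le_mul_of_nonneg_right ht.2 h1.le
      _ ≤ r := by linarith
  have hqK : q ∈ Kset := by
    refine ⟨N, hN3, k, hk, gam_im _ _ _ _ _, ?_, ?_⟩
    · rw [hqdef, gam_re]; linarith [hwq.1]
    · rw [hqdef, gam_re]; linarith [hwq.2]
  have hqn : ‖q‖ ≤ 4 * r := by
    calc ‖q‖ ≤ |q.re| + |q.im| := Complex.norm_le_abs_re_add_abs_im q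
      _ ≤ 4 * r := by
        rw [hqdef, gam_re, gam_im, abs_of_nonneg (by linarith [hwq.1]), abs_of_pos hy0]
        linarith [hwq.2]
  have hpn : ‖p‖ ≤ 4 * r := by
    calc ‖p‖ ≤ |p.re| + |p.im| := Complex.norm_le_abs_re_add_abs_im p
      _ ≤ 4 * r := by
        rw [hpdef, gam_re, gam_im, abs_of_nonneg (by linarith [hwp.1]), abs_of_pos hr]
        linarith [hwp.2]
  have hqα : ‖f q - α‖ < ε / 4 := by
    have h1 : dist q 0 < ρK := by
      rw [dist_zero_right]; linarith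
    have := hK hqK h1
    rwa [dist_eq_norm] at this
  -- comparison of z and p
  set C : Set ℂ := {w : ℂ | σ * r ≤ w.im} ∩ Metric.closedBall 0 (4 * r) with hCdef
  have hCconv : Convex ℝ C := by
    apply Convex.inter _ (convex_closedBall _ _)
    exact convex_halfSpace_ge (f := fun w : ℂ => w.im) Complex.imLm.isLinear _
  have hzC : z ∈ C := by
    constructor
    · show σ * r ≤ z.im
      have h1 := sin_arg_ge hθ0 hθ1 hz1 hz2
      have h2 : σ * r ≤ σ * ‖z‖ := mul_le_mul_of_nonneg_left hrz.le hσ.le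
      linarith
    · rw [mem_closedBall_zero_iff]; linarith
  have hpC : p ∈ C := by
    constructor
    · show σ * r ≤ p.im
      rw [hpdef, gam_im]
      nlinarith
    · rw [mem_closedBall_zero_iff]; exact hpn
  have hder : ∀ w ∈ C, ‖deriv f w‖ ≤ η / (σ * r) := by
    rintro w ⟨hw1, hw2⟩
    have hw1' : σ * r ≤ w.im := hw1
    have hwi : 0 < w.im := lt_of_lt_of_le (mul_pos hσ hr) hw1'
    rw [mem_closedBall_zero_iff] at hw2
    have h1 : w.im * ‖deriv f w‖ < η := by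
      by_contra hcon
      push Not at hcon
      have h2 := dirichlet_lower hf hm hwi hη (min_le_left _ _) hcon
      have h3 : Metric.ball w (w.im / 2) ⊆ HH ∩ Metric.ball 0 ρ1 := by
        intro v hv
        have h4 : ‖v - w‖ < w.im / 2 := by rw [← dist_eq_norm]; exact Metric.mem_ball.1 hv
        have h5 : |(v - w).im| ≤ ‖v - w‖ := Complex.abs_im_le_norm _
        have h6 := abs_le.1 h5
        rw [Complex.sub_im] at h6
        constructor
        · show 0 < v.im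
          linarith [h6.1]
        · rw [mem_ball_zero_iff]
          have h7 : ‖v‖ ≤ ‖v - w‖ + ‖w‖ := by
            calc ‖v‖ = ‖(v - w) + w‖ := by rw [sub_add_cancel]
              _ ≤ _ := norm_add_le _ _
          have h8 : w.im ≤ ‖w‖ := (le_abs_self _).trans (Complex.abs_im_le_norm _)
          linarith
      have h4 := h2.trans (lintegral_mono_set h3)
      exact absurd hE1 (not_lt.2 h4)
    rw [le_div_iff₀ (mul_pos hσ hr)]
    calc ‖deriv f w‖ * (σ * r) ≤ ‖deriv f w‖ * w.im :=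
          mul_le_mul_of_nonneg_left hw1' (norm_nonneg _)
      _ ≤ η := by rw [mul_comm]; exact h1.le
  have hzp : ‖f z - f p‖ ≤ ε / 4 := by
    have h1 : ‖f z - f p‖ ≤ η / (σ * r) * ‖z - p‖ := by
      apply hCconv.norm_image_sub_le_of_norm_deriv_le (f := f) (C := η / (σ * r)) _ hder hpC hzC
      intro x hx
      have : 0 < x.im := lt_of_lt_of_le (mul_pos hσ hr) hx.1
      exact (hf x this).differentiableAt (isOpen_HH.mem_nhds this)
    have h2 : ‖z - p‖ ≤ 6 * r := by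
      calc ‖z - p‖ ≤ ‖z‖ + ‖p‖ := norm_sub_le _ _
        _ ≤ 6 * r := by linarith
    calc ‖f z - f p‖ ≤ η / (σ * r) * ‖z - p‖ := h1
      _ ≤ η / (σ * r) * (6 * r) := mul_le_mul_of_nonneg_left h2 (by positivity)
      _ = 6 * η / σ := by field_simp
      _ ≤ 6 * (ε * σ / 24) / σ := by
        apply div_le_div_of_nonneg_right _ hσ.le
        have : η ≤ ε * σ / 24 := min_le_right _ _
        linarith
      _ = ε / 4 := by field_simp; norm_num
  rw [dist_eq_norm]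
  calc ‖f z - α‖ = ‖(f z - f p) + (f p - f q) + (f q - α)‖ := by congr 1; ring
    _ ≤ ‖f z - f p‖ + ‖f p - f q‖ + ‖f q - α‖ := norm_add₃_le
    _ < ε := by linarith

end Pool.Agent.H591R3.FS
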