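import Pool.Agent.H591R3.FS4

set_option autoImplicit false

open MeasureTheory Set Filter Topology Complex
open scoped ENNReal

namespace Pool.Agent.H591R3.FS

/-- the moduli of the points of the hyperbolic neighbourhood of `Kset` with radius
`2 arsinh (1/2)` -/
def Bset : Set ℝ := (fun z : ℂ => ‖z‖) '' {z : ℂ | 0 < z.im ∧ ∃ w ∈ Kset,
              2 * Real.arsinh (‖z - w‖ / (2 * Real.sqrt (z.im * w.im))) < 2 * Real.arsinh (1 / 2)}

theorem mem_Bset {ρ : ℝ} (h : ρ ∈ Bset) : ∃ n : ℕ, 3 ≤ n ∧ ∃ k : ℕ, k < n ∧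
    xx n k - 4 * (1 / 4 : ℝ) ^ n < ρ ∧ ρ < xx n k + 4 * (1 / 4 : ℝ) ^ n := by
  obtain ⟨z, ⟨hz, w, ⟨n, hn, k, hk, hwi, hw1, hw2⟩, hlt⟩, rfl⟩ := h
  set y : ℝ := (1 / 4 : ℝ) ^ n with hy
  have hy0 : 0 < y := by positivity
  have hwi0 : 0 < w.im := by rw [hwi]; exact hy0
  have h1 : Real.arsinh (‖z - w‖ / (2 * Real.sqrt (z.im * w.im))) < Real.arsinh (1 / 2) := by linarith
  rw [Real.arsinh_lt_arsinh] at h1
  have hs : 0 < Real.sqrt (z.im * w.im) := Real.sqrt_pos.2 (mul_pos hz hwi0)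
  have h2 : ‖z - w‖ < Real.sqrt (z.im * w.im) := by
    rw [div_lt_iff₀ (by positivity)] at h1
    linarith
  have h3 : Real.sqrt (z.im * w.im) ≤ (z.im + w.im) / 2 := by
    rw [Real.sqrt_le_left (by linarith)]
    nlinarith [sq_nonneg (z.im - w.im)]
  have h4 : |(z - w).im| ≤ ‖z - w‖ := Complex.abs_im_le_norm _
  rw [Complex.sub_im] at h4
  have h5 : z.im - w.im ≤ ‖z - w‖ := (le_abs_self _).trans h4
  have h6 : ‖z - w‖ < 2 * y := by rw [← hwi]; linarith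
  have hx0 : 0 ≤ xx n k := by unfold xx; positivity
  have h7 : ‖w - (xx n k : ℂ)‖ ≤ 2 * y := by
    calc ‖w - (xx n k : ℂ)‖ ≤ |(w - (xx n k : ℂ)).re| + |(w - (xx n k : ℂ)).im| :=
          Complex.norm_le_abs_re_add_abs_im _
      _ ≤ 2 * y := by
        rw [Complex.sub_re, Complex.sub_im, Complex.ofReal_re, Complex.ofReal_im, sub_zero,
          abs_of_nonneg (by linarith), abs_of_pos hwi0, hwi]
        linarith
  have h8 : ‖z - (xx n k : ℂ)‖ < 4 * y := by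
    calc ‖z - (xx n k : ℂ)‖ = ‖(z - w) + (w - (xx n k : ℂ))‖ := by congr 1; ring
      _ ≤ ‖z - w‖ + ‖w - (xx n k : ℂ)‖ := norm_add_le _ _
      _ < 4 * y := by linarith
  have h9 : |‖z‖ - ‖(xx n k : ℂ)‖| ≤ ‖z - (xx n k : ℂ)‖ := abs_norm_sub_norm_le _ _
  rw [Complex.norm_real, Real.norm_of_nonneg hx0] at h9
  have h10 := abs_lt.1 (lt_of_le_of_lt h9 h8)
  exact ⟨n, hn, k, hk, by show xx n k - 4 * y < ‖z‖; linarith [h10.1],
    by show ‖z‖ < xx n k + 4 * y; linarith [h10.2]⟩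

theorem nat_half_pow (n : ℕ) : (n : ℝ) * (1 / 2 : ℝ) ^ n ≤ 2 * (3 / 4 : ℝ) ^ n := by
  have h1 : 1 + (n : ℝ) * (1 / 2) ≤ (1 + 1 / 2 : ℝ) ^ n :=
    one_add_mul_le_pow (by norm_num) n
  have h2 : (n : ℝ) ≤ 2 * (3 / 2 : ℝ) ^ n := by
    have : (1 + 1 / 2 : ℝ) = 3 / 2 := by norm_num
    rw [this] at h1
    linarith
  have h3 : (3 / 4 : ℝ) ^ n = (3 / 2 : ℝ) ^ n * (1 / 2 : ℝ) ^ n := by
    rw [← mul_pow]; norm_num
  rw [h3]
  have h4 : (0:ℝ) < (1 / 2 : ℝ) ^ n := by positivity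
  nlinarith

theorem Bset_small {r : ℝ} {m : ℕ} (hrm : 2 * r ≤ (1 / 2 : ℝ) ^ m) (hr : 0 < r) :
    (volume (Bset ∩ Ioo (0:ℝ) r)).toReal ≤ 52 * (3 / 4 : ℝ) ^ m * r := by
  -- the first scale meeting `(0, r)`
  have hex : ∃ n : ℕ, (1 / 2 : ℝ) ^ n < 2 * r := exists_pow_lt_of_lt_one (by linarith) (by norm_num)
  classical
  set n0 : ℕ := Nat.find hex with hn0
  have h0 : (1 / 2 : ℝ) ^ n0 < 2 * r := Nat.find_spec hex
  have hmin : ∀ n : ℕ, (1 / 2 : ℝ) ^ n < 2 * r → n0 ≤ n := fun n hn => Nat.find_min' hex hn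
  have hm : m ≤ n0 := by
    by_contra hlt
    push Not at hlt
    have : (1 / 2 : ℝ) ^ m ≤ (1 / 2 : ℝ) ^ n0 :=
      pow_le_pow_of_le_one (by norm_num) (by norm_num) hlt.le
    linarith
  have hsub : Bset ∩ Ioo (0:ℝ) r ⊆ ⋃ j : ℕ, ⋃ k ∈ Finset.range (n0 + j),
      Ioo (xx (n0 + j) k - 4 * (1 / 4 : ℝ) ^ (n0 + j)) (xx (n0 + j) k + 4 * (1 / 4 : ℝ) ^ (n0 + j)) := by
    rintro ρ ⟨hρ, hρ0, hρr⟩
    obtain ⟨n, hn, k, hk, h1, h2⟩ := mem_Bset hρ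
    have h3 : (1 / 2 : ℝ) ^ n ≤ xx n k := by
      unfold xx
      have h4 : (0:ℝ) ≤ (k:ℝ) / n := by positivity
      have h5 : (0:ℝ) < (1 / 2 : ℝ) ^ n := by positivity
      nlinarith
    have h4 : 4 * (1 / 4 : ℝ) ^ n ≤ (1 / 2 : ℝ) ^ n / 2 := by
      have h5 : (1 / 4 : ℝ) ^ n = (1 / 2 : ℝ) ^ n * (1 / 2 : ℝ) ^ n := by
        rw [← mul_pow]; norm_num
      have h6 : (1 / 2 : ℝ) ^ n ≤ (1 / 2 : ℝ) ^ 3 :=
        pow_le_pow_of_le_one (by norm_num) (by norm_num) hn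
      have h7 : (0:ℝ) < (1 / 2 : ℝ) ^ n := by positivity
      have h8 : (1 / 2 : ℝ) ^ 3 = 1 / 8 := by norm_num
      rw [h5]
      nlinarith
    have h5 : n0 ≤ n := hmin n (by linarith)
    obtain ⟨j, rfl⟩ := Nat.exists_eq_add_of_le h5
    simp only [Set.mem_iUnion, Finset.mem_range]
    exact ⟨j, k, hk, h1, h2⟩
  have hvol : volume (Bset ∩ Ioo (0:ℝ) r) ≤ ENNReal.ofReal (52 * (3 / 4 : ℝ) ^ m * r) := by
    calc volume (Bset ∩ Ioo (0:ℝ) r) ≤ volume (⋃ j : ℕ, ⋃ k ∈ Finset.range (n0 + j),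
      Ioo (xx (n0 + j) k - 4 * (1 / 4 : ℝ) ^ (n0 + j)) (xx (n0 + j) k + 4 * (1 / 4 : ℝ) ^ (n0 + j))) :=
          measure_mono hsub
      _ ≤ ∑' j : ℕ, volume (⋃ k ∈ Finset.range (n0 + j),
      Ioo (xx (n0 + j) k - 4 * (1 / 4 : ℝ) ^ (n0 + j)) (xx (n0 + j) k + 4 * (1 / 4 : ℝ) ^ (n0 + j))) :=
          measure_iUnion_le _
      _ ≤ ∑' j : ℕ, ENNReal.ofReal (16 * (3 / 8 : ℝ) ^ n0 * (3 / 8 : ℝ) ^ j) := by
          apply ENNReal.tsum_le_tsum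
          intro j
          refine (measure_biUnion_finset_le _ _).trans ?_
          simp only [Real.volume_Ioo]
          have h1 : ∀ k : ℕ, xx (n0 + j) k + 4 * (1 / 4 : ℝ) ^ (n0 + j) -
              (xx (n0 + j) k - 4 * (1 / 4 : ℝ) ^ (n0 + j)) = 8 * (1 / 4 : ℝ) ^ (n0 + j) := by
            intro k; ring
          simp only [h1, Finset.sum_const, Finset.card_range, nsmul_eq_mul]
          rw [← ENNReal.ofReal_natCast, ← ENNReal.ofReal_mul (Nat.cast_nonneg _)]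
          apply ENNReal.ofReal_le_ofReal
          have h2 := nat_half_pow (n0 + j)
          have h3 : (1 / 4 : ℝ) ^ (n0 + j) = (1 / 2 : ℝ) ^ (n0 + j) * (1 / 2 : ℝ) ^ (n0 + j) := by
            rw [← mul_pow]; norm_num
          have h4 : (3 / 8 : ℝ) ^ n0 * (3 / 8 : ℝ) ^ j = (3 / 4 : ℝ) ^ (n0 + j) * (1 / 2 : ℝ) ^ (n0 + j) := by
            rw [← pow_add, ← mul_pow]; norm_num
          have h5 : (0:ℝ) < (1 / 2 : ℝ) ^ (n0 + j) := by positivity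
          rw [mul_assoc, h4, h3]
          nlinarith
      _ = ENNReal.ofReal (∑' j : ℕ, 16 * (3 / 8 : ℝ) ^ n0 * (3 / 8 : ℝ) ^ j) := by
          rw [ENNReal.ofReal_tsum_of_nonneg]
          · intro j; positivity
          · exact (summable_geometric_of_lt_one (by norm_num) (by norm_num)).mul_left _
      _ ≤ ENNReal.ofReal (52 * (3 / 4 : ℝ) ^ m * r) := by
          apply ENNReal.ofReal_le_ofReal
          rw [tsum_mul_left, tsum_geometric_of_lt_one (by norm_num) (by norm_num)]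
          have h1 : (3 / 8 : ℝ) ^ n0 = (3 / 4 : ℝ) ^ n0 * (1 / 2 : ℝ) ^ n0 := by
            rw [← mul_pow]; norm_num
          have h2 : (3 / 4 : ℝ) ^ n0 ≤ (3 / 4 : ℝ) ^ m :=
            pow_le_pow_of_le_one (by norm_num) (by norm_num) hm
          have h3 : (3 / 4 : ℝ) ^ n0 * (1 / 2 : ℝ) ^ n0 ≤ (3 / 4 : ℝ) ^ m * (2 * r) :=
            mul_le_mul h2 h0.le (by positivity) (by positivity)
          rw [h1]
          have h4 : (1 - 3 / 8 : ℝ)⁻¹ = 8 / 5 := by norm_num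
          rw [h4]
          have h5 : 0 < (3 / 4 : ℝ) ^ m * r := by positivity
          nlinarith
  exact ENNReal.toReal_le_of_le_ofReal (by positivity) hvol

end Pool.Agent.H591R3.FS
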