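import Mathlib

set_option autoImplicit false

open Set Filter Topology

namespace Pool.Agent.H591R3.MP

/-- odd, positively homogeneous bump functions on the plane, supported in disjoint double cones -/
noncomputable def phi (n : ℕ) (z : ℂ) : ℝ :=
  max 0 (z.re - 2 ^ (n + 2) * |z.im - (1 / 2) ^ n * z.re|) -
    max 0 (-z.re - 2 ^ (n + 2) * |z.im - (1 / 2) ^ n * z.re|)

theorem phi_continuous (n : ℕ) : Continuous (phi n) := by
  unfold phi
  have h1 := Complex.continuous_re
  have h2 := Complex.continuous_im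
  fun_prop

theorem phi_pos_smul (n : ℕ) {t : ℝ} (ht : 0 ≤ t) (z : ℂ) : phi n (t • z) = t * phi n z := by
  unfold phi
  have h1 : (t • z).re = t * z.re := by simp
  have h2 : (t • z).im = t * z.im := by simp
  rw [h1, h2]
  have h3 : |t * z.im - (1 / 2) ^ n * (t * z.re)| = t * |z.im - (1 / 2) ^ n * z.re| := by
    rw [← abs_of_nonneg ht, ← abs_mul, abs_of_nonneg ht]; congr 1; ring
  rw [h3]
  have h4 : ∀ x : ℝ, max 0 (t * x) = t * max 0 x := by
    intro x
    rw [mul_max_of_nonneg _ _ ht, mul_zero]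
  have h5 : t * z.re - 2 ^ (n + 2) * (t * |z.im - (1 / 2) ^ n * z.re|) =
      t * (z.re - 2 ^ (n + 2) * |z.im - (1 / 2) ^ n * z.re|) := by ring
  have h6 : -(t * z.re) - 2 ^ (n + 2) * (t * |z.im - (1 / 2) ^ n * z.re|) =
      t * (-z.re - 2 ^ (n + 2) * |z.im - (1 / 2) ^ n * z.re|) := by ring
  rw [h5, h6, h4, h4]
  ring

theorem phi_neg (n : ℕ) (z : ℂ) : phi n (-z) = -phi n z := by
  unfold phi
  have h1 : |(-z).im - (1 / 2) ^ n * (-z).re| = |z.im - (1 / 2) ^ n * z.re| := by
    rw [Complex.neg_im, Complex.neg_re, ← abs_neg]; congr 1; ring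
  rw [h1, Complex.neg_re, neg_neg]
  ring

theorem phi_smul (n : ℕ) (t : ℝ) (z : ℂ) : phi n (t • z) = t * phi n z := by
  rcases le_total 0 t with h | h
  · exact phi_pos_smul n h z
  · have h1 : t • z = -((-t) • z) := by simp
    rw [h1, phi_neg, phi_pos_smul n (by linarith)]
    ring

theorem abs_phi_le (n : ℕ) (z : ℂ) : |phi n z| ≤ |z.re| := by
  unfold phi
  have h0 : 0 ≤ 2 ^ (n + 2) * |z.im - (1 / 2) ^ n * z.re| := by positivity
  rcases le_total 0 z.re with h | h
  · rw [abs_of_nonneg h, max_eq_left (a := 0) (b := -z.re - _) (by linarith), sub_zero,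
      abs_of_nonneg (le_max_left _ _)]
    exact max_le h (by linarith)
  · rw [abs_of_nonpos h, max_eq_left (a := 0) (b := z.re - _) (by linarith), zero_sub, abs_neg,
      abs_of_nonneg (le_max_left _ _)]
    exact max_le (by linarith) (by linarith)

theorem phi_ne {n : ℕ} {z : ℂ} (h : phi n z ≠ 0) :
    2 ^ (n + 2) * |z.im - (1 / 2) ^ n * z.re| < |z.re| := by
  by_contra hcon
  push Not at hcon
  apply h
  unfold phi
  rw [max_eq_left, max_eq_left, sub_zero]
  · linarith [neg_abs_le z.re]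
  · linarith [le_abs_self z.re]

theorem phi_disjoint {n m : ℕ} {z : ℂ} (hn : phi n z ≠ 0) (hm : phi m z ≠ 0) : n = m := by
  by_contra hne
  wlog hlt : n < m generalizing n m
  · exact this hm hn (Ne.symm hne) (lt_of_le_of_ne (not_lt.1 hlt) (Ne.symm hne))
  have h1 := phi_ne hn
  have h2 := phi_ne hm
  have hre : 0 < |z.re| := lt_of_le_of_lt (by positivity) h1
  -- multiply by 2^-(n+2)
  have h3 : |z.im - (1 / 2) ^ n * z.re| < (1 / 2) ^ n * |z.re| / 4 := by
    have e : (2:ℝ) ^ (n + 2) * ((1 / 2) ^ n * |z.re| / 4) = |z.re| := by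
      rw [pow_add]
      have : (2:ℝ) ^ n * (1 / 2) ^ n = 1 := by rw [← mul_pow]; norm_num
      calc (2:ℝ) ^ n * 2 ^ 2 * ((1 / 2) ^ n * |z.re| / 4) = (2:ℝ) ^ n * (1 / 2) ^ n * |z.re| := by ring
        _ = |z.re| := by rw [this, one_mul]
    rw [← e] at h1
    exact lt_of_mul_lt_mul_left (by rw [e] at h1 ⊢; exact h1) (by positivity)
  have h4 : |z.im - (1 / 2) ^ m * z.re| < (1 / 2) ^ m * |z.re| / 4 := by
    have e : (2:ℝ) ^ (m + 2) * ((1 / 2) ^ m * |z.re| / 4) = |z.re| := by
      rw [pow_add]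
      have : (2:ℝ) ^ m * (1 / 2) ^ m = 1 := by rw [← mul_pow]; norm_num
      calc (2:ℝ) ^ m * 2 ^ 2 * ((1 / 2) ^ m * |z.re| / 4) = (2:ℝ) ^ m * (1 / 2) ^ m * |z.re| := by ring
        _ = |z.re| := by rw [this, one_mul]
    rw [← e] at h2
    exact lt_of_mul_lt_mul_left (by rw [e] at h2 ⊢; exact h2) (by positivity)
  have h5 : |(1 / 2) ^ n * z.re - (1 / 2) ^ m * z.re| < (1 / 2) ^ n * |z.re| / 4 +
      (1 / 2) ^ m * |z.re| / 4 := by
    calc |(1 / 2) ^ n * z.re - (1 / 2) ^ m * z.re| =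
        |(z.im - (1 / 2) ^ m * z.re) - (z.im - (1 / 2) ^ n * z.re)| := by congr 1; ring
      _ ≤ |z.im - (1 / 2) ^ m * z.re| + |z.im - (1 / 2) ^ n * z.re| := abs_sub _ _
      _ < _ := by linarith
  have h6 : (1 / 2 : ℝ) ^ m ≤ (1 / 2) ^ n / 2 := by
    have : (1 / 2 : ℝ) ^ m ≤ (1 / 2) ^ (n + 1) :=
      pow_le_pow_of_le_one (by norm_num) (by norm_num) hlt
    rw [pow_succ] at this
    linarith
  have h7 : |(1 / 2) ^ n * z.re - (1 / 2) ^ m * z.re| = ((1 / 2) ^ n - (1 / 2) ^ m) * |z.re| := by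
    rw [← sub_mul, abs_mul, abs_of_nonneg]
    have : (0:ℝ) < (1 / 2) ^ n := by positivity
    linarith
  rw [h7] at h5
  have h8 : (0:ℝ) < (1 / 2) ^ n := by positivity
  nlinarith

/-- the direction of the `n`-th cone -/
noncomputable def dir (n : ℕ) : ℂ := ⟨1, (1 / 2) ^ n⟩

theorem phi_dir (n : ℕ) : phi n (dir n) = 1 := by
  unfold phi dir
  simp

theorem phi_one (n : ℕ) : phi n 1 = 0 := by
  by_contra h
  have h1 := phi_ne h
  simp only [Complex.one_im, Complex.one_re, mul_one, zero_sub, abs_neg, abs_one] at h1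
  rw [abs_of_pos (by positivity), pow_add] at h1
  have : (2:ℝ) ^ n * (1 / 2) ^ n = 1 := by rw [← mul_pow]; norm_num
  nlinarith

theorem tendsto_dir : Tendsto dir atTop (𝓝 1) := by
  have h1 : Tendsto (fun n : ℕ => ((1 : ℂ) + ((1 / 2 : ℝ) ^ n : ℝ) * Complex.I)) atTop
      (𝓝 (1 + ((0 : ℝ) : ℂ) * Complex.I)) := by
    apply Tendsto.const_add
    apply Tendsto.mul_const
    exact (Complex.continuous_ofReal.tendsto 0).comp
      (tendsto_pow_atTop_nhds_zero_of_lt_one (by norm_num) (by norm_num))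
  have h2 : (fun n : ℕ => ((1 : ℂ) + ((1 / 2 : ℝ) ^ n : ℝ) * Complex.I)) = dir := by
    funext n
    apply Complex.ext
    · simp only [Complex.add_re, Complex.one_re, Complex.mul_re, Complex.ofReal_re, Complex.I_re,
        Complex.ofReal_im, Complex.I_im, dir]
      ring
    · simp only [Complex.add_im, Complex.one_im, Complex.mul_im, Complex.ofReal_re, Complex.I_re,
        Complex.ofReal_im, Complex.I_im, dir]
      ring
  rw [h2] at h1
  simpa using h1

variable {E : Type} [NormedAddCommGroup E] [NormedSpace ℝ E]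

open Classical in
/-- the discontinuous part of the lifting -/
noncomputable def HH (e : ℕ → E) (z : ℂ) : E :=
  if h : ∃ n, phi n z ≠ 0 then phi h.choose z • e h.choose else 0

theorem HH_of_ne (e : ℕ → E) {n : ℕ} {z : ℂ} (h : phi n z ≠ 0) : HH e z = phi n z • e n := by
  have hex : ∃ n, phi n z ≠ 0 := ⟨n, h⟩
  unfold HH
  rw [dif_pos hex, phi_disjoint hex.choose_spec h]

theorem HH_of_zero (e : ℕ → E) {z : ℂ} (h : ∀ n, phi n z = 0) : HH e z = 0 := by
  unfold HH
  rw [dif_neg]
  rintro ⟨n, hn⟩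
  exact hn (h n)

theorem HH_smul (e : ℕ → E) (t : ℝ) (z : ℂ) : HH e (t • z) = t • HH e z := by
  by_cases h : ∃ n, phi n (t • z) ≠ 0
  · obtain ⟨n, hn⟩ := h
    have h1 : phi n z ≠ 0 := by
      intro h0; apply hn; rw [phi_smul, h0, mul_zero]
    rw [HH_of_ne e hn, HH_of_ne e h1, phi_smul, smul_smul]
  · push Not at h
    rw [HH_of_zero e h]
    by_cases ht : t = 0
    · rw [ht, zero_smul]
    · rw [HH_of_zero e, smul_zero]
      intro n
      have := h n
      rw [phi_smul] at this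
      exact (mul_eq_zero.1 this).resolve_left ht

theorem HH_norm_le {e : ℕ → E} (he : ∀ n, ‖e n‖ = 1) (z : ℂ) : ‖HH e z‖ ≤ ‖z‖ := by
  by_cases h : ∃ n, phi n z ≠ 0
  · obtain ⟨n, hn⟩ := h
    rw [HH_of_ne e hn, norm_smul, he, mul_one, Real.norm_eq_abs]
    exact (abs_phi_le n z).trans (Complex.abs_re_le_norm z)
  · push Not at h
    rw [HH_of_zero e h, norm_zero]
    exact norm_nonneg _

theorem HH_mem {e : ℕ → E} {G : Submodule ℝ E} (he : ∀ n, e n ∈ G) (z : ℂ) : HH e z ∈ G := by
  by_cases h : ∃ n, phi n z ≠ 0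
  · obtain ⟨n, hn⟩ := h
    rw [HH_of_ne e hn]
    exact G.smul_mem _ (he n)
  · push Not at h
    rw [HH_of_zero e h]
    exact G.zero_mem

/-- weak continuity of the lifting -/
theorem HH_weak {e : ℕ → E} (ψ : E →L[ℝ] ℝ) (hψ : Tendsto (fun n => ψ (e n)) atTop (𝓝 0)) :
    Continuous (fun z => ψ (HH e z)) := by
  rw [continuous_iff_continuousAt]
  intro z0
  apply continuousAt_of_locally_uniform_approx_of_continuousAt
  intro u hu
  obtain ⟨ε, hε, hu'⟩ := Metric.mem_uniformity_dist.1 hu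
  have hε' : 0 < ε / (‖z0‖ + 1) := by positivity
  obtain ⟨M, hM⟩ := Metric.tendsto_atTop.1 hψ (ε / (‖z0‖ + 1)) hε'
  refine ⟨Metric.ball z0 1, Metric.ball_mem_nhds _ one_pos,
    fun z => ∑ n ∈ Finset.range M, phi n z * ψ (e n), ?_, ?_⟩
  · apply Continuous.continuousAt
    exact continuous_finsetSum _ (fun n _ => (phi_continuous n).mul_const _)
  · intro z hz
    apply hu'
    have hz1 : ‖z‖ < ‖z0‖ + 1 := by
      have h1 : ‖z - z0‖ < 1 := by rw [← dist_eq_norm]; exact Metric.mem_ball.1 hz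
      have h2 : ‖z‖ ≤ ‖z - z0‖ + ‖z0‖ := by
        calc ‖z‖ = ‖(z - z0) + z0‖ := by rw [sub_add_cancel]
          _ ≤ _ := norm_add_le _ _
      linarith
    rw [Real.dist_eq]
    show |ψ (HH e z) - ∑ n ∈ Finset.range M, phi n z * ψ (e n)| < ε
    by_cases h : ∃ n, phi n z ≠ 0
    · obtain ⟨n, hn⟩ := h
      rw [HH_of_ne e hn, map_smul, smul_eq_mul]
      by_cases hnM : n < M
      · have h1 : ∑ k ∈ Finset.range M, phi k z * ψ (e k) = phi n z * ψ (e n) := by
          apply Finset.sum_eq_single n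
          · intro k _ hk
            have : phi k z = 0 := by
              by_contra h0
              exact hk (phi_disjoint h0 hn)
            rw [this, zero_mul]
          · intro h0
            exact absurd (Finset.mem_range.2 hnM) h0
        rw [h1, sub_self, abs_zero]
        exact hε
      · have h1 : ∑ k ∈ Finset.range M, phi k z * ψ (e k) = 0 := by
          apply Finset.sum_eq_zero
          intro k hk
          have : phi k z = 0 := by
            by_contra h0
            have := phi_disjoint h0 hn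
            rw [this] at hk
            exact hnM (Finset.mem_range.1 hk)
          rw [this, zero_mul]
        rw [h1, sub_zero, abs_mul]
        have h2 := hM n (not_lt.1 hnM)
        rw [Real.dist_eq, sub_zero] at h2
        have h3 : |phi n z| < ‖z0‖ + 1 :=
          lt_of_le_of_lt ((abs_phi_le n z).trans (Complex.abs_re_le_norm z)) hz1
        calc |phi n z| * |ψ (e n)| ≤ |phi n z| * (ε / (‖z0‖ + 1)) :=
              mul_le_mul_of_nonneg_left h2.le (abs_nonneg _)
          _ < (‖z0‖ + 1) * (ε / (‖z0‖ + 1)) := mul_lt_mul_of_pos_right h3 hε'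
          _ = ε := by field_simp
    · push Not at h
      rw [HH_of_zero e h]
      have h1 : ∑ k ∈ Finset.range M, phi k z * ψ (e k) = 0 := by
        apply Finset.sum_eq_zero
        intro k _
        rw [h k, zero_mul]
      rw [h1, map_zero, sub_zero, abs_zero]
      exact hε

end Pool.Agent.H591R3.MP
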