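import Pool.Agent.H591R3.MPa

set_option autoImplicit false

open Set Filter Topology
open scoped Pointwise InnerProductSpace

namespace Pool.Agent.H591R3.MP

variable {E : Type} [NormedAddCommGroup E] [NormedSpace ℝ E]

/-- the data of the construction -/
structure Dat (E : Type) [NormedAddCommGroup E] [NormedSpace ℝ E] where
  P : E →L[ℝ] ℂ
  J : ℂ →L[ℝ] E
  PJ : ∀ z, P (J z) = z
  e : ℕ → E
  he : ∀ n, ‖e n‖ = 1
  Pe : ∀ n, P (e n) = 0
  hw : ∀ ψ : E →L[ℝ] ℝ, Tendsto (fun n => ψ (e n)) atTop (𝓝 0)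

namespace Dat

variable (D : Dat E)

/-- the lifting -/
noncomputable def s (z : ℂ) : E := D.J z + HH D.e z

theorem P_HH (z : ℂ) : D.P (HH D.e z) = 0 := by
  have h := HH_mem (G := D.P.ker) (e := D.e) (fun n => by simpa using D.Pe n) z
  simpa using h

theorem P_s (z : ℂ) : D.P (D.s z) = z := by
  unfold s
  rw [map_add, D.PJ, D.P_HH, add_zero]

theorem s_smul (t : ℝ) (z : ℂ) : D.s (t • z) = t • D.s z := by
  unfold s
  rw [map_smul, HH_smul, smul_add]

theorem s_zero : D.s 0 = 0 := by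
  have := D.s_smul 0 0
  simpa using this

theorem s_neg (z : ℂ) : D.s (-z) = - D.s z := by
  have := D.s_smul (-1) z
  simpa using this

theorem s_norm_le (z : ℂ) : ‖D.s z‖ ≤ (‖D.J‖ + 1) * ‖z‖ := by
  unfold s
  calc ‖D.J z + HH D.e z‖ ≤ ‖D.J z‖ + ‖HH D.e z‖ := norm_add_le _ _
    _ ≤ ‖D.J‖ * ‖z‖ + ‖z‖ := add_le_add (D.J.le_opNorm z) (HH_norm_le D.he z)
    _ = _ := by ring

theorem s_weak (ψ : E →L[ℝ] ℝ) : Continuous (fun z => ψ (D.s z)) := by
  unfold s
  have h1 : (fun z => ψ (D.J z + HH D.e z)) = fun z => ψ (D.J z) + ψ (HH D.e z) := by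
    funext z; rw [map_add]
  rw [h1]
  exact (ψ.continuous.comp D.J.continuous).add (HH_weak ψ (D.hw ψ))

/-- radius of the small ball -/
noncomputable def del : ℝ := 1 / (2 * (‖D.P‖ + 1))

theorem del_pos : 0 < D.del := by
  unfold del; positivity

theorem P_ball {y : E} (hy : y ∈ Metric.ball (0 : E) D.del) : ‖D.P y‖ ≤ 1 / 2 := by
  rw [mem_ball_zero_iff] at hy
  calc ‖D.P y‖ ≤ ‖D.P‖ * ‖y‖ := D.P.le_opNorm y
    _ ≤ (‖D.P‖ + 1) * D.del := by
      apply mul_le_mul (by linarith) hy.le (norm_nonneg _) (by positivity)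
    _ = 1 / 2 := by unfold del; field_simp

/-- the generating set of the new unit ball -/
def T : Set E := {y | ∃ z : ℂ, ‖z‖ = 1 ∧ y = D.s z} ∪ Metric.ball (0 : E) D.del

theorem T_neg {y : E} (hy : y ∈ D.T) : -y ∈ D.T := by
  rcases hy with ⟨z, hz, rfl⟩ | hy
  · left; exact ⟨-z, by rwa [norm_neg], (D.s_neg z).symm⟩
  · right; simpa using hy

/-- the new unit ball (up to closure) -/
def S : Set E := convexHull ℝ D.T

theorem S_convex : Convex ℝ D.S := convex_convexHull ℝ _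

theorem S_nhds : D.S ∈ 𝓝 (0 : E) :=
  mem_of_superset (Metric.ball_mem_nhds 0 D.del_pos)
    (subset_union_right.trans (subset_convexHull ℝ _))

theorem S_absorbent : Absorbent ℝ D.S := absorbent_nhds_zero D.S_nhds

theorem S_balanced : Balanced ℝ D.S := by
  rw [balanced_iff_neg_mem D.S_convex]
  intro x hx
  have h1 : -D.T = D.T := by
    ext y
    rw [Set.mem_neg]
    exact ⟨fun h => by simpa using D.T_neg h, fun h => D.T_neg h⟩
  have h2 : -x ∈ convexHull ℝ (-D.T) := by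
    rw [convexHull_neg, Set.mem_neg, neg_neg]
    exact hx
  rwa [h1] at h2

/-- the new norm -/
noncomputable def N : Seminorm ℝ E := gaugeSeminorm D.S_balanced D.S_convex D.S_absorbent

theorem N_le_one_iff {x : E} : D.N x ≤ 1 ↔ x ∈ closure D.S :=
  gauge_le_one_iff_mem_closure D.S_convex D.S_nhds

theorem S_subset : D.S ⊆ Metric.closedBall (0 : E) (‖D.J‖ + 1 + D.del) := by
  apply convexHull_min _ (convex_closedBall _ _)
  rintro y (⟨z, hz, rfl⟩ | hy)
  · rw [mem_closedBall_zero_iff]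
    have := D.s_norm_le z
    rw [hz, mul_one] at this
    linarith [D.del_pos]
  · rw [mem_closedBall_zero_iff]
    rw [mem_ball_zero_iff] at hy
    have : 0 ≤ ‖D.J‖ := norm_nonneg _
    linarith

theorem N_lower (x : E) : 1 / (‖D.J‖ + 1 + D.del) * ‖x‖ ≤ D.N x := by
  have h0 : 0 ≤ ‖D.J‖ + 1 + D.del := by
    have := D.del_pos
    positivity
  have := le_gauge_of_subset_closedBall D.S_absorbent h0 D.S_subset (x := x)
  rw [one_div, inv_mul_eq_div]
  exact this

theorem N_upper (x : E) : D.N x ≤ 1 / D.del * ‖x‖ := by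
  have h : Metric.ball (0 : E) D.del ⊆ D.S := subset_union_right.trans (subset_convexHull ℝ _)
  have h1 : D.del * gauge D.S x ≤ ‖x‖ := mul_gauge_le_norm h
  have h2 := D.del_pos
  rw [one_div, inv_mul_eq_div, le_div_iff₀ h2, mul_comm]
  exact h1

theorem P_le_N (x : E) : ‖D.P x‖ ≤ D.N x := by
  have h1 : ∀ y : E, D.N y ≤ 1 → ‖D.P y‖ ≤ 1 := by
    intro y hy
    rw [D.N_le_one_iff] at hy
    have h2 : D.S ⊆ {y | ‖D.P y‖ ≤ 1} := by
      apply convexHull_min
      · rintro y (⟨z, hz, rfl⟩ | hy)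
        · show ‖D.P (D.s z)‖ ≤ 1
          rw [D.P_s, hz]
        · exact (D.P_ball hy).trans (by norm_num)
      · have h3 : {y | ‖D.P y‖ ≤ 1} = D.P ⁻¹' (Metric.closedBall 0 1) := by
          ext y; simp
        rw [h3]
        exact (convex_closedBall (0:ℂ) 1).is_linear_preimage D.P.isLinear
    have h3 : IsClosed {y : E | ‖D.P y‖ ≤ 1} := isClosed_le D.P.continuous.norm continuous_const
    exact closure_minimal h2 h3 hy
  by_contra hcon
  push Not at hcon
  have hP : 0 < ‖D.P x‖ := lt_of_le_of_lt (apply_nonneg D.N x) hcon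
  obtain ⟨t, ht1, ht2⟩ := exists_between hcon
  have ht : 0 < t := lt_of_le_of_lt (apply_nonneg D.N x) ht1
  have h2 : D.N (t⁻¹ • x) ≤ 1 := by
    rw [map_smul_eq_mul, Real.norm_of_nonneg (by positivity), inv_mul_le_iff₀ ht]
    linarith
  have h3 := h1 _ h2
  rw [map_smul, norm_smul, Real.norm_of_nonneg (by positivity), inv_mul_le_iff₀ ht] at h3
  linarith

theorem N_s_le (z : ℂ) : D.N (D.s z) ≤ ‖z‖ := by
  by_cases hz : z = 0
  · rw [hz, s_zero, map_zero, norm_zero]
  · have hz' : 0 < ‖z‖ := norm_pos_iff.2 hz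
    have h1 : z = ‖z‖ • (‖z‖⁻¹ • z) := by
      rw [smul_smul, mul_inv_cancel₀ hz'.ne', one_smul]
    have h2 : D.N (D.s (‖z‖⁻¹ • z)) ≤ 1 := by
      rw [D.N_le_one_iff]
      apply subset_closure
      apply subset_convexHull ℝ _
      left
      refine ⟨_, ?_, rfl⟩
      rw [norm_smul, norm_inv, norm_norm, inv_mul_cancel₀ hz'.ne']
    rw [h1, D.s_smul, map_smul_eq_mul, norm_norm]
    rw [← h1]
    calc ‖z‖ * D.N (D.s (‖z‖⁻¹ • z)) ≤ ‖z‖ * 1 := mul_le_mul_of_nonneg_left h2 hz'.le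
      _ = ‖z‖ := mul_one _

/-- The key point: the fibres of the closed unit ball over the unit circle are single points. -/
theorem fibre_le {y : E} (hy : y ∈ closure D.S) (hP : ‖D.P y‖ = 1) (ψ : E →L[ℝ] ℝ) :
    ψ y ≤ ψ (D.s (D.P y)) := by
  set z0 := D.P y with hz0
  apply le_of_forall_pos_le_add
  intro ε hε
  -- the modulus of continuity
  have hc : ContinuousAt (fun z => ψ (D.s z)) z0 := (D.s_weak ψ).continuousAt
  obtain ⟨η, hη, hη'⟩ := Metric.continuousAt_iff.1 hc ε hε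
  set B : ℝ := ‖ψ‖ * (‖D.J‖ + 1 + D.del) with hB
  have hdel := D.del_pos
  have hB0 : 0 ≤ B := by positivity
  set K : ℝ := 4 * B / η ^ 2 + 4 * B with hK
  have hK0 : 0 ≤ K := by positivity
  have hsB : ∀ z : ℂ, ‖z‖ = 1 → |ψ (D.s z)| ≤ B := by
    intro z hz
    have h1 : ‖D.s z‖ ≤ ‖D.J‖ + 1 + D.del := by
      have := D.s_norm_le z
      rw [hz, mul_one] at this
      linarith
    calc |ψ (D.s z)| ≤ ‖ψ‖ * ‖D.s z‖ := by rw [← Real.norm_eq_abs]; exact ψ.le_opNorm _
      _ ≤ B := mul_le_mul_of_nonneg_left h1 (norm_nonneg _)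
  have key : D.S ⊆ {y' : E | ψ y' + K * ⟪z0, D.P y'⟫_ℝ ≤ ψ (D.s z0) + K + ε} := by
    apply convexHull_min
    · rintro y' (⟨z, hz, rfl⟩ | hy')
      · show ψ (D.s z) + K * ⟪z0, D.P (D.s z)⟫_ℝ ≤ ψ (D.s z0) + K + ε
        rw [D.P_s]
        have h1 : ‖z0 - z‖ ^ 2 = 2 - 2 * ⟪z0, z⟫_ℝ := by
          rw [norm_sub_sq_real, hP, hz]; ring
        by_cases hd : dist z z0 < η
        · have h2 := hη' hd
          rw [Real.dist_eq] at h2
          have h3 := (abs_lt.1 h2).2
          have h4 : ⟪z0, z⟫_ℝ ≤ 1 := by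
            have : 0 ≤ ‖z0 - z‖ ^ 2 := by positivity
            linarith
          have h5 : K * ⟪z0, z⟫_ℝ ≤ K * 1 := mul_le_mul_of_nonneg_left h4 hK0
          linarith
        · push Not at hd
          rw [dist_eq_norm, norm_sub_rev] at hd
          have h2 : η ^ 2 ≤ ‖z0 - z‖ ^ 2 := pow_le_pow_left₀ hη.le hd 2
          have h3 : η ^ 2 / 2 ≤ 1 - ⟪z0, z⟫_ℝ := by linarith
          have h4 := (abs_le.1 (hsB z hz)).2
          have h5 := (abs_le.1 (hsB z0 hP)).1
          have h6 : 2 * B ≤ K * (1 - ⟪z0, z⟫_ℝ) := by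
            calc 2 * B = (4 * B / η ^ 2) * (η ^ 2 / 2) := by field_simp; ring
              _ ≤ K * (1 - ⟪z0, z⟫_ℝ) := by
                apply mul_le_mul _ h3 (by positivity) hK0
                rw [hK]; linarith
          linarith
      · show ψ y' + K * ⟪z0, D.P y'⟫_ℝ ≤ ψ (D.s z0) + K + ε
        have h1 : ⟪z0, D.P y'⟫_ℝ ≤ 1 / 2 := by
          calc ⟪z0, D.P y'⟫_ℝ ≤ ‖z0‖ * ‖D.P y'‖ := real_inner_le_norm _ _
            _ ≤ 1 * (1 / 2) := mul_le_mul hP.le (D.P_ball hy') (norm_nonneg _) zero_le_one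
            _ = 1 / 2 := by norm_num
        have h2 : |ψ y'| ≤ B := by
          rw [mem_ball_zero_iff] at hy'
          have h3 : ‖y'‖ ≤ ‖D.J‖ + 1 + D.del := by
            have : 0 ≤ ‖D.J‖ := norm_nonneg _
            linarith
          calc |ψ y'| ≤ ‖ψ‖ * ‖y'‖ := by rw [← Real.norm_eq_abs]; exact ψ.le_opNorm _
            _ ≤ B := mul_le_mul_of_nonneg_left h3 (norm_nonneg _)
        have h4 := (abs_le.1 h2).2
        have h5 := (abs_le.1 (hsB z0 hP)).1
        have h6 : K * ⟪z0, D.P y'⟫_ℝ ≤ K * (1 / 2) := mul_le_mul_of_nonneg_left h1 hK0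
        have h7 : 4 * B ≤ K := by
          have : 0 ≤ 4 * B / η ^ 2 := by positivity
          linarith
        linarith
    · have h1 : IsLinearMap ℝ (fun y' : E => ψ y' + K * ⟪z0, D.P y'⟫_ℝ) := by
        constructor
        · intro a b
          simp only [map_add, inner_add_right]; ring
        · intro c a
          simp only [map_smul, inner_smul_right, smul_eq_mul]; ring
      exact convex_halfSpace_le h1 _
  have hclosed : IsClosed {y' : E | ψ y' + K * ⟪z0, D.P y'⟫_ℝ ≤ ψ (D.s z0) + K + ε} := by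
    apply isClosed_le _ continuous_const
    apply ψ.continuous.add
    apply continuous_const.mul
    exact Continuous.inner continuous_const D.P.continuous
  have h1 : ψ y + K * ⟪z0, D.P y⟫_ℝ ≤ ψ (D.s z0) + K + ε := closure_minimal key hclosed hy
  have h2 : ⟪z0, D.P y⟫_ℝ = 1 := by
    rw [← hz0, real_inner_self_eq_norm_sq, hP]; norm_num
  rw [h2] at h1
  linarith

theorem fibre {y : E} (hy : y ∈ closure D.S) (hP : ‖D.P y‖ = 1) : y = D.s (D.P y) := by
  by_contra hne
  obtain ⟨ψ, -, hψ⟩ := exists_dual_vector ℝ (y - D.s (D.P y)) (by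
    rw [norm_ne_zero_iff, sub_ne_zero]; exact hne)
  have h1 := D.fibre_le hy hP ψ
  have h2 := D.fibre_le hy hP (-ψ)
  have h3 : ψ (y - D.s (D.P y)) = 0 := by
    rw [map_sub]
    have h4 : (-ψ) y = -(ψ y) := rfl
    have h5 : (-ψ) (D.s (D.P y)) = -(ψ (D.s (D.P y))) := rfl
    rw [h4, h5] at h2
    linarith
  rw [h3] at hψ
  have h4 : ‖y - D.s (D.P y)‖ = 0 := by simpa using hψ.symm
  rw [norm_eq_zero, sub_eq_zero] at h4
  exact hne h4

theorem eq_of_N_le {x : E} (h : D.N x ≤ ‖D.P x‖) : x = D.s (D.P x) := by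
  by_cases h0 : D.P x = 0
  · rw [h0, norm_zero] at h
    have h1 := D.N_lower x
    have h2 : 0 < 1 / (‖D.J‖ + 1 + D.del) := by
      have := D.del_pos
      positivity
    have h3 : ‖x‖ ≤ 0 := by
      by_contra hcon
      push Not at hcon
      have := mul_pos h2 hcon
      linarith
    have h4 : x = 0 := norm_le_zero_iff.1 h3
    rw [h0, h4, s_zero]
  · have hp : 0 < ‖D.P x‖ := norm_pos_iff.2 h0
    set t := ‖D.P x‖ with ht
    have h1 : D.N (t⁻¹ • x) ≤ 1 := by
      rw [map_smul_eq_mul, Real.norm_of_nonneg (by positivity), inv_mul_le_iff₀ hp]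
      linarith
    have h2 : ‖D.P (t⁻¹ • x)‖ = 1 := by
      rw [map_smul, norm_smul, Real.norm_of_nonneg (by positivity), ← ht, inv_mul_cancel₀ hp.ne']
    have h3 := D.fibre (D.N_le_one_iff.1 h1) h2
    rw [map_smul, D.s_smul] at h3
    have h4 := congrArg (fun y => t • y) h3
    simp only [smul_smul, mul_inv_cancel₀ hp.ne', one_smul] at h4
    exact h4

/-- the metric projection onto the kernel of `P` -/
noncomputable def proj (x : E) : E := x - D.s (D.P x)

theorem P_proj (x : E) : D.P (D.proj x) = 0 := by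
  unfold proj
  rw [map_sub, D.P_s, sub_self]

theorem proj_spec (x g : E) :
    (D.P g = 0 ∧ ∀ g' : E, D.P g' = 0 → D.N (x - g) ≤ D.N (x - g')) ↔ g = D.proj x := by
  constructor
  · rintro ⟨hg, h⟩
    have h1 := h (D.proj x) (D.P_proj x)
    have h2 : x - D.proj x = D.s (D.P x) := by unfold proj; abel
    rw [h2] at h1
    have h3 : D.P (x - g) = D.P x := by rw [map_sub, hg, sub_zero]
    have h4 : D.N (x - g) ≤ ‖D.P (x - g)‖ := by
      rw [h3]; exact h1.trans (D.N_s_le _)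
    have h5 := D.eq_of_N_le h4
    rw [h3] at h5
    unfold proj
    rw [← h5]; abel
  · rintro rfl
    refine ⟨D.P_proj x, fun g' hg' => ?_⟩
    have h2 : x - D.proj x = D.s (D.P x) := by unfold proj; abel
    rw [h2]
    calc D.N (D.s (D.P x)) ≤ ‖D.P x‖ := D.N_s_le _
      _ = ‖D.P (x - g')‖ := by rw [map_sub, hg', sub_zero]
      _ ≤ D.N (x - g') := D.P_le_N _

theorem proj_not_continuous : ¬ Continuous D.proj := by
  intro h
  have h1 : Tendsto (fun n => D.proj (D.J (dir n))) atTop (𝓝 (D.proj (D.J 1))) :=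
    (h.tendsto _).comp ((D.J.continuous.tendsto 1).comp tendsto_dir)
  have h2 : ∀ z : ℂ, D.proj (D.J z) = - HH D.e z := by
    intro z
    unfold proj s
    rw [D.PJ]; abel
  have h3 : HH D.e 1 = 0 := HH_of_zero _ phi_one
  rw [h2, h3, neg_zero] at h1
  have h4 : ∀ n, D.proj (D.J (dir n)) = - D.e n := by
    intro n
    rw [h2, HH_of_ne D.e (n := n) (by rw [phi_dir]; exact one_ne_zero), phi_dir, one_smul]
  simp only [h4] at h1
  have h5 := h1.norm
  simp only [norm_neg, D.he, norm_zero] at h5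
  exact one_ne_zero (tendsto_nhds_unique tendsto_const_nhds h5)

end Dat

end Pool.Agent.H591R3.MP
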