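import Pool.Agent.H591R3.MPb

set_option autoImplicit false

open Set Filter Topology

namespace Pool.Agent.H591R3.MP

variable {E : Type} [NormedAddCommGroup E] [NormedSpace ℝ E]

/-- a continuous functional is continuous for the weak topology -/
theorem weak_cont_dual (ψ : E →L[ℝ] ℝ) :
    Continuous (fun x : WeakSpace ℝ E => ψ ((toWeakSpace ℝ E).symm x)) :=
  WeakBilin.eval_continuous (topDualPairing ℝ E).flip ψ

/-- the weak continuity of a map can be tested by functionals -/
theorem weak_cont_iff (p : E → E) :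
    Continuous (fun x : WeakSpace ℝ E => toWeakSpace ℝ E (p ((toWeakSpace ℝ E).symm x))) ↔
      ∀ ψ : E →L[ℝ] ℝ, Continuous (fun x : WeakSpace ℝ E => ψ (p ((toWeakSpace ℝ E).symm x))) := by
  constructor
  · intro h ψ
    exact (weak_cont_dual ψ).comp h
  · intro h
    exact WeakBilin.continuous_of_continuous_eval (topDualPairing ℝ E).flip h

theorem Dat.proj_weak (D : Dat E) :
    Continuous (fun x : WeakSpace ℝ E => toWeakSpace ℝ E (D.proj ((toWeakSpace ℝ E).symm x))) := by
  rw [weak_cont_iff]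
  intro ψ
  have h1 : (fun x : WeakSpace ℝ E => ψ (D.proj ((toWeakSpace ℝ E).symm x))) =
      fun x : WeakSpace ℝ E => ψ ((toWeakSpace ℝ E).symm x) -
        ψ (D.s (D.P ((toWeakSpace ℝ E).symm x))) := by
    funext x
    unfold Dat.proj
    rw [map_sub]
  rw [h1]
  apply (weak_cont_dual ψ).sub
  have h2 : Continuous (fun x : WeakSpace ℝ E => D.P ((toWeakSpace ℝ E).symm x)) := by
    have h3 := weak_cont_dual (Complex.reCLM.comp D.P)
    have h4 := weak_cont_dual (Complex.imCLM.comp D.P)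
    have h5 : (fun x : WeakSpace ℝ E => D.P ((toWeakSpace ℝ E).symm x)) = fun x =>
        (((Complex.reCLM.comp D.P) ((toWeakSpace ℝ E).symm x) : ℝ) : ℂ) +
        (((Complex.imCLM.comp D.P) ((toWeakSpace ℝ E).symm x) : ℝ) : ℂ) * Complex.I := by
      funext x
      exact (Complex.re_add_im _).symm
    rw [h5]
    exact (Complex.continuous_ofReal.comp h3).add
      ((Complex.continuous_ofReal.comp h4).mul continuous_const)
  exact (D.s_weak ψ).comp h2

/-- the Schur property -/
def Schur (E : Type) [NormedAddCommGroup E] [NormedSpace ℝ E] : Prop :=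
  ∀ (u : ℕ → E) (x : E), (∀ ψ : E →L[ℝ] ℝ, Tendsto (fun n => ψ (u n)) atTop (𝓝 (ψ x))) →
    Tendsto u atTop (𝓝 x)

/-- a space without the Schur property contains a weakly null sequence of unit vectors in the
kernel of a given finite rank map with a right inverse -/
theorem exists_null (h : ¬ Schur E) :
    ∃ w : ℕ → E, (∀ n, ‖w n‖ = 1) ∧ ∀ ψ : E →L[ℝ] ℝ, Tendsto (fun n => ψ (w n)) atTop (𝓝 0) := by
  unfold Schur at h
  push Not at h
  obtain ⟨u, x, h1, h2⟩ := h
  rw [Metric.tendsto_atTop] at h2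
  push Not at h2
  obtain ⟨δ, hδ, h3⟩ := h2
  choose k hk1 hk2 using h3
  have hd : ∀ n, δ ≤ ‖u (k n) - x‖ := fun n => by rw [← dist_eq_norm]; exact hk2 n
  have hpos : ∀ n, 0 < ‖u (k n) - x‖ := fun n => lt_of_lt_of_le hδ (hd n)
  refine ⟨fun n => ‖u (k n) - x‖⁻¹ • (u (k n) - x), fun n => ?_, fun ψ => ?_⟩
  · show ‖‖u (k n) - x‖⁻¹ • (u (k n) - x)‖ = 1
    rw [norm_smul, norm_inv, norm_norm, inv_mul_cancel₀ (hpos n).ne']
  · have hk : Tendsto k atTop atTop := tendsto_atTop_mono hk1 tendsto_id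
    have h4 : Tendsto (fun n => ψ (u (k n)) - ψ x) atTop (𝓝 0) := by
      have := ((h1 ψ).comp hk).sub_const (ψ x)
      simpa using this
    have h5 : Tendsto (fun n => δ⁻¹ * |ψ (u (k n)) - ψ x|) atTop (𝓝 0) := by
      have := (h4.abs).const_mul δ⁻¹
      simpa using this
    apply squeeze_zero_norm _ h5
    intro n
    show ‖ψ (‖u (k n) - x‖⁻¹ • (u (k n) - x))‖ ≤ _
    rw [map_smul, norm_smul, norm_inv, norm_norm, map_sub, Real.norm_eq_abs]
    apply mul_le_mul_of_nonneg_right _ (abs_nonneg _)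
    exact inv_anti₀ hδ (hd n)

theorem exists_dat (h : ¬ Schur E) : Nonempty (Dat E) := by
  obtain ⟨w, hw1, hw2⟩ := exists_null h
  -- first functional
  have hw0 : w 0 ≠ 0 := by
    intro h0
    have := hw1 0
    rw [h0, norm_zero] at this
    exact zero_ne_one this
  obtain ⟨f1, hf1n, hf1⟩ := exists_dual_vector ℝ (w 0) (by rw [norm_ne_zero_iff]; exact hw0)
  have hf1' : f1 (w 0) = 1 := by rw [hf1, hw1]; simp
  -- the second vector
  obtain ⟨m, hm⟩ : ∃ m, |f1 (w m)| < 1 / 2 := by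
    have := (hw2 f1).eventually (Metric.ball_mem_nhds (0:ℝ) (by norm_num : (0:ℝ) < 1 / 2))
    obtain ⟨m, hm⟩ := this.exists
    rw [Real.dist_eq, sub_zero] at hm
    exact ⟨m, hm⟩
  set v : E := w m - f1 (w m) • w 0 with hv
  have hf1v : f1 v = 0 := by
    rw [hv, map_sub, map_smul, hf1', smul_eq_mul, mul_one, sub_self]
  have hvn : v ≠ 0 := by
    intro h0
    rw [hv, sub_eq_zero] at h0
    have h1 := hw1 m
    rw [h0, norm_smul, hw1 0, mul_one, Real.norm_eq_abs] at h1
    linarith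
  obtain ⟨f2, -, hf2⟩ := exists_dual_vector ℝ v (by rw [norm_ne_zero_iff]; exact hvn)
  have hvp : 0 < ‖v‖ := norm_pos_iff.2 hvn
  have hf2' : f2 v = ‖v‖ := by simpa using hf2
  -- the second functional
  set g2 : E →L[ℝ] ℝ := ‖v‖⁻¹ • (f2 - f2 (w 0) • f1) with hg2
  have hg2w : g2 (w 0) = 0 := by
    rw [hg2]
    simp [hf1']
  have hg2v : g2 v = 1 := by
    rw [hg2]
    simp [hf1v, hf2', hvp.ne']
  -- the maps
  set P : E →L[ℝ] ℂ := (Complex.ofRealCLM.comp f1) +
    ((Complex.I • (Complex.ofRealCLM : ℝ →L[ℝ] ℂ)).comp g2) with hP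
  have hPa : ∀ x, P x = (f1 x : ℂ) + (g2 x : ℂ) * Complex.I := by
    intro x
    rw [hP]
    simp [mul_comm]
  set J : ℂ →L[ℝ] E := Complex.reCLM.smulRight (w 0) + Complex.imCLM.smulRight v with hJ
  have hJa : ∀ z : ℂ, J z = z.re • w 0 + z.im • v := by
    intro z; rw [hJ]; simp
  have hPJ : ∀ z, P (J z) = z := by
    intro z
    rw [hPa, hJa]
    have h1 : f1 (z.re • w 0 + z.im • v) = z.re := by
      rw [map_add, map_smul, map_smul, hf1', hf1v]; simp
    have h2 : g2 (z.re • w 0 + z.im • v) = z.im := by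
      rw [map_add, map_smul, map_smul, hg2w, hg2v]; simp
    rw [h1, h2]
    exact Complex.re_add_im z
  -- the modified sequence
  have hPw : Tendsto (fun n => P (w n)) atTop (𝓝 0) := by
    have h1 : Tendsto (fun n => ((f1 (w n) : ℝ) : ℂ) + ((g2 (w n) : ℝ) : ℂ) * Complex.I) atTop
        (𝓝 (((0:ℝ) : ℂ) + ((0:ℝ) : ℂ) * Complex.I)) :=
      ((Complex.continuous_ofReal.tendsto 0).comp (hw2 f1)).add
        (((Complex.continuous_ofReal.tendsto 0).comp (hw2 g2)).mul_const _)
    have h2 : (fun n => P (w n)) = fun n => ((f1 (w n) : ℝ) : ℂ) + ((g2 (w n) : ℝ) : ℂ) * Complex.I := by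
      funext n; exact hPa _
    rw [h2]
    simpa using h1
  have hJPw : Tendsto (fun n => J (P (w n))) atTop (𝓝 0) := by
    have := (J.continuous.tendsto 0).comp hPw
    rwa [map_zero] at this
  obtain ⟨M, hM⟩ := Metric.tendsto_atTop.1 hJPw (1 / 2) (by norm_num)
  have hlow : ∀ n, 1 / 2 ≤ ‖w (n + M) - J (P (w (n + M)))‖ := by
    intro n
    have h1 := hM (n + M) (by omega)
    rw [dist_zero_right] at h1
    have h2 : ‖w (n + M)‖ - ‖J (P (w (n + M)))‖ ≤ ‖w (n + M) - J (P (w (n + M)))‖ :=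
      norm_sub_norm_le _ _
    rw [hw1] at h2
    linarith
  have hlow' : ∀ n, 0 < ‖w (n + M) - J (P (w (n + M)))‖ := fun n =>
    lt_of_lt_of_le (by norm_num) (hlow n)
  refine ⟨{ P := P, J := J, PJ := hPJ
            e := fun n => ‖w (n + M) - J (P (w (n + M)))‖⁻¹ • (w (n + M) - J (P (w (n + M))))
            he := fun n => ?_
            Pe := fun n => ?_
            hw := fun ψ => ?_ }⟩
  · show ‖‖w (n + M) - J (P (w (n + M)))‖⁻¹ • (w (n + M) - J (P (w (n + M))))‖ = 1
    rw [norm_smul, norm_inv, norm_norm, inv_mul_cancel₀ (hlow' n).ne']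
  · rw [map_smul, map_sub, hPJ, sub_self, smul_zero]
  · have h1 : Tendsto (fun n => ψ (w (n + M)) - ψ (J (P (w (n + M))))) atTop (𝓝 0) := by
      have h2 : Tendsto (fun n => ψ (J (P (w n)))) atTop (𝓝 0) := by
        have := (ψ.continuous.tendsto 0).comp hJPw
        rwa [map_zero] at this
      have h3 := (hw2 ψ).sub h2
      rw [sub_zero] at h3
      exact h3.comp (tendsto_add_atTop_nat M)
    have h5 : Tendsto (fun n => 2 * |ψ (w (n + M)) - ψ (J (P (w (n + M))))|) atTop (𝓝 0) := by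
      have := (h1.abs).const_mul 2
      simpa using this
    apply squeeze_zero_norm _ h5
    intro n
    show ‖ψ (‖w (n + M) - J (P (w (n + M)))‖⁻¹ • (w (n + M) - J (P (w (n + M)))))‖ ≤ _
    rw [map_smul, norm_smul, norm_inv, norm_norm, map_sub, Real.norm_eq_abs]
    apply mul_le_mul_of_nonneg_right _ (abs_nonneg _)
    have := inv_anti₀ (by norm_num : (0:ℝ) < 1 / 2) (hlow n)
    simpa using this

end Pool.Agent.H591R3.MP
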