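import Pool.Agent.H181R5.NLT.Stmts

set_option autoImplicit false

namespace Pool.Agent.H591R3.NLT

open Finset Pool.Agent.H181R5.NLT

/-- `q` is a good path for the pair `e` -/
structure OK {V : Type} (D : V → V → Prop) (S : Finset V) (L : ℕ) {m : ℕ} (u : Fin m → V)
    (e : Fin m × Fin m) (q : ℕ × (ℕ → V)) : Prop where
  one : 1 ≤ q.1
  le : q.1 ≤ L
  zero : q.2 0 = u e.1
  last : q.2 q.1 = u e.2
  arc : ∀ t, t < q.1 → D (q.2 t) (q.2 (t + 1))
  mem : ∀ t, 0 < t → t < q.1 → q.2 t ∈ S
  ne : ∀ t k, 0 < t → t < q.1 → q.2 t ≠ u k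
  inj : ∀ t t', t ≤ q.1 → t' ≤ q.1 → q.2 t = q.2 t' → t = t'

theorem greedy {V : Type} [Fintype V] [DecidableEq V] (D : V → V → Prop)
    (S : Finset V) (h L m : ℕ)
    (hSP : ∀ U : Finset V, U ⊆ S → U.card ≤ h → ∀ a ∈ S \ U, ∀ b ∈ S \ U, a ≠ b →
      ShortPath D S U L a b) (hm : m + m ^ 2 * L ≤ h) (u : Fin m → V)
    (hu : Function.Injective u) (huS : ∀ i, u i ∈ S) (P : Finset (Fin m × Fin m)) :
    (∀ e ∈ P, e.1 < e.2) → ∃ f : Fin m × Fin m → ℕ × (ℕ → V), (∀ e ∈ P, OK D S L u e (f e)) ∧
      ∀ e ∈ P, ∀ e' ∈ P, e ≠ e' → ∀ t t', 0 < t → t < (f e).1 → 0 < t' → t' < (f e').1 →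
        (f e).2 t ≠ (f e').2 t' := by
  induction P using Finset.induction_on with
  | empty =>
    intro _
    exact ⟨fun e => (0, fun _ => u e.1), by simp, by simp⟩
  | insert e P he ih =>
    intro hlt
    obtain ⟨f, hOK, hdis⟩ := ih (fun e' he' => hlt e' (mem_insert_of_mem he'))
    have helt : e.1 < e.2 := hlt e (mem_insert_self e P)
    let U : Finset V := (univ.filter fun k => k ≠ e.1 ∧ k ≠ e.2).image u ∪
      P.biUnion (fun e' => (Finset.Ioo 0 (f e').1).image (f e').2)
    have hUS : U ⊆ S := by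
      intro x hx
      simp only [U, mem_union, mem_image, mem_biUnion, mem_filter, mem_univ, true_and,
        Finset.mem_Ioo] at hx
      rcases hx with ⟨k, _, rfl⟩ | ⟨e', he', t, ht, rfl⟩
      · exact huS k
      · exact (hOK e' he').mem t ht.1 ht.2
    have hU1 : ((univ.filter fun k => k ≠ e.1 ∧ k ≠ e.2).image u).card ≤ m := by
      refine card_image_le.trans ((card_filter_le _ _).trans ?_)
      rw [card_univ, Fintype.card_fin]
    have hPc : P.card ≤ m ^ 2 := by
      refine (card_le_univ P).trans ?_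
      rw [Fintype.card_prod, Fintype.card_fin, pow_two]
    have hU2 : (P.biUnion (fun e' => (Finset.Ioo 0 (f e').1).image (f e').2)).card ≤
        m ^ 2 * L := by
      refine (card_biUnion_le_card_mul P _ L ?_).trans (Nat.mul_le_mul_right L hPc)
      intro e' he'
      refine card_image_le.trans ?_
      rw [Nat.card_Ioo]
      have := (hOK e' he').le
      omega
    have hUc : U.card ≤ h := (card_union_le _ _).trans ((add_le_add hU1 hU2).trans hm)
    have hends : ∀ k : Fin m, (k = e.1 ∨ k = e.2) → u k ∈ S \ U := by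
      intro k hk
      rw [mem_sdiff]
      refine ⟨huS k, ?_⟩
      intro hx
      simp only [U, mem_union, mem_image, mem_biUnion, mem_filter, mem_univ, true_and,
        Finset.mem_Ioo] at hx
      rcases hx with ⟨k', hk', hkk⟩ | ⟨e', he', t, ht, hkk⟩
      · have := hu hkk
        rw [this] at hk'
        rcases hk with hk | hk
        · exact hk'.1 hk
        · exact hk'.2 hk
      · exact (hOK e' he').ne t k ht.1 ht.2 hkk
    have hne : u e.1 ≠ u e.2 := fun h => helt.ne (hu h)
    obtain ⟨n, p, h1, h2, h3, h4, h5, h6, h7⟩ := hSP U hUS hUc (u e.1) (hends e.1 (Or.inl rfl))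
      (u e.2) (hends e.2 (Or.inr rfl)) hne
    have hnew : OK D S L u e (n, p) := by
      refine ⟨h1, h2, h3, h4, h5, ?_, ?_, h7⟩
      · intro t _ ht
        exact (mem_sdiff.1 (h6 t ht.le)).1
      · intro t k ht0 ht hk
        by_cases hk1 : k = e.1
        · have : p t = p 0 := by rw [h3, ← hk1]; exact hk
          have := h7 t 0 ht.le (Nat.zero_le _) this
          omega
        · by_cases hk2 : k = e.2
          · have : p t = p n := by rw [h4, ← hk2]; exact hk
            have := h7 t n ht.le le_rfl this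
            simp only at ht
            omega
          · apply (mem_sdiff.1 (h6 t ht.le)).2
            simp only [U, mem_union, mem_image, mem_filter, mem_univ, true_and]
            exact Or.inl ⟨k, ⟨hk1, hk2⟩, hk.symm⟩
    have hU3 : ∀ e' ∈ P, ∀ t t', 0 < t' → t' < (f e').1 → t ≤ n → p t ≠ (f e').2 t' := by
      intro e' he' t t' ht0 ht' htn heq
      apply (mem_sdiff.1 (h6 t htn)).2
      simp only [U, mem_union, mem_biUnion, mem_image, Finset.mem_Ioo]
      exact Or.inr ⟨e', he', t', ⟨ht0, ht'⟩, heq.symm⟩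
    have hPe : ∀ e' ∈ P, e' ≠ e := fun e' he' h => he (h ▸ he')
    refine ⟨Function.update f e (n, p), ?_, ?_⟩
    · intro e' he'
      rw [mem_insert] at he'
      rcases he' with rfl | he'
      · rw [Function.update_self]
        exact hnew
      · rw [Function.update_of_ne (hPe e' he')]
        exact hOK e' he'
    · intro e1 he1 e2 he2 h12 t t' ht0 ht ht0' ht'
      rw [mem_insert] at he1 he2
      rcases he1 with rfl | he1
      · rcases he2 with rfl | he2
        · exact absurd rfl h12
        · rw [Function.update_self] at ht ⊢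
          rw [Function.update_of_ne (hPe e2 he2)] at ht' ⊢
          exact hU3 e2 he2 t t' ht0' ht' (le_of_lt ht)
      · rcases he2 with rfl | he2
        · rw [Function.update_self] at ht' ⊢
          rw [Function.update_of_ne (hPe e1 he1)] at ht ⊢
          exact (hU3 e1 he1 t' t ht0 ht (le_of_lt ht')).symm
        · rw [Function.update_of_ne (hPe e1 he1)] at ht ⊢
          rw [Function.update_of_ne (hPe e2 he2)] at ht' ⊢
          exact hdis e1 he1 e2 he2 h12 t t' ht0 ht ht0' ht'

theorem taskGreedy : TaskGreedy := by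
  intro V _ _ D S h L m hSP hm hmS
  obtain ⟨T, hTS, hT⟩ := Finset.exists_subset_card_eq hmS
  let eT : T ≃ Fin m := T.equivFinOfCardEq hT
  let u : Fin m → V := fun i => (eT.symm i : V)
  have hu : Function.Injective u := fun i j hij => eT.symm.injective (Subtype.ext hij)
  have huS : ∀ i, u i ∈ S := fun i => hTS (eT.symm i).2
  obtain ⟨f, hOK, hdis⟩ := greedy D S h L m hSP hm u hu huS
    (univ.filter fun e : Fin m × Fin m => e.1 < e.2) (by simp)
  have hOK' : ∀ i j : Fin m, i < j → OK D S L u (i, j) (f (i, j)) := fun i j hij =>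
    hOK (i, j) (by simpa using hij)
  refine ⟨u, fun i j => (f (i, j)).1, fun i j => (f (i, j)).2, hu, huS, ?_, ?_, ?_, ?_, ?_⟩
  · intro i j hij
    exact ⟨(hOK' i j hij).one, (hOK' i j hij).zero, (hOK' i j hij).last⟩
  · intro i j hij t ht
    exact (hOK' i j hij).arc t ht
  · intro i j hij t ht0 ht
    exact (hOK' i j hij).mem t ht0 ht
  · intro i j k hij t ht0 ht
    exact (hOK' i j hij).ne t k ht0 ht
  · intro i j i' j' t t' hij hij' ht0 ht ht0' ht' heq
    by_cases he : (i, j) = (i', j')
    · have h1 : i = i' := congrArg Prod.fst he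
      have h2 : j = j' := congrArg Prod.snd he
      subst h1
      subst h2
      exact ⟨rfl, rfl, (hOK' i j hij).inj t t' (le_of_lt ht) (le_of_lt ht') heq⟩
    · exact absurd heq (hdis (i, j) (by simpa using hij) (i', j') (by simpa using hij') he
        t t' ht0 ht ht0' ht')

end Pool.Agent.H591R3.NLT
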