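import Pool.Agent.H181R5.NLT.Stmts

set_option autoImplicit false

namespace Pool.Agent.H591R3.NLTP

open Finset Pool.Agent.H181R5.NLT

section

variable {V : Type} [DecidableEq V] (D : V → V → Prop) (W : Finset V) (a : V)

open Classical in
/-- the ball of radius `i` -/
noncomputable def R : ℕ → Finset V
  | 0 => {a}
  | i + 1 => R i ∪ W.filter fun v => ∃ r ∈ R i, D r v

theorem R_mono_succ (i : ℕ) : R D W a i ⊆ R D W a (i + 1) := by
  intro x hx
  simp only [R, mem_union]
  exact Or.inl hx

theorem R_mono {i j : ℕ} (h : i ≤ j) : R D W a i ⊆ R D W a j := by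
  induction h with
  | refl => exact fun _ hx => hx
  | step _ ih => exact ih.trans (R_mono_succ D W a _)

theorem R_sub (ha : a ∈ W) (i : ℕ) : R D W a i ⊆ W := by
  induction i with
  | zero => intro x hx; simp only [R, mem_singleton] at hx; exact hx ▸ ha
  | succ i ih =>
    intro x hx
    simp only [R, mem_union, mem_filter] at hx
    rcases hx with h | h
    · exact ih h
    · exact h.1

theorem mem_succ {i : ℕ} {r v : V} (hr : r ∈ R D W a i) (hv : v ∈ W) (h : D r v) :
    v ∈ R D W a (i + 1) := by
  simp only [R, mem_union, mem_filter]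
  exact Or.inr ⟨hv, r, hr, h⟩

theorem path_of (ha : a ∈ W) : ∀ (i : ℕ) (v : V), v ∈ R D W a i → (∀ j < i, v ∉ R D W a j) →
    ∃ p : ℕ → V, p 0 = a ∧ p i = v ∧ (∀ t, t < i → D (p t) (p (t + 1))) ∧
      (∀ t, t ≤ i → p t ∈ R D W a t ∧ ∀ j < t, p t ∉ R D W a j) := by
  intro i
  induction i with
  | zero =>
    intro v hv _
    simp only [R, mem_singleton] at hv
    refine ⟨fun _ => a, rfl, hv.symm, fun t ht => absurd ht (Nat.not_lt_zero _), ?_⟩
    intro t ht
    have : t = 0 := by omega
    subst this
    exact ⟨by simp [R], fun j hj => absurd hj (Nat.not_lt_zero _)⟩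
  | succ i ih =>
    intro v hv hn
    have hv' := hv
    simp only [R, mem_union, mem_filter] at hv'
    rcases hv' with h | ⟨hvW, r, hr, hrv⟩
    · exact absurd h (hn i (Nat.lt_succ_self i))
    · obtain ⟨p, h0, hi, harc, hlev⟩ := ih r hr (by
        intro j hj hrj
        exact hn (j + 1) (by omega) (mem_succ D W a hrj hvW hrv))
      refine ⟨fun t => if t ≤ i then p t else v, ?_, ?_, ?_, ?_⟩
      · simpa using h0
      · simp
      · intro t ht
        rcases Nat.lt_or_ge t i with h | h
        · have h1 : t ≤ i := by omega
          have h2 : t + 1 ≤ i := by omega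
          simp only [h1, h2, if_true]
          exact harc t h
        · have h1 : t = i := by omega
          subst h1
          have h2 : ¬ t + 1 ≤ t := by omega
          simp only [le_refl, if_true, h2, if_false]
          rw [hi]
          exact hrv
      · intro t ht
        rcases Nat.lt_or_ge i t with h | h
        · have h1 : t = i + 1 := by omega
          subst h1
          have h2 : ¬ i + 1 ≤ i := by omega
          simp only [h2, if_false]
          exact ⟨hv, hn⟩
        · simp only [h, if_true]
          exact hlev t h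

end

theorem taskPath : TaskPath := by
  classical
  intro V _ _ D S U k L a b hK hS hUS hU ha hb hab
  set W := S \ U with hW
  have hWS : W ⊆ S := sdiff_subset
  have key : b ∈ R D W a L := by
    by_contra hbL
    have hcard : ∀ i, i ≤ L → 1 + i * (k / 2) ≤ (R D W a i).card := by
      intro i
      induction i with
      | zero => intro _; simp [R]
      | succ i ih =>
        intro hi
        have h1 := ih (by omega)
        have hbi : b ∉ R D W a (i + 1) := fun h => hbL (R_mono D W a hi h)
        have hk : k ≤ (S \ ((W \ R D W a (i + 1)) ∪ R D W a i)).card := by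
          by_contra hlt
          obtain ⟨r, hr, v, hv, hrv⟩ := hK (W \ R D W a (i + 1)) (R D W a i)
            (sdiff_subset.trans hWS) ((R_sub D W a ha i).trans hWS) (by
              rw [Finset.disjoint_left]
              intro x hx hx'
              exact (mem_sdiff.1 hx).2 (R_mono_succ D W a i hx'))
            ⟨b, mem_sdiff.2 ⟨hb, hbi⟩⟩
            ⟨a, R_mono D W a (Nat.zero_le i) (by simp [R])⟩ (by omega)
          exact (mem_sdiff.1 hv).2 (mem_succ D W a hr (mem_sdiff.1 hv).1 hrv)
        have hsub : S \ ((W \ R D W a (i + 1)) ∪ R D W a i) ⊆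
            U ∪ (R D W a (i + 1) \ R D W a i) := by
          intro x hx
          simp only [mem_sdiff, mem_union, not_or, not_and, not_not] at hx ⊢
          obtain ⟨hxS, hx1, hx2⟩ := hx
          by_cases hxU : x ∈ U
          · exact Or.inl hxU
          · exact Or.inr ⟨hx1 (by rw [hW]; exact mem_sdiff.2 ⟨hxS, hxU⟩), hx2⟩
        have h2 := (card_le_card hsub).trans (card_union_le _ _)
        have h3 := card_sdiff_add_card_eq_card (R_mono_succ D W a i)
        have h4 : (i + 1) * (k / 2) = i * (k / 2) + k / 2 := by ring
        omega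
    have h1 := hcard L le_rfl
    have h2 : (R D W a L).card ≤ S.card :=
      card_le_card ((R_sub D W a ha L).trans hWS)
    have h3 : L * (k / 2) = (k / 2) * L := Nat.mul_comm _ _
    omega
  have hex : ∃ n, b ∈ R D W a n := ⟨L, key⟩
  set n := Nat.find hex with hn
  have hbn : b ∈ R D W a n := Nat.find_spec hex
  have hnL : n ≤ L := Nat.find_min' hex key
  have hmin : ∀ j < n, b ∉ R D W a j := fun j hj => Nat.find_min hex hj
  obtain ⟨p, h0, hpn, harc, hlev⟩ := path_of D W a ha n b hbn hmin
  refine ⟨n, p, ?_, hnL, h0, hpn, harc, ?_, ?_⟩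
  · rcases Nat.eq_zero_or_pos n with h | h
    · rw [h] at hbn
      simp only [R, mem_singleton] at hbn
      exact absurd hbn.symm hab
    · exact h
  · intro t ht
    exact R_sub D W a ha t (hlev t ht).1
  · intro t t' ht ht' htt
    rcases Nat.lt_trichotomy t t' with h | h | h
    · exact absurd (htt ▸ (hlev t ht).1) ((hlev t' ht').2 t h)
    · exact h
    · exact absurd (htt ▸ (hlev t' ht').1) ((hlev t ht).2 t' h)

end Pool.Agent.H591R3.NLTP
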