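import Pool.Agent.H285R2.PolyCompat3

/-!
Compatibility of two families of real functions of low degree on the cube with small average
influences (no normalisation of the single functions).
-/

set_option autoImplicit false

namespace Pool.Agent.H591R3.PC

open Finset Pool.Agent.H285R2.PolyCompat

variable {N : ℕ}

/-- The function on the cube attached to a family of coefficients. -/
noncomputable def fn (c : Finset (Fin N) → ℝ) (x : Fin N → Bool) : ℝ := ∑ S, c S * chi S x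

lemma fn_mem {d : ℕ} (c : Finset (Fin N) → ℝ) (hc : ∀ S, c S ≠ 0 → S.card ≤ d) :
    fn c ∈ Deg N d := by
  have h : fn c = ∑ S, c S • chi S := by
    funext x; simp [fn]
  rw [h]
  apply Submodule.sum_mem
  intro S _
  by_cases hS : c S = 0
  · rw [hS, zero_smul]; exact Submodule.zero_mem _
  · exact Submodule.smul_mem _ _ (chi_mem S (hc S hS))

lemma fn_norm (c : Finset (Fin N) → ℝ) : E (fun x => fn c x ^ 2) = ∑ S, c S ^ 2 :=
  parseval c

lemma fn_inf (c : Finset (Fin N) → ℝ) (i : Fin N) :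
    E (fun x => (fn c (flip {i} x) - fn c x) ^ 2) =
      4 * ∑ S ∈ Finset.univ.filter (fun S : Finset (Fin N) => i ∈ S), c S ^ 2 := by
  have h1 : ∀ x, fn c (flip {i} x) - fn c x =
      ∑ S, (if i ∈ S then -2 * c S else 0) * chi S x := by
    intro x
    unfold fn
    rw [← Finset.sum_sub_distrib]
    refine Finset.sum_congr rfl fun S _ => ?_
    rw [chi_flip]
    by_cases h : i ∈ S
    · have : S ∩ {i} = {i} := by ext j; simp; rintro rfl; exact h
      rw [this]; simp [h]; ring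
    · have : S ∩ {i} = ∅ := by ext j; simp; rintro h2 rfl; exact h h2
      rw [this]; simp [h]
  simp only [h1]
  rw [parseval, Finset.mul_sum, Finset.sum_filter]
  refine Finset.sum_congr rfl fun S _ => ?_
  split_ifs <;> ring

/-- The `L¹` influence of the square of a function. -/
lemma sq_inf (c : Finset (Fin N) → ℝ) (i : Fin N) (lam : ℝ) (hl : 0 < lam) :
    E (fun x => |fn c (flip {i} x) ^ 2 - fn c x ^ 2|) ≤
      2 / lam * (∑ S ∈ Finset.univ.filter (fun S : Finset (Fin N) => i ∈ S), c S ^ 2)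
        + 2 * lam * ∑ S, c S ^ 2 := by
  have h1 : ∀ x, |fn c (flip {i} x) ^ 2 - fn c x ^ 2| ≤
      1 / (2 * lam) * (fn c (flip {i} x) - fn c x) ^ 2 +
      lam * (fn c (flip {i} x) ^ 2 + fn c x ^ 2) := by
    intro x
    set u := fn c (flip {i} x)
    set v := fn c x
    have h2 : |u ^ 2 - v ^ 2| = |u - v| * |u + v| := by rw [← abs_mul]; ring_nf
    have h3 : |u - v| * |u + v| ≤ 1 / (2 * lam) * |u - v| ^ 2 + lam / 2 * |u + v| ^ 2 := by
      have h4 : 0 ≤ (|u - v| - lam * |u + v|) ^ 2 := sq_nonneg _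
      have h5 : 1 / (2 * lam) * |u - v| ^ 2 + lam / 2 * |u + v| ^ 2 - |u - v| * |u + v| =
          1 / (2 * lam) * (|u - v| - lam * |u + v|) ^ 2 := by
        field_simp; ring
      have h6 : 0 ≤ 1 / (2 * lam) * (|u - v| - lam * |u + v|) ^ 2 := by positivity
      linarith
    rw [sq_abs, sq_abs] at h3
    have h7 : lam / 2 * (u + v) ^ 2 ≤ lam * (u ^ 2 + v ^ 2) := by
      nlinarith [sq_nonneg (u - v)]
    rw [h2]; linarith
  refine (E_mono h1).trans ?_
  rw [E_add, E_smul, E_smul, E_add, fn_inf, E_flip {i} (fun x => fn c x ^ 2), fn_norm]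
  apply le_of_eq
  field_simp
  ring

variable {ι κ : Type} [Fintype ι] [Fintype κ]

/-- The sum of squares has small `L¹` influences. -/
lemma mix_inf (f : ι → Finset (Fin N) → ℝ) (hf : ∑ k, ∑ S, (f k S) ^ 2 = 1) (i : Fin N)
    (lam : ℝ) (hl : 0 < lam)
    (hi : ∑ k, ∑ S ∈ Finset.univ.filter (fun S : Finset (Fin N) => i ∈ S), (f k S) ^ 2
          ≤ lam ^ 2) :
    E (fun x => |(∑ k, fn (f k) (flip {i} x) ^ 2) - ∑ k, fn (f k) x ^ 2|) ≤ 4 * lam := by
  have h1 : ∀ x, |(∑ k, fn (f k) (flip {i} x) ^ 2) - ∑ k, fn (f k) x ^ 2| ≤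
      ∑ k, |fn (f k) (flip {i} x) ^ 2 - fn (f k) x ^ 2| := by
    intro x
    rw [← Finset.sum_sub_distrib]
    exact Finset.abs_sum_le_sum_abs _ _
  refine (E_mono h1).trans ?_
  rw [E_sum]
  calc _ ≤ ∑ k, (2 / lam * (∑ S ∈ Finset.univ.filter (fun S : Finset (Fin N) => i ∈ S),
        (f k S) ^ 2) + 2 * lam * ∑ S, (f k S) ^ 2) :=
        Finset.sum_le_sum fun k _ => sq_inf (f k) i lam hl
    _ = 2 / lam * (∑ k, ∑ S ∈ Finset.univ.filter (fun S : Finset (Fin N) => i ∈ S),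
        (f k S) ^ 2) + 2 * lam * ∑ k, ∑ S, (f k S) ^ 2 := by
        rw [Finset.mul_sum, Finset.mul_sum, ← Finset.sum_add_distrib]
    _ ≤ 2 / lam * lam ^ 2 + 2 * lam * 1 := by
        rw [hf]
        gcongr
    _ = 4 * lam := by field_simp; ring

lemma mix_E (f : ι → Finset (Fin N) → ℝ) (hf : ∑ k, ∑ S, (f k S) ^ 2 = 1) :
    E (fun x => ∑ k, fn (f k) x ^ 2) = 1 := by
  rw [E_sum]
  simp only [fn_norm, hf]

lemma mix_mem {d : ℕ} (f : ι → Finset (Fin N) → ℝ) (hf : ∀ k S, f k S ≠ 0 → S.card ≤ d) :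
    (fun x => ∑ k, fn (f k) x ^ 2) ∈ Deg N (d + d) := by
  have h : (fun x => ∑ k, fn (f k) x ^ 2) = ∑ k, (fn (f k) * fn (f k)) := by
    funext x; simp [sq]
  rw [h]
  apply Submodule.sum_mem
  intro k _
  exact Deg_mul (fn_mem _ (hf k)) (fn_mem _ (hf k))

/-- Compatibility of two families. -/
theorem compat (d : ℕ) (f : ι → Finset (Fin N) → ℝ) (g : κ → Finset (Fin N) → ℝ)
    (hfd : ∀ k S, f k S ≠ 0 → S.card ≤ d) (hgd : ∀ k S, g k S ≠ 0 → S.card ≤ d)
    (hf1 : ∑ k, ∑ S, (f k S) ^ 2 = 1) (hg1 : ∑ k, ∑ S, (g k S) ^ 2 = 1)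
    (hfi : ∀ i : Fin N, ∑ k, ∑ S ∈ Finset.univ.filter (fun S : Finset (Fin N) => i ∈ S), (f k S) ^ 2
          ≤ 1 / 16384 / ((d : ℝ) + 1) ^ 8)
    (hgi : ∀ i : Fin N, ∑ k, ∑ S ∈ Finset.univ.filter (fun S : Finset (Fin N) => i ∈ S), (g k S) ^ 2
          ≤ 1 / 16384 / ((d : ℝ) + 1) ^ 8) :
    ∃ k l x, fn (f k) x * fn (g l) x ≠ 0 := by
  by_contra hcon
  push Not at hcon
  set P : (Fin N → Bool) → ℝ := fun x => ∑ k, fn (f k) x ^ 2 with hPdef
  set Q : (Fin N → Bool) → ℝ := fun x => ∑ k, fn (g k) x ^ 2 with hQdef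
  have hP0 : ∀ y, 0 ≤ P y := fun y => Finset.sum_nonneg (fun k _ => sq_nonneg _)
  have hPQ : ∀ y, P y = 0 ∨ Q y = 0 := by
    intro y
    by_cases h : ∀ k, fn (f k) y = 0
    · left
      simp [hPdef, h]
    · right
      push Not at h
      obtain ⟨k, hk⟩ := h
      have h2 : ∀ l, fn (g l) y = 0 := fun l => (mul_eq_zero.mp (hcon k l y)).resolve_left hk
      simp [hQdef, h2]
  obtain ⟨a, ha, ha01, haP, haQ⟩ := separate (d + d) (mix_mem f hfd) (mix_mem g hgd) hP0 hPQ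
  set D : ℕ := (d + d) ^ 2 * (d + d) * (d + d) with hD
  set lam : ℝ := 1 / (128 * ((d : ℝ) + 1) ^ 4) with hlam
  have hlpos : 0 < lam := by positivity
  have hlam2 : (1 / 16384 : ℝ) / ((d : ℝ) + 1) ^ 8 = lam ^ 2 := by
    rw [hlam]; field_simp; norm_num
  have hPi : ∀ i, E (fun x => |P (flip {i} x) - P x|) ≤ 2 * (2 * lam) := by
    intro i
    have := mix_inf f hf1 i lam hlpos (by rw [← hlam2]; exact hfi i)
    calc _ ≤ 4 * lam := this
      _ = _ := by ring
  have hQi : ∀ i, E (fun x => |Q (flip {i} x) - Q x|) ≤ 2 * (2 * lam) := by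
    intro i
    have := mix_inf g hg1 i lam hlpos (by rw [← hlam2]; exact hgi i)
    calc _ ≤ 4 * lam := this
      _ = _ := by ring
  have h01 : ∀ x, 0 ≤ a x ∧ a x ≤ 1 := by
    intro x
    rcases ha01 x with h | h <;> rw [h] <;> norm_num
  have hcovP := osss (by positivity) hPi D ha h01
  have hcovQ := osss (by positivity) hQi D ha h01
  have hEP : E P = 1 := mix_E f hf1
  have hEQ : E Q = 1 := mix_E g hg1
  have h1 : (fun x => a x * P x) = P := by
    funext x
    rcases ha01 x with h | h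
    · have h' : P x = 0 := haP x h
      rw [h', mul_zero]
    · rw [h, one_mul]
  have h2 : (fun x => a x * Q x) = fun _ => 0 := by
    funext x
    rcases ha01 x with h | h
    · rw [h, zero_mul]
    · have h' : Q x = 0 := haQ x h
      rw [h', mul_zero]
  rw [h1, hEP, mul_one] at hcovP
  rw [h2, hEQ, mul_one, E_const] at hcovQ
  have h3 : (D : ℝ) * (2 * lam) ≤ 1 / 4 := by
    have h4 : (D : ℝ) = 16 * (d : ℝ) ^ 4 := by rw [hD]; push_cast; ring
    rw [h4, hlam]
    have h5 : (d : ℝ) ^ 4 ≤ ((d : ℝ) + 1) ^ 4 := by gcongr; linarith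
    have h6 : 0 < ((d : ℝ) + 1) ^ 4 := by positivity
    rw [show 16 * (d : ℝ) ^ 4 * (2 * (1 / (128 * ((d : ℝ) + 1) ^ 4))) =
      (d : ℝ) ^ 4 / ((d : ℝ) + 1) ^ 4 * (1 / 4) by field_simp; ring]
    have h7 : (d : ℝ) ^ 4 / ((d : ℝ) + 1) ^ 4 ≤ 1 := by rw [div_le_one h6]; exact h5
    linarith
  rw [abs_le] at hcovP hcovQ
  linarith [hcovP.1, hcovP.2, hcovQ.1, hcovQ.2]

/-! ### Fourier inversion on the cube -/

lemma sg_mul_eq (a b : Bool) : 1 + sg a * sg b = if a = b then 2 else 0 := by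
  cases a <;> cases b <;> norm_num [sg]

lemma sum_chi_chi (x y : Fin N → Bool) :
    ∑ S : Finset (Fin N), chi S x * chi S y = if x = y then (2 : ℝ) ^ N else 0 := by
  have h1 : ∑ S : Finset (Fin N), chi S x * chi S y = ∏ i : Fin N, (1 + sg (x i) * sg (y i)) := by
    rw [Finset.prod_one_add, Finset.powerset_univ]
    refine Finset.sum_congr rfl fun S _ => ?_
    unfold chi
    rw [← Finset.prod_mul_distrib]
  rw [h1]
  simp only [sg_mul_eq]
  by_cases h : x = y
  · subst h; simp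
  · rw [if_neg h]
    obtain ⟨i, hi⟩ := Function.ne_iff.1 h
    exact Finset.prod_eq_zero (Finset.mem_univ i) (if_neg hi)

lemma inversion (h : (Fin N → Bool) → ℝ) (x : Fin N → Bool) :
    fn (fun S => (∑ y, h y * chi S y) / 2 ^ N) x = h x := by
  unfold fn
  have h1 : ∀ S : Finset (Fin N), (∑ y, h y * chi S y) / 2 ^ N * chi S x =
      ∑ y, h y / 2 ^ N * (chi S y * chi S x) := by
    intro S
    rw [Finset.sum_div, Finset.sum_mul]
    refine Finset.sum_congr rfl fun y _ => by ring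
  simp only [h1]
  rw [Finset.sum_comm]
  simp only [← Finset.mul_sum, sum_chi_chi]
  rw [Finset.sum_eq_single x]
  · simp
  · intro y _ hy; rw [if_neg hy, mul_zero]
  · simp

lemma norm_sq_eq (h : (Fin N → Bool) → ℝ) :
    ∑ S : Finset (Fin N), ((∑ y, h y * chi S y) / 2 ^ N) ^ 2 = (∑ x, h x ^ 2) / 2 ^ N := by
  rw [← fn_norm]
  unfold E
  congr 1
  refine Finset.sum_congr rfl fun x _ => ?_
  simp only [inversion]

end Pool.Agent.H591R3.PC
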