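import Pool.Agent.H591R3.PC

/-!
Families of complex functions on `(ZMod 2)^N`.
-/

set_option autoImplicit false

namespace Pool.Agent.H591R3.PC

open Finset Pool.Agent.H285R2.PolyCompat

variable {N : ℕ}

/-- bits as elements of `ZMod 2` -/
def tz : Bool ≃ ZMod 2 := finTwoEquiv.symm

/-- bit vectors as elements of `(ZMod 2)^N` -/
def tv : (Fin N → Bool) ≃ (Fin N → ZMod 2) := Equiv.piCongrRight fun _ => tz

lemma tv_apply (x : Fin N → Bool) (i : Fin N) : tv x i = tz (x i) := rfl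

/-- the nontrivial character of `ZMod 2` -/
noncomputable def psi : AddChar (ZMod 2) ℂ where
  toFun a := (-1) ^ a.val
  map_zero_eq_one' := by simp
  map_add_eq_mul' := by
    intro a b
    rw [← pow_add]
    have h : ∀ a b : ZMod 2, (a + b).val % 2 = (a.val + b.val) % 2 := by decide
    rw [neg_one_pow_eq_pow_mod_two (n := (a + b).val), h,
      ← neg_one_pow_eq_pow_mod_two (n := a.val + b.val)]

lemma psi_apply (a : ZMod 2) : psi a = (-1) ^ a.val := rfl

lemma psi_tz (b : Bool) : psi (tz b) = ((sg b : ℝ) : ℂ) := by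
  rw [psi_apply]
  cases b
  · have : (tz false).val = 0 := by decide
    rw [this]; simp [sg]
  · have : (tz true).val = 1 := by decide
    rw [this]; simp [sg]

lemma psi_ne_one : psi ≠ 1 := by
  intro h
  have h1 : psi (tz true) = 1 := by rw [h]; rfl
  rw [psi_tz] at h1
  simp only [sg, if_true] at h1
  norm_num at h1

/-- the tuple of characters attached to a set -/
noncomputable def cs (S : Finset (Fin N)) : Fin N → AddChar (ZMod 2) ℂ :=
  fun i => if i ∈ S then psi else 1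

lemma cs_ne (S : Finset (Fin N)) (i : Fin N) : cs S i ≠ 1 ↔ i ∈ S := by
  unfold cs
  by_cases h : i ∈ S
  · simp [h, psi_ne_one]
  · simp [h]

lemma cs_inj : Function.Injective (cs (N := N)) := by
  intro S T h
  ext i
  rw [← cs_ne, ← cs_ne, h]

lemma cs_ncard (S : Finset (Fin N)) : {i | cs S i ≠ 1}.ncard = S.card := by
  have : {i | cs S i ≠ 1} = (S : Set (Fin N)) := by
    ext i; rw [Set.mem_ofPred_eq, cs_ne]; rfl
  rw [this, Set.ncard_coe_finset]

lemma prod_cs (S : Finset (Fin N)) (x : Fin N → Bool) :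
    ∏ i, cs S i (tv x i) = ((chi S x : ℝ) : ℂ) := by
  unfold chi
  rw [Complex.ofReal_prod, ← Finset.prod_filter_mul_prod_filter_not univ (fun i => i ∈ S)]
  have h1 : ∏ i ∈ univ.filter (fun i => i ∈ S), cs S i (tv x i) =
      ∏ i ∈ S, ((sg (x i) : ℝ) : ℂ) := by
    have h0 : univ.filter (fun i => i ∈ S) = S := by ext; simp
    rw [h0]
    refine Finset.prod_congr rfl fun i hi => ?_
    unfold cs
    rw [if_pos hi, tv_apply, psi_tz]
  have h2 : ∏ i ∈ univ.filter (fun i => ¬ i ∈ S), cs S i (tv x i) = 1 := by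
    refine Finset.prod_eq_one fun i hi => ?_
    unfold cs
    rw [if_neg (Finset.mem_filter.1 hi).2]
    rfl
  rw [h1, h2, mul_one]

/-- Fourier coefficient -/
noncomputable def FF (h : (Fin N → ZMod 2) → ℂ) (S : Finset (Fin N)) : ℂ :=
  (∑ x, h x * star (∏ j, cs S j (x j))) / 2 ^ N

lemma FF_eq (h : (Fin N → ZMod 2) → ℂ) (S : Finset (Fin N)) :
    FF h S = (∑ y : Fin N → Bool, h (tv y) * ((chi S y : ℝ) : ℂ)) / (((2 : ℝ) ^ N : ℝ) : ℂ) := by
  unfold FF
  rw [← Equiv.sum_comp tv]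
  congr 1
  · refine Finset.sum_congr rfl fun y _ => ?_
    rw [prod_cs, Complex.star_def, Complex.conj_ofReal]
  · push_cast; rfl

lemma FF_re (h : (Fin N → ZMod 2) → ℂ) (S : Finset (Fin N)) :
    (FF h S).re = (∑ y : Fin N → Bool, (h (tv y)).re * chi S y) / 2 ^ N := by
  rw [FF_eq, Complex.div_ofReal_re, Complex.re_sum]
  congr 1
  exact Finset.sum_congr rfl fun y _ => Complex.re_mul_ofReal _ _

lemma FF_im (h : (Fin N → ZMod 2) → ℂ) (S : Finset (Fin N)) :
    (FF h S).im = (∑ y : Fin N → Bool, (h (tv y)).im * chi S y) / 2 ^ N := by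
  rw [FF_eq, Complex.div_ofReal_im, Complex.im_sum]
  congr 1
  exact Finset.sum_congr rfl fun y _ => Complex.im_mul_ofReal _ _

/-- the real coefficients of a weighted family -/
noncomputable def cc {m : ℕ} (f : Fin m → (Fin N → ZMod 2) → ℂ) (u : Fin m → ℝ)
    (k : Fin m × Bool) (S : Finset (Fin N)) : ℝ :=
  Real.sqrt (u k.1) * (if k.2 then (FF (f k.1) S).re else (FF (f k.1) S).im)

lemma cc_sum {m : ℕ} (f : Fin m → (Fin N → ZMod 2) → ℂ) (u : Fin m → ℝ) (hu : ∀ k, 0 < u k)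
    (A : Finset (Finset (Fin N))) :
    ∑ k, ∑ S ∈ A, cc f u k S ^ 2 = ∑ k, u k * ∑ S ∈ A, ‖FF (f k) S‖ ^ 2 := by
  rw [Fintype.sum_prod_type]
  refine Finset.sum_congr rfl fun k _ => ?_
  rw [Fintype.sum_bool, ← Finset.sum_add_distrib, Finset.mul_sum]
  refine Finset.sum_congr rfl fun S _ => ?_
  unfold cc
  simp only [if_true, Bool.false_eq_true, if_false]
  rw [mul_pow, mul_pow, Real.sq_sqrt (hu k).le, Complex.sq_norm, Complex.normSq_apply]
  ring

lemma FF_norm (h : (Fin N → ZMod 2) → ℂ) :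
    ∑ S : Finset (Fin N), ‖FF h S‖ ^ 2 = (∑ x, ‖h x‖ ^ 2) / 2 ^ N := by
  have h1 : ∀ S : Finset (Fin N), ‖FF h S‖ ^ 2 =
      ((∑ y : Fin N → Bool, (h (tv y)).re * chi S y) / 2 ^ N) ^ 2 +
      ((∑ y : Fin N → Bool, (h (tv y)).im * chi S y) / 2 ^ N) ^ 2 := by
    intro S
    rw [Complex.sq_norm, Complex.normSq_apply, FF_re, FF_im]; ring
  simp only [h1]
  rw [Finset.sum_add_distrib, norm_sq_eq (fun y => (h (tv y)).re),
    norm_sq_eq (fun y => (h (tv y)).im), ← add_div, ← Finset.sum_add_distrib,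
    ← Equiv.sum_comp tv]
  congr 1
  refine Finset.sum_congr rfl fun x _ => ?_
  rw [Complex.sq_norm, Complex.normSq_apply]; ring

lemma cc_fn {m : ℕ} (f : Fin m → (Fin N → ZMod 2) → ℂ) (u : Fin m → ℝ) (k : Fin m × Bool)
    (x : Fin N → Bool) (h : f k.1 (tv x) = 0) : fn (cc f u k) x = 0 := by
  have h1 : fn (cc f u k) x = Real.sqrt (u k.1) *
      fn (fun S => if k.2 then (FF (f k.1) S).re else (FF (f k.1) S).im) x := by
    unfold fn cc
    rw [Finset.mul_sum]
    refine Finset.sum_congr rfl fun S _ => by ring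
  rw [h1]
  rcases k with ⟨k, b⟩
  cases b
  · simp only [Bool.false_eq_true, if_false, FF_im]
    have := inversion (fun y => (f k (tv y)).im) x
    simp only at this h
    rw [this, h]; simp
  · simp only [if_true, FF_re]
    have := inversion (fun y => (f k (tv y)).re) x
    simp only at this h
    rw [this, h]; simp

/-- comparison of the influences -/
lemma inf_le (h : (Fin N → ZMod 2) → ℂ) (i : Fin N) :
    ∑ S ∈ Finset.univ.filter (fun S : Finset (Fin N) => i ∈ S), ‖FF h S‖ ^ 2 ≤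
      ∑ᶠ (χ : Fin N → AddChar (ZMod 2) ℂ) (_ : χ i ≠ 1),
          ‖(∑ x, h x * star (∏ j, χ j (x j))) / 2 ^ N‖ ^ 2 := by
  classical
  have hfin : Fintype (AddChar (ZMod 2) ℂ) := inferInstance
  rw [finsum_eq_sum_of_fintype]
  have h1 : ∀ χ : Fin N → AddChar (ZMod 2) ℂ, (∑ᶠ _ : χ i ≠ 1,
      ‖(∑ x, h x * star (∏ j, χ j (x j))) / 2 ^ N‖ ^ 2) = if χ i ≠ 1 then
      ‖(∑ x, h x * star (∏ j, χ j (x j))) / 2 ^ N‖ ^ 2 else 0 := fun χ => finsum_eq_if
  simp only [h1]
  rw [← Finset.sum_filter]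
  have h2 : ∑ S ∈ Finset.univ.filter (fun S : Finset (Fin N) => i ∈ S), ‖FF h S‖ ^ 2 =
      ∑ χ ∈ (Finset.univ.filter (fun S : Finset (Fin N) => i ∈ S)).image cs,
        ‖(∑ x, h x * star (∏ j, χ j (x j))) / 2 ^ N‖ ^ 2 := by
    rw [Finset.sum_image (fun S _ T _ h => cs_inj h)]
    rfl
  rw [h2]
  apply Finset.sum_le_sum_of_subset_of_nonneg
  · intro χ hχ
    obtain ⟨S, hS, rfl⟩ := Finset.mem_image.1 hχ
    rw [Finset.mem_filter] at hS ⊢
    exact ⟨Finset.mem_univ _, (cs_ne S i).2 hS.2⟩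
  · intro χ _ _; positivity

end Pool.Agent.H591R3.PC
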